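import Pool.Agent.Work.MP_f5717c_gt.K.Defs

/-!
Module AB0 (M-L). The covering of `Z2` with group `A` exists.

Proof. Give `A` the discrete topology (`letI : TopologicalSpace A := ⊥`). Use
`Z : FiberBundleCore (Fin 3) Z2 A` with `baseSet = U` (open: `im`, `re` are continuous),
`indexAt v = 0` if `v.im ≠ 0` or `v.re < 0`, `= 1` if `v.im = 0` and `0 < v.re < 1`, `= 2` otherwise
(if `v.im = 0` then `v.re ≠ 0, 1` since `v ≠ 0, 1`), and
`coordChange j k v f = if v.im < 0 then f * (tra a b j)⁻¹ * tra a b k else f`.
`coordChange_self`: clear. Points of `U j ∩ U k` with `j ≠ k` have `im ≠ 0`. `coordChange_comp` on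
`U i ∩ U j ∩ U k`: if `im < 0` telescoping; if `im > 0` or `im = 0` it is clear (`if_neg`).
`continuousOn_coordChange`: for `j = k` the map is `p ↦ p.2` on the set; for `j ≠ k` it is locally
constant in the first variable on the open sets `im < 0` and `im > 0` that cover `U j ∩ U k` (the
function `f ↦ f * c` is continuous for the discrete topology).
Take `E = Z.TotalSpace`, `p = Z.proj`, `g • ⟨v, f⟩ = ⟨v, g * f⟩`,
`χ j ⟨v, f⟩ = Z.coordChange (Z.indexAt v) j v f` `= (Z.localTriv j ⟨v, f⟩).2`.
* `IsCoveringMap p`: `FiberBundle.isCoveringMap` (discrete fibre). `p` is surjective.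
* `loc`: on the open set `p⁻¹ (U j)` the map `χ j` is the second component of the trivialization
  `Z.localTriv j`, continuous with values in a discrete space.
* `equi`: `coordChange .. (g * f) = g * coordChange .. f` (`mul_assoc`).
* `up`: `im > 0`: `coordChange .. f = f` for both. `low`: `im < 0`:
  `f (t_i)⁻¹ t_k = (f (t_i)⁻¹ t_j) (t_j)⁻¹ t_k`.
* `cov`: `Topology.isQuotientCoveringMap_iff_isCoveringMap_and` (see `Mathlib/Topology/Covering/Quotient.lean`,
  line 318) or directly: quotient map by `IsCoveringMap.isQuotientMap`; `continuous_const_smul g`: continuous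
  at each `e`, since near `e` (`p e ∈ U j`) the map `g • ·` is `(Z.localTriv j).symm ∘ (id × (g * ·)) ∘ Z.localTriv j`;
  `apply_eq_iff_mem_orbit`: `⟨v, f₁⟩ = (f₁ * f₂⁻¹) • ⟨v, f₂⟩`; `disjoint` at `e`: with `p e ∈ U j` take a
  neighbourhood inside `p⁻¹ (U j)` on which `χ j` is constant; if `e'` and `g • e'` are both in it then
  `χ j e' = χ j (g • e') = g * χ j e'`, so `g = 1`.
-/

namespace Pool.Kod

open Topology

section

variable {A : Type} [Group A]

private theorem U_open (j : Fin 3) : IsOpen (U j) := by
  have h1 : Continuous (fun v : Z2 => v.1.im) := Complex.continuous_im.comp continuous_subtype_val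
  have h2 : Continuous (fun v : Z2 => v.1.re) := Complex.continuous_re.comp continuous_subtype_val
  unfold U
  refine (isOpen_ne_fun h1 continuous_const).union (IsOpen.union ?_ (IsOpen.union ?_ ?_))
  · exact IsOpen.and isOpen_const (isOpen_lt h2 continuous_const)
  · exact IsOpen.and isOpen_const
      (IsOpen.and (isOpen_lt continuous_const h2) (isOpen_lt h2 continuous_const))
  · exact IsOpen.and isOpen_const (isOpen_lt continuous_const h2)

open Classical in
private noncomputable def idx (v : Z2) : Fin 3 :=
  if v.1.im ≠ 0 ∨ v.1.re < 0 then 0 else if v.1.re < 1 then 1 else 2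

private theorem idx_mem (v : Z2) : v ∈ U (idx v) := by
  unfold idx
  split_ifs with h1 h2
  · rcases h1 with h | h
    · exact Or.inl h
    · exact Or.inr (Or.inl ⟨rfl, h⟩)
  · push Not at h1
    have h0 : v.1.re ≠ 0 := fun h => v.2.1 (Complex.ext h h1.1)
    exact Or.inr (Or.inr (Or.inl ⟨rfl, lt_of_le_of_ne h1.2 (Ne.symm h0), h2⟩))
  · push Not at h1 h2
    have h0 : v.1.re ≠ 1 := fun h => v.2.2 (Complex.ext h h1.1)
    exact Or.inr (Or.inr (Or.inr ⟨rfl, lt_of_le_of_ne h2 (Ne.symm h0)⟩))

private theorem im_ne {j k : Fin 3} (hjk : j ≠ k) {v : Z2} (hj : v ∈ U j) (hk : v ∈ U k) :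
    v.1.im ≠ 0 := by
  intro h0
  rcases hj with h | ⟨e1, h⟩ | ⟨e1, h, h'⟩ | ⟨e1, h⟩
  · exact h h0
  · rcases hk with h2 | ⟨e2, h2⟩ | ⟨e2, h2, h2'⟩ | ⟨e2, h2⟩
    · exact h2 h0
    · exact hjk (e1.trans e2.symm)
    · linarith
    · linarith
  · rcases hk with h2 | ⟨e2, h2⟩ | ⟨e2, h2, h2'⟩ | ⟨e2, h2⟩
    · exact h2 h0
    · linarith
    · exact hjk (e1.trans e2.symm)
    · linarith
  · rcases hk with h2 | ⟨e2, h2⟩ | ⟨e2, h2, h2'⟩ | ⟨e2, h2⟩
    · exact h2 h0
    · linarith
    · linarith
    · exact hjk (e1.trans e2.symm)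

open Classical in
private noncomputable def cc (a b : A) (j k : Fin 3) (v : Z2) (f : A) : A :=
  if v.1.im < 0 then f * (tra a b j)⁻¹ * tra a b k else f

private theorem cc_self (a b : A) (j : Fin 3) (v : Z2) (f : A) : cc a b j j v f = f := by
  unfold cc
  split_ifs
  · exact inv_mul_cancel_right _ _
  · rfl

private theorem cc_comp (a b : A) (i j k : Fin 3) (v : Z2) (f : A) :
    cc a b j k v (cc a b i j v f) = cc a b i k v f := by
  unfold cc
  split_ifs
  · rw [mul_inv_cancel_right]
  · rfl

private theorem cc_mul (a b : A) (j k : Fin 3) (v : Z2) (g f : A) :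
    cc a b j k v (g * f) = g * cc a b j k v f := by
  unfold cc
  split_ifs
  · simp only [mul_assoc]
  · rfl

variable [TopologicalSpace A] [DiscreteTopology A]

private theorem cc_cont (a b : A) (j k : Fin 3) :
    ContinuousOn (fun p : Z2 × A => cc a b j k p.1 p.2) ((U j ∩ U k) ×ˢ Set.univ) := by
  by_cases hjk : j = k
  · subst hjk
    exact continuousOn_snd.congr (fun p _ => cc_self a b j p.1 p.2)
  · intro p hp
    have him : p.1.1.im ≠ 0 := im_ne hjk hp.1.1 hp.1.2
    have h1 : Continuous (fun p : Z2 × A => p.1.1.im) :=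
      Complex.continuous_im.comp (continuous_subtype_val.comp continuous_fst)
    apply ContinuousAt.continuousWithinAt
    rcases lt_or_gt_of_ne him with h | h
    · have h2 : ∀ᶠ q in 𝓝 p, cc a b j k q.1 q.2 = q.2 * (tra a b j)⁻¹ * tra a b k := by
        filter_upwards [(isOpen_lt h1 continuous_const).mem_nhds h] with q hq
        exact if_pos hq
      have h3 : Continuous (fun q : Z2 × A => q.2 * (tra a b j)⁻¹ * tra a b k) :=
        (continuous_of_discreteTopology (f := fun x : A => x * (tra a b j)⁻¹ * tra a b k)).comp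
          continuous_snd
      exact h3.continuousAt.congr (h2.mono (fun q hq => hq.symm))
    · have h2 : ∀ᶠ q in 𝓝 p, cc a b j k q.1 q.2 = q.2 := by
        filter_upwards [(isOpen_lt continuous_const h1).mem_nhds h] with q hq
        have hq' : (0 : ℝ) < q.1.1.im := hq
        exact if_neg (not_lt.2 hq'.le)
      exact continuous_snd.continuousAt.congr (h2.mono (fun q hq => hq.symm))

private noncomputable def core (a b : A) : FiberBundleCore (Fin 3) Z2 A where
  baseSet := U
  isOpen_baseSet := U_open
  indexAt := idx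
  mem_baseSet_at := idx_mem
  coordChange := cc a b
  coordChange_self := fun i x _ v => cc_self a b i x v
  continuousOn_coordChange := cc_cont a b
  coordChange_comp := fun i j k x _ v => cc_comp a b i j k x v

private noncomputable abbrev ES (a b : A) : Type := (core a b).TotalSpace

private noncomputable def mk' (a b : A) (v : Z2) (f : A) : ES a b := ⟨v, f⟩

private noncomputable def snd' (a b : A) (e : ES a b) : A := e.2

@[reducible] private noncomputable def actE (a b : A) : MulAction A (ES a b) where
  smul g e := mk' a b e.1 (g * snd' a b e)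
  one_smul e := by
    change mk' a b e.1 (1 * snd' a b e) = e
    rw [one_mul]
    rfl
  mul_smul g h e := by
    change mk' a b e.1 (g * h * snd' a b e) = mk' a b e.1 (g * (h * snd' a b e))
    rw [mul_assoc]

private noncomputable def chi (a b : A) (j : Fin 3) (e : ES a b) : A :=
  cc a b (idx e.1) j e.1 (snd' a b e)

private theorem proj_cont (a b : A) : Continuous (fun e : ES a b => e.1) :=
  (core a b).continuous_proj

private theorem chi_cont (a b : A) (j : Fin 3) (e : ES a b) (he : e.1 ∈ U j) :
    ContinuousAt (chi a b j) e := by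
  have h1 : e ∈ ((core a b).localTriv j).source := he
  have h2 : ContinuousAt ((core a b).localTriv j) e :=
    ((core a b).localTriv j).toOpenPartialHomeomorph.continuousAt h1
  exact continuous_snd.continuousAt.comp h2

private theorem chi_loc (a b : A) (j : Fin 3) (e : ES a b) (he : e.1 ∈ U j) :
    ∀ᶠ e' in 𝓝 e, chi a b j e' = chi a b j e :=
  (chi_cont a b j e he).preimage_mem_nhds ((isOpen_discrete {chi a b j e}).mem_nhds rfl)

private theorem smul_cont (a b : A) (g : A) :
    Continuous (fun e : ES a b => mk' a b e.1 (g * snd' a b e)) := by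
  refine continuous_iff_continuousAt.2 (fun e => ?_)
  let tr := (core a b).localTriv (idx e.1)
  have hsrc : (fun e' : ES a b => mk' a b e'.1 (g * snd' a b e')) ⁻¹' tr.source ∈ 𝓝 e := by
    have h1 : IsOpen {e' : ES a b | e'.1 ∈ U (idx e.1)} :=
      (U_open (idx e.1)).preimage (proj_cont a b)
    exact h1.mem_nhds (idx_mem e.1)
  refine (tr.toOpenPartialHomeomorph.continuousAt_iff_continuousAt_comp_left hsrc).2 ?_
  have h2 : ContinuousAt tr e :=
    tr.toOpenPartialHomeomorph.continuousAt (show e.1 ∈ U (idx e.1) from idx_mem e.1)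
  have h3 : Continuous (fun q : Z2 × A => (q.1, g * q.2)) :=
    continuous_fst.prodMk ((continuous_of_discreteTopology (f := fun x : A => g * x)).comp
      continuous_snd)
  have h4 := h3.continuousAt.comp h2
  refine h4.congr (Filter.Eventually.of_forall (fun e' => ?_))
  refine Prod.ext rfl ?_
  exact (cc_mul a b (idx e'.1) (idx e.1) e'.1 g (snd' a b e')).symm

end

theorem exists_abund (A : Type) [Group A] (a b : A) : Nonempty (ABund A a b) := by
  letI : TopologicalSpace A := ⊥
  haveI : DiscreteTopology A := ⟨rfl⟩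
  letI := actE a b
  have hcov : IsCoveringMap (fun e : ES a b => e.1) :=
    FiberBundle.isCoveringMap (F := A) (E := (core a b).Fiber)
  refine ⟨{ E := ES a b, top := inferInstance, act := actE a b, p := fun e => e.1, cov := ?_,
            χ := chi a b, loc := chi_loc a b, equi := ?_, up := ?_, low := ?_ }⟩
  · refine (isQuotientCoveringMap_iff_isCoveringMap_and _ _).2 ⟨hcov, ?_, ⟨fun g => smul_cont a b g⟩,
      ⟨?_⟩, ?_⟩
    · intro v
      exact ⟨mk' a b v 1, rfl⟩
    · intro g h e he
      have h1 : g * snd' a b e = h * snd' a b e := by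
        have h2 := congrArg (chi a b (idx e.1)) he
        have h3 : ∀ x : A, chi a b (idx e.1) (mk' a b e.1 (x * snd' a b e)) = x * snd' a b e :=
          fun x => cc_self a b _ _ _
        exact (h3 g).symm.trans (h2.trans (h3 h))
      exact mul_right_cancel h1
    · intro e₁ e₂
      constructor
      · intro h
        refine ⟨snd' a b e₁ * (snd' a b e₂)⁻¹, ?_⟩
        change mk' a b e₂.1 (snd' a b e₁ * (snd' a b e₂)⁻¹ * snd' a b e₂) = e₁
        rw [inv_mul_cancel_right]
        obtain ⟨v₁, f₁⟩ := e₁
        obtain ⟨v₂, f₂⟩ := e₂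
        have h' : v₁ = v₂ := h
        subst h'
        rfl
      · rintro ⟨g, rfl⟩
        rfl
  · intro j g e _
    exact cc_mul a b _ _ _ _ _
  · intro j k e he
    have he' : ¬ (e.1.1.im < 0) := not_lt.2 (le_of_lt he)
    change cc a b _ _ _ _ = cc a b _ _ _ _
    unfold cc
    rw [if_neg he', if_neg he']
  · intro j k e he
    exact (cc_comp a b (idx e.1) j k e.1 (snd' a b e)).symm.trans (if_pos he)

end Pool.Kod
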