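import Pool.Agent.Work.MP_f5717c_gt.K.Defs

/-!
Module AB1 (S). A chart coordinate is constant along a curve that stays in the chart.

Proof. The function `f = fun x => B.χ j (Γ x)` is locally constant at the points of `S`: by `B.loc` and
continuity of `Γ`, for `x ∈ S` eventually in `𝓝 x` one has `f x' = f x`. A function that is locally
constant on a preconnected set is constant on it: e.g. with the discrete topology on `A`, `f` is
`ContinuousOn` on `S`, so `f '' S` is preconnected (`IsPreconnected.image`) and hence a subsingleton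
(`IsPreconnected.subsingleton` in a totally disconnected / discrete space); or
`IsPreconnected.constant_of_mapsTo`.
-/

namespace Pool.Kod

open unitInterval

theorem chi_const {A : Type} [Group A] {a b : A} (B : ABund A a b) (Γ : C(I, B.E)) (S : Set I)
    (hS : IsPreconnected S) (j : Fin 3) (hU : ∀ x ∈ S, B.p (Γ x) ∈ U j) :
    ∀ x ∈ S, ∀ y ∈ S, B.χ j (Γ x) = B.χ j (Γ y) := by
  intro x hx y hy
  letI : TopologicalSpace A := ⊥
  haveI : DiscreteTopology A := ⟨rfl⟩
  refine hS.constant (f := fun z => B.χ j (Γ z)) ?_ hx hy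
  intro z hz
  have h1 : ∀ᶠ e' in nhds (Γ z), B.χ j e' = B.χ j (Γ z) := B.loc j (Γ z) (hU z hz)
  have h2 : ∀ᶠ w in nhds z, B.χ j (Γ w) = B.χ j (Γ z) := (Γ.continuous.tendsto z).eventually h1
  have h3 : Filter.Tendsto (fun w => B.χ j (Γ w)) (nhds z) (nhds (B.χ j (Γ z))) :=
    tendsto_const_nhds.congr' (h2.mono fun _ h => h.symm)
  exact h3.mono_left nhdsWithin_le_nhds

end Pool.Kod
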