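import Pool.Agent.Work.MP_f5717c_gt.K.Defs

/-!
Module AB2 (M). Small loops around `0` have monodromy of order dividing `m` if `a^m = 1`.

Proof. Let `g = (B.Phi e [κ]).unop`, so `g • e = cov.monodromy [κ] e`
(`IsQuotientCoveringMap.unop_fundamentalGroupToMulOpposite_smul`), i.e. the lift `Γ : C(I, B.E)` of `κ` that
starts at `e` (`IsCoveringMap.liftPath`) ends at `g • e`. Let `C = Subgroup.zpowers a`. Define
`q : B.E → A ⧸ C` on the points with `‖p e‖ < 1` by `q e' = [χ 0 e']` if `p e' ∈ U 0` and `q e' = [χ 1 e']` if not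
(then `im = 0` and `0 < re < 1`, since `‖v‖ < 1`, `v ≠ 0`, so `p e' ∈ U 1`). If `p e' ∈ U 0 ∩ U 1` (`im ≠ 0`) then
`[χ 0 e'] = [χ 1 e']`: for `im > 0` by `up`, for `im < 0` by `low`: `χ 1 e' = χ 0 e' * 1⁻¹ * a`. So near each
point `q` equals the class of `χ 0` or of `χ 1` and is locally constant (`B.loc`); hence `q (Γ x)` is
constant on `I` (preconnected, cf. AB1). At the ends, with the same chart `j ∈ {0, 1}`:
`[χ j (g • e)] = [χ j e]`, i.e. `χ j e⁻¹ * g * χ j e ∈ C` (`equi`), so `χ j e⁻¹ * g * χ j e = a^k` and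
`g^m = χ j e * a^(k m) * χ j e⁻¹ = 1`. Finally `(B.Phi e [κ])^m = op (g^m) = 1`.
-/

namespace Pool.Kod

open unitInterval

private theorem n0_open (j : Fin 3) : IsOpen (U j) := by
  have hre : Continuous fun v : Z2 => v.1.re := Complex.continuous_re.comp continuous_subtype_val
  have him : Continuous fun v : Z2 => v.1.im := Complex.continuous_im.comp continuous_subtype_val
  have h1 : IsOpen {v : Z2 | v.1.im ≠ 0} := isOpen_ne_fun him continuous_const
  have h2 : IsOpen {v : Z2 | v.1.re < 0} := isOpen_lt hre continuous_const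
  have h3 : IsOpen {v : Z2 | 0 < v.1.re ∧ v.1.re < 1} :=
    (isOpen_lt continuous_const hre).inter (isOpen_lt hre continuous_const)
  have h4 : IsOpen {v : Z2 | 1 < v.1.re} := isOpen_lt continuous_const hre
  fin_cases j
  · have : U 0 = {v : Z2 | v.1.im ≠ 0} ∪ {v : Z2 | v.1.re < 0} := by
      ext v; simp [U]
    exact this ▸ h1.union h2
  · have : U 1 = {v : Z2 | v.1.im ≠ 0} ∪ {v : Z2 | 0 < v.1.re ∧ v.1.re < 1} := by
      ext v; simp [U]
    exact this ▸ h1.union h3
  · have : U 2 = {v : Z2 | v.1.im ≠ 0} ∪ {v : Z2 | 1 < v.1.re} := by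
      ext v; simp [U]
    exact this ▸ h1.union h4

private theorem n0_class {A : Type} [Group A] {a b : A} (B : ABund A a b) (e : B.E)
    (h : (B.p e).1.im ≠ 0) :
    (QuotientGroup.mk (B.χ 0 e) : A ⧸ Subgroup.zpowers a) = QuotientGroup.mk (B.χ 1 e) := by
  rw [QuotientGroup.eq]
  rcases lt_or_gt_of_ne h with h1 | h1
  · rw [B.low 0 1 e h1]
    have : (B.χ 0 e)⁻¹ * (B.χ 0 e * (tra a b 0)⁻¹ * tra a b 1) = a := by
      simp [tra, mul_assoc]
    rw [this]
    exact Subgroup.mem_zpowers a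
  · rw [B.up 0 1 e h1, inv_mul_cancel]
    exact one_mem _

theorem near0 {A : Type} [Group A] {a b : A} (B : ABund A a b) (m : ℕ) (ha : a ^ m = 1) {z : Z2}
    (e : B.p ⁻¹' {z}) (κ : Path z z) (h : ∀ θ : I, ‖(κ θ).1‖ < 1) :
    (B.Phi e (FundamentalGroup.fromPath (Path.Homotopic.Quotient.mk κ))) ^ m = 1 := by
  classical
  obtain ⟨g, hg⟩ : ∃ g, g = (B.Phi e (FundamentalGroup.fromPath (Path.Homotopic.Quotient.mk κ))).unop :=
    ⟨_, rfl⟩
  have he : B.p e.1 = z := e.2
  have hκ : κ.toContinuousMap 0 = B.p e.1 := κ.source.trans he.symm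
  obtain ⟨Γ, hΓ⟩ : ∃ Γ, Γ = B.cov.isCoveringMap.liftPath κ.toContinuousMap e.1 hκ := ⟨_, rfl⟩
  have h0 : Γ 0 = e.1 := by rw [hΓ]; exact B.cov.isCoveringMap.liftPath_zero _ _ _
  have hp : ∀ θ, B.p (Γ θ) = κ θ := by
    intro θ
    rw [hΓ]
    exact congrFun (B.cov.isCoveringMap.liftPath_lifts _ _ _) θ
  have h1 : Γ 1 = g • e.1 := by
    rw [hg, hΓ]
    exact (B.cov.unop_fundamentalGroupToMulOpposite_smul (e := e)
      (γ := FundamentalGroup.fromPath (Path.Homotopic.Quotient.mk κ))).symm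
  obtain ⟨q, hq⟩ : ∃ q : B.E → A ⧸ Subgroup.zpowers a, ∀ e', q e' =
      if B.p e' ∈ U 0 then QuotientGroup.mk (B.χ 0 e') else QuotientGroup.mk (B.χ 1 e') := ⟨_, fun _ => rfl⟩
  have hpc : Continuous B.p := B.cov.isCoveringMap.continuous
  have hloc : ∀ θ, ∀ᶠ e' in nhds (Γ θ), q e' = q (Γ θ) := by
    intro θ
    by_cases hU : B.p (Γ θ) ∈ U 0
    · have k1 : ∀ᶠ e' in nhds (Γ θ), B.p e' ∈ U 0 :=
        hpc.continuousAt.eventually ((n0_open 0).mem_nhds hU)
      filter_upwards [k1, B.loc 0 (Γ θ) hU] with e' h2 h3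
      rw [hq, hq, if_pos h2, if_pos hU, h3]
    · have hn : ‖(B.p (Γ θ)).1‖ < 1 := by rw [hp]; exact h θ
      have him : (B.p (Γ θ)).1.im = 0 := by
        by_contra hc
        exact hU (Or.inl hc)
      have hre0 : ¬ (B.p (Γ θ)).1.re < 0 := fun hc => hU (Or.inr (Or.inl ⟨rfl, hc⟩))
      have hre1 : (B.p (Γ θ)).1.re ≠ 0 := by
        intro hc
        exact (B.p (Γ θ)).2.1 (Complex.ext hc him)
      have hpos : 0 < (B.p (Γ θ)).1.re := lt_of_le_of_ne (not_lt.1 hre0) hre1.symm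
      have hlt : (B.p (Γ θ)).1.re < 1 := lt_of_le_of_lt (Complex.re_le_norm _) hn
      have hU1 : B.p (Γ θ) ∈ U 1 := Or.inr (Or.inr (Or.inl ⟨rfl, hpos, hlt⟩))
      have k2 : ∀ᶠ e' in nhds (Γ θ), 0 < (B.p e').1.re := by
        have hc : Continuous fun e' => (B.p e').1.re :=
          Complex.continuous_re.comp (continuous_subtype_val.comp hpc)
        exact hc.continuousAt.eventually (lt_mem_nhds hpos)
      filter_upwards [k2, B.loc 1 (Γ θ) hU1] with e' h2 h3
      rw [hq, hq, if_neg hU, ← h3]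
      by_cases h4 : B.p e' ∈ U 0
      · rw [if_pos h4]
        refine n0_class B e' ?_
        rcases h4 with h4 | h4 | h4 | h4
        · exact h4
        · exact absurd h4.2 (not_lt.2 h2.le)
        · exact absurd h4.1 (by decide)
        · exact absurd h4.1 (by decide)
      · rw [if_neg h4]
  have hconst : q (Γ 0) = q (Γ 1) := by
    let _t : TopologicalSpace (A ⧸ Subgroup.zpowers a) := ⊥
    have _d : DiscreteTopology (A ⧸ Subgroup.zpowers a) := ⟨rfl⟩
    refine isPreconnected_univ.constant (f := fun x => q (Γ x)) ?_ (Set.mem_univ _) (Set.mem_univ _)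
    intro w _
    have h2 : ∀ᶠ x in nhds w, q (Γ x) = q (Γ w) := (Γ.continuous.tendsto w).eventually (hloc w)
    have h3 : Filter.Tendsto (fun x => q (Γ x)) (nhds w) (nhds (q (Γ w))) :=
      tendsto_const_nhds.congr' (h2.mono fun _ h => h.symm)
    exact h3.mono_left nhdsWithin_le_nhds
  have hfin : ∀ j : Fin 3, B.p e.1 ∈ U j →
      (QuotientGroup.mk (B.χ j e.1) : A ⧸ Subgroup.zpowers a) = QuotientGroup.mk (B.χ j (g • e.1)) →
      g ^ m = 1 := by
    intro j hj h2
    rw [B.equi j g e.1 hj, QuotientGroup.eq, Subgroup.mem_zpowers_iff] at h2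
    obtain ⟨k, hk⟩ := h2
    have h3 : g = B.χ j e.1 * a ^ k * (B.χ j e.1)⁻¹ := by
      rw [hk]; group
    have h4 : (a ^ k) ^ m = 1 := by
      rw [← zpow_natCast, ← zpow_mul, mul_comm, zpow_mul, zpow_natCast, ha, one_zpow]
    rw [h3, conj_pow, h4]
    group
  have hpe : B.p (g • e.1) = B.p e.1 := B.cov.map_smul g
  have hgm : g ^ m = 1 := by
    rw [h0, h1, hq, hq, hpe] at hconst
    by_cases hU : B.p e.1 ∈ U 0
    · rw [if_pos hU, if_pos hU] at hconst
      exact hfin 0 hU hconst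
    · rw [if_neg hU, if_neg hU] at hconst
      refine hfin 1 ?_ hconst
      have hn : ‖(B.p e.1).1‖ < 1 := by
        have := h 0
        rw [← hp, h0] at this
        exact this
      have him : (B.p e.1).1.im = 0 := by
        by_contra hc
        exact hU (Or.inl hc)
      have hre0 : ¬ (B.p e.1).1.re < 0 := fun hc => hU (Or.inr (Or.inl ⟨rfl, hc⟩))
      have hre1 : (B.p e.1).1.re ≠ 0 := by
        intro hc
        exact (B.p e.1).2.1 (Complex.ext hc him)
      exact Or.inr (Or.inr (Or.inl ⟨rfl, lt_of_le_of_ne (not_lt.1 hre0) hre1.symm,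
        lt_of_le_of_lt (Complex.re_le_norm _) hn⟩))
  apply MulOpposite.unop_injective
  rw [MulOpposite.unop_pow, ← hg, hgm, MulOpposite.unop_one]

end Pool.Kod
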