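import Pool.Agent.Work.MP_f5717c_gt.K.Defs

/-!
Module AB3 (M). Small loops around `1` have monodromy of order dividing `m` if `b^m = 1`.

Proof. Exactly as AB2 with the charts `1` and `2`, the subgroup `C = Subgroup.zpowers b`, and
`q e' = [χ 1 e']` if `p e' ∈ U 1`, `q e' = [χ 2 e']` otherwise (then `im = 0`, and `‖v - 1‖ < 1`, `v ≠ 1` gives
`re > 0`, `re ≠ 1`, so `re > 1` and `p e' ∈ U 2`). For `im < 0`: `χ 2 e' = χ 1 e' * a⁻¹ * (a * b) = χ 1 e' * b`.
Details: let `g = (B.Phi e [κ]).unop`, so `g • e = cov.monodromy [κ] e`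
(`IsQuotientCoveringMap.unop_fundamentalGroupToMulOpposite_smul`), i.e. the lift `Γ` of `κ` from `e`
(`IsCoveringMap.liftPath`) ends at `g • e`; `q (Γ x)` is locally constant on `I`, hence constant; at the ends
`[χ j (g • e)] = [χ j e]`, so `χ j e⁻¹ * g * χ j e = b^k`, `g^m = 1`.
-/

namespace Pool.Kod

open unitInterval Topology

private theorem U_open' (j : Fin 3) : IsOpen (U j) := by
  have h1 : Continuous (fun v : Z2 => v.1.im) := Complex.continuous_im.comp continuous_subtype_val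
  have h2 : Continuous (fun v : Z2 => v.1.re) := Complex.continuous_re.comp continuous_subtype_val
  unfold U
  refine (isOpen_ne_fun h1 continuous_const).union (IsOpen.union ?_ (IsOpen.union ?_ ?_))
  · exact IsOpen.and isOpen_const (isOpen_lt h2 continuous_const)
  · exact IsOpen.and isOpen_const
      (IsOpen.and (isOpen_lt continuous_const h2) (isOpen_lt h2 continuous_const))
  · exact IsOpen.and isOpen_const (isOpen_lt continuous_const h2)

open Classical in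

/-- Loops inside the union of two charts. -/
private theorem two_charts {A : Type} [Group A] {a b : A} (B : ABund A a b) (m : ℕ) (c : A)
    (hc : c ^ m = 1) (j k : Fin 3) (hjk : (tra a b j)⁻¹ * tra a b k ∈ Subgroup.zpowers c)
    {z : Z2} (e : B.p ⁻¹' {z}) (κ : Path z z) (h : ∀ θ : I, κ θ ∈ U j ∨ κ θ ∈ U k)
    (hjk2 : ∀ θ : I, κ θ ∈ U j → κ θ ∈ U k → (κ θ).1.im ≠ 0) :
    (B.Phi e (FundamentalGroup.fromPath (Path.Homotopic.Quotient.mk κ))) ^ m = 1 := by
  classical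
  set g := (B.Phi e (FundamentalGroup.fromPath (Path.Homotopic.Quotient.mk κ))).unop with hg
  have hmon : g • e.1 = (B.cov.isCoveringMap.monodromy (Path.Homotopic.Quotient.mk κ) e).1 :=
    B.cov.unop_fundamentalGroupToMulOpposite_smul
  set Γ := B.cov.isCoveringMap.liftPath (κ : C(I, Z2)) e.1 (κ.source.trans e.2.symm) with hΓ
  have hΓ0 : Γ 0 = e.1 := B.cov.isCoveringMap.liftPath_zero ..
  have hΓ1 : Γ 1 = g • e.1 := hmon.symm
  have hΓp : ∀ θ, B.p (Γ θ) = κ θ := fun θ =>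
    congrFun (B.cov.isCoveringMap.liftPath_lifts (κ : C(I, Z2)) e.1 (κ.source.trans e.2.symm)) θ
  let C := Subgroup.zpowers c
  have hcc : ∀ θ, κ θ ∈ U j → κ θ ∈ U k →
      (QuotientGroup.mk (B.χ j (Γ θ)) : A ⧸ C) = QuotientGroup.mk (B.χ k (Γ θ)) := by
    intro θ h1 h2
    have h3 := hjk2 θ h1 h2
    rcases lt_or_gt_of_ne h3 with h4 | h4
    · have h5 := B.low j k (Γ θ) (by rw [hΓp]; exact h4)
      rw [h5, QuotientGroup.eq]
      have h6 : (B.χ j (Γ θ))⁻¹ * (B.χ j (Γ θ) * (tra a b j)⁻¹ * tra a b k) =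
          (tra a b j)⁻¹ * tra a b k := by group
      rw [h6]
      exact hjk
    · rw [B.up j k (Γ θ) (by rw [hΓp]; exact h4)]
  let f : I → A ⧸ C := fun θ =>
    if κ θ ∈ U j then QuotientGroup.mk (B.χ j (Γ θ)) else QuotientGroup.mk (B.χ k (Γ θ))
  have hfj : ∀ θ, κ θ ∈ U j → f θ = QuotientGroup.mk (B.χ j (Γ θ)) := fun θ hθ => if_pos hθ
  have hfk : ∀ θ, κ θ ∈ U k → f θ = QuotientGroup.mk (B.χ k (Γ θ)) := by
    intro θ hθ
    by_cases h1 : κ θ ∈ U j
    · rw [hfj θ h1]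
      exact hcc θ h1 hθ
    · exact if_neg h1
  have hloc : ∀ (i : Fin 3), (∀ θ, κ θ ∈ U i → f θ = QuotientGroup.mk (B.χ i (Γ θ))) →
      ∀ θ, κ θ ∈ U i → ∀ᶠ θ' in 𝓝 θ, f θ' = f θ := by
    intro i hi θ hθ
    have h1 : ∀ᶠ θ' in 𝓝 θ, B.χ i (Γ θ') = B.χ i (Γ θ) :=
      Γ.continuous.continuousAt.eventually (B.loc i (Γ θ) (by rw [hΓp]; exact hθ))
    have h2 : ∀ᶠ θ' in 𝓝 θ, κ θ' ∈ U i :=
      κ.continuous.continuousAt.eventually ((U_open' i).mem_nhds hθ)
    filter_upwards [h1, h2] with θ' h3 h4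
    rw [hi θ' h4, hi θ hθ, h3]
  have hlc : IsLocallyConstant f := by
    rw [IsLocallyConstant.iff_eventually_eq]
    intro θ
    rcases h θ with h1 | h1
    · exact hloc j hfj θ h1
    · exact hloc k hfk θ h1
  have h01 : f 1 = f 0 := hlc.apply_eq_of_preconnectedSpace 1 0
  have hfin : ∀ i : Fin 3, κ 0 ∈ U i → f 0 = QuotientGroup.mk (B.χ i (Γ 0)) →
      f 1 = QuotientGroup.mk (B.χ i (Γ 1)) → g ^ m = 1 := by
    intro i hi h2 h3
    rw [h2, h3, hΓ0, hΓ1, B.equi i g e.1 (by rw [← hΓ0, hΓp]; exact hi), eq_comm,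
      QuotientGroup.eq] at h01
    obtain ⟨n, hn⟩ := Subgroup.mem_zpowers_iff.1 h01
    have h4 : ((B.χ i e.1)⁻¹ * (g * B.χ i e.1)) ^ m = 1 := by
      rw [← hn, ← zpow_natCast, ← zpow_mul, mul_comm, zpow_mul, zpow_natCast, hc, one_zpow]
    have h5 : (B.χ i e.1)⁻¹ * (g * B.χ i e.1) = (B.χ i e.1)⁻¹ * g * (B.χ i e.1)⁻¹⁻¹ := by group
    rw [h5, conj_pow] at h4
    have h6 : g ^ m = B.χ i e.1 * ((B.χ i e.1)⁻¹ * g ^ m * (B.χ i e.1)⁻¹⁻¹) * (B.χ i e.1)⁻¹ := by
      group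
    rw [h6, h4]
    group
  have hκ10 : κ 1 = κ 0 := by rw [κ.source, κ.target]
  have hgm : g ^ m = 1 := by
    rcases h 0 with h1 | h1
    · exact hfin j h1 (hfj 0 h1) (hfj 1 (by rw [hκ10]; exact h1))
    · exact hfin k h1 (hfk 0 h1) (hfk 1 (by rw [hκ10]; exact h1))
  apply MulOpposite.unop_injective
  rw [MulOpposite.unop_pow, MulOpposite.unop_one]
  exact hgm

theorem near1 {A : Type} [Group A] {a b : A} (B : ABund A a b) (m : ℕ) (hb : b ^ m = 1) {z : Z2}
    (e : B.p ⁻¹' {z}) (κ : Path z z) (h : ∀ θ : I, ‖(κ θ).1 - 1‖ < 1) :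
    (B.Phi e (FundamentalGroup.fromPath (Path.Homotopic.Quotient.mk κ))) ^ m = 1 := by
  apply two_charts B m b hb 1 2 _ e κ
  · intro θ
    by_cases him : (κ θ).1.im = 0
    · have h1 : |(κ θ).1.re - 1| < 1 := by
        have h2 := Complex.abs_re_le_norm ((κ θ).1 - 1)
        rw [Complex.sub_re, Complex.one_re] at h2
        exact lt_of_le_of_lt h2 (h θ)
      have h3 := abs_lt.1 h1
      have h4 : (κ θ).1.re ≠ 1 := by
        intro h5
        apply (κ θ).2.2
        apply Complex.ext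
        · rw [h5, Complex.one_re]
        · rw [him, Complex.one_im]
      rcases lt_or_gt_of_ne h4 with h6 | h6
      · exact Or.inl (Or.inr (Or.inr (Or.inl ⟨rfl, by linarith, h6⟩)))
      · exact Or.inr (Or.inr (Or.inr (Or.inr ⟨rfl, h6⟩)))
    · exact Or.inl (Or.inl him)
  · intro θ h1 h2 h0
    rcases h1 with h1 | ⟨h1, _⟩ | ⟨_, _, h1⟩ | ⟨h1, _⟩
    · exact h1 h0
    · exact absurd h1 (by decide)
    · rcases h2 with h2 | ⟨h2, _⟩ | ⟨h2, _⟩ | ⟨_, h2⟩
      · exact h2 h0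
      · exact absurd h2 (by decide)
      · exact absurd h2 (by decide)
      · linarith
    · exact absurd h1 (by decide)
  · have h1 : (tra a b 1)⁻¹ * tra a b 2 = b := by
      change a⁻¹ * (a * b) = b
      group
    rw [h1]
    exact Subgroup.mem_zpowers b

end Pool.Kod
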