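import Mathlib

/-!
Module Sq (S-M). The two ways along the boundary of a square are homotopic.

Proof. `I × I` is simply connected (it is contractible: `I` is contractible; or it is convex), so the
two paths from `(0,0)` to `(1,1)` in `I × I`, `(t ↦ (t,0))` followed by `(t ↦ (1,t))` and `(t ↦ (0,t))`
followed by `(t ↦ (t,1))`, are homotopic (`SimplyConnectedSpace.paths_homotopic`). Apply
`Path.Homotopic.map` with `H` and `Path.map_trans`; the images are the given paths up to the
endpoints, which are equal: `a = p 0 = H (0,0)` and so on (`subst` or `Path.Homotopic.pathCast`,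
`Path.ext`).
-/

namespace Pool.Kod

open unitInterval

theorem square {X : Type*} [TopologicalSpace X] (H : C(I × I, X)) {a b c d : X} (p : Path a b)
    (q : Path b c) (p' : Path a d) (q' : Path d c) (hp : ∀ t, p t = H (t, 0))
    (hq : ∀ t, q t = H (1, t)) (hp' : ∀ t, p' t = H (0, t)) (hq' : ∀ t, q' t = H (t, 1)) :
    (p.trans q).Homotopic (p'.trans q') := by
  have ea : a = H (0, 0) := by rw [← hp 0, p.source]
  have eb : b = H (1, 0) := by rw [← hp 1, p.target]
  have ec : c = H (1, 1) := by rw [← hq 1, q.target]
  have ed : d = H (0, 1) := by rw [← hp' 1, p'.target]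
  subst ea eb ec ed
  let P : Path ((0, 0) : I × I) (1, 0) :=
    { toFun := fun t => (t, 0), continuous_toFun := by fun_prop, source' := rfl, target' := rfl }
  let Q : Path ((1, 0) : I × I) (1, 1) :=
    { toFun := fun t => (1, t), continuous_toFun := by fun_prop, source' := rfl, target' := rfl }
  let P' : Path ((0, 0) : I × I) (0, 1) :=
    { toFun := fun t => (0, t), continuous_toFun := by fun_prop, source' := rfl, target' := rfl }
  let Q' : Path ((0, 1) : I × I) (1, 1) :=
    { toFun := fun t => (t, 1), continuous_toFun := by fun_prop, source' := rfl, target' := rfl }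
  have hI : ContractibleSpace I :=
    (convex_Icc (0 : ℝ) 1).contractibleSpace ⟨0, by norm_num, by norm_num⟩
  have h1 : (P.trans Q).Homotopic (P'.trans Q') := SimplyConnectedSpace.paths_homotopic _ _
  have h2 := h1.map H
  have e1 : (P.trans Q).map H.continuous = p.trans q := by
    rw [Path.map_trans]
    congr 1
    · ext t; exact (hp t).symm
    · ext t; exact (hq t).symm
  have e2 : (P'.trans Q').map H.continuous = p'.trans q' := by
    rw [Path.map_trans]
    congr 1
    · ext t; exact (hp' t).symm
    · ext t; exact (hq' t).symm
  have h3 : ((P.trans Q).map H.continuous).Homotopic ((P'.trans Q').map H.continuous) := h2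
  rw [e1, e2] at h3
  exact h3

end Pool.Kod
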