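import Pool.Agent.Work.MP_f5717c_gt.K.Defs
import Pool.Agent.Work.MP_f5717c_gt.K.Sq

/-!
Module AB8 (M). Change of the base point, and free homotopies of loops.

Proof. `Phi_conj`: let `cov = B.cov.isCoveringMap` and `e' = cov.monodromy (mk ω) e`. For a loop `κ` at `w` put
`g = (B.Phi e' [κ]).unop`, so `cov.monodromy [κ] e' = g • e'`
(`IsQuotientCoveringMap.unop_fundamentalGroupToMulOpposite_smul`). Then
`cov.monodromy [(ω κ) ω⁻¹] e = cov.monodromy [ω⁻¹] (g • e') = g • cov.monodromy [ω⁻¹] e' = g • e`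
(`monodromy_trans_apply`, `IsQuotientCoveringMap.monodromy_toPermFiber`; the path `ω ω⁻¹` is homotopic to
the constant path, `monodromy_refl`). So `(B.Phi e [(ω κ) ω⁻¹]).unop = g`
(`fundamentalGroupToMulOpposite_apply_eq_Iff`).
`Phi_free`: `square` applied to `H` with `p = ω` (`τ ↦ H (τ, 0)`), `q = κ₁` (`H (1, θ)`), `p' = κ₀` (`H (0, θ)`),
`q' = ω` (`H (τ, 1)`): `ω κ₁ ≃ κ₀ ω`, so `κ₀ ≃ (ω κ₁) ω⁻¹`; apply `Phi_conj`.
-/

namespace Pool.Kod

open unitInterval

theorem Phi_conj {A : Type} [Group A] {a b : A} (B : ABund A a b) {z w : Z2} (e : B.p ⁻¹' {z})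
    (ω : Path z w) : ∃ e' : B.p ⁻¹' {w}, ∀ κ : Path w w,
      B.Phi e (FundamentalGroup.fromPath
          (Path.Homotopic.Quotient.mk ((ω.trans κ).trans ω.symm))) =
        B.Phi e' (FundamentalGroup.fromPath (Path.Homotopic.Quotient.mk κ)) := by
  have hp := B.cov
  refine ⟨hp.isCoveringMap.monodromy (Path.Homotopic.Quotient.mk ω) e, fun κ => ?_⟩
  unfold ABund.Phi
  rw [B.cov.fundamentalGroupToMulOpposite_apply_eq_Iff]
  set e' := hp.isCoveringMap.monodromy (Path.Homotopic.Quotient.mk ω) e with he'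
  have h1 : (B.cov.fundamentalGroupToMulOpposite e'
      (FundamentalGroup.fromPath (Path.Homotopic.Quotient.mk κ))).unop • e'.1 =
      (hp.isCoveringMap.monodromy (Path.Homotopic.Quotient.mk κ) e').1 :=
    B.cov.unop_fundamentalGroupToMulOpposite_smul
  set g := (B.cov.fundamentalGroupToMulOpposite e'
      (FundamentalGroup.fromPath (Path.Homotopic.Quotient.mk κ))).unop with hg
  have h2 : hp.isCoveringMap.monodromy (Path.Homotopic.Quotient.mk κ) e' = hp.toPermFiber w g e' :=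
    Subtype.ext h1.symm
  have h3 : hp.isCoveringMap.monodromy (Path.Homotopic.Quotient.mk ω.symm) e' = e := by
    rw [he', ← IsCoveringMap.monodromy_trans_apply, Path.Homotopic.Quotient.mk_symm,
      Path.Homotopic.Quotient.trans_symm, IsCoveringMap.monodromy_refl]
    rfl
  have h4 : hp.isCoveringMap.monodromy
      (Path.Homotopic.Quotient.mk ((ω.trans κ).trans ω.symm)) e = hp.toPermFiber z g e := by
    rw [Path.Homotopic.Quotient.mk_trans, Path.Homotopic.Quotient.mk_trans,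
      IsCoveringMap.monodromy_trans_apply, IsCoveringMap.monodromy_trans_apply, ← he', h2,
      hp.monodromy_toPermFiber, h3]
  exact (congrArg Subtype.val h4).symm

theorem Phi_free {A : Type} [Group A] {a b : A} (B : ABund A a b) {z w : Z2} (e : B.p ⁻¹' {z})
    (ω : Path z w) (κ₀ : Path z z) (κ₁ : Path w w) (H : C(I × I, Z2))
    (h0 : ∀ θ, κ₀ θ = H (0, θ)) (h1 : ∀ θ, κ₁ θ = H (1, θ)) (hl : ∀ τ, ω τ = H (τ, 0))
    (hr : ∀ τ, ω τ = H (τ, 1)) : ∃ e' : B.p ⁻¹' {w},
      B.Phi e (FundamentalGroup.fromPath (Path.Homotopic.Quotient.mk κ₀)) =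
        B.Phi e' (FundamentalGroup.fromPath (Path.Homotopic.Quotient.mk κ₁)) := by
  obtain ⟨e', he'⟩ := Phi_conj B e ω
  refine ⟨e', ?_⟩
  rw [← he' κ₁]
  congr 1
  have hs := square H ω κ₁ κ₀ ω hl h1 h0 hr
  rw [← Path.Homotopic.Quotient.eq, Path.Homotopic.Quotient.mk_trans,
    Path.Homotopic.Quotient.mk_trans] at hs
  rw [Path.Homotopic.Quotient.mk_trans, Path.Homotopic.Quotient.mk_trans, hs,
    Path.Homotopic.Quotient.trans_assoc, Path.Homotopic.Quotient.mk_symm,
    Path.Homotopic.Quotient.trans_symm, Path.Homotopic.Quotient.trans_refl]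

end Pool.Kod
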