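import Pool.Agent.Work.MP_f5717c_gt.K.AB3
import Pool.Agent.Work.MP_f5717c_gt.K.AB8

/-!
Module AB5 (M). Loops in a convex set that contains `1` and not `0`.

Proof. As AB4 with `H (τ, θ) = 1 + (1 - (1 - η) τ) * (κ θ - 1)`: the factor is real and in `[η, 1]`, so the
value is not `1`, and it is a convex combination of `1` and `κ θ`, so it lies in `K` and is not `0`. With
`M > 0` a bound of `‖κ θ - 1‖` and `η = 1 / (M + 1)` one has `‖H (1, θ) - 1‖ < 1`. `Phi_free` and `near1`.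
-/

namespace Pool.Kod

open unitInterval

theorem conv1 {A : Type} [Group A] {a b : A} (B : ABund A a b) (m : ℕ) (hb : b ^ m = 1) {z : Z2}
    (e : B.p ⁻¹' {z}) (κ : Path z z) (K : Set ℂ) (hK : Convex ℝ K) (h0 : (0 : ℂ) ∉ K)
    (h1 : (1 : ℂ) ∈ K) (h : ∀ θ : I, (κ θ).1 ∈ K) :
    (B.Phi e (FundamentalGroup.fromPath (Path.Homotopic.Quotient.mk κ))) ^ m = 1 := by
  have hc : Continuous (fun θ : I => (κ θ).1 - 1) :=
    (continuous_subtype_val.comp κ.continuous).sub continuous_const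
  obtain ⟨M, hM⟩ := (isCompact_univ (X := I)).exists_bound_of_continuousOn hc.continuousOn
  have hM0 : 0 ≤ M := le_trans (norm_nonneg _) (hM 0 (Set.mem_univ _))
  set η : ℝ := 1 / (M + 1) with hη
  have hη0 : 0 < η := by positivity
  have hη1 : η ≤ 1 := by
    rw [hη, div_le_one (by linarith)]
    linarith
  have hf : ∀ τ : I, 0 < 1 - (1 - η) * (τ : ℝ) ∧ 1 - (1 - η) * (τ : ℝ) ≤ 1 := by
    intro τ
    have t0 := τ.2.1
    have t1 := τ.2.2
    constructor
    · nlinarith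
    · nlinarith
  have hmem : ∀ (τ : I) (θ : I),
      (1 + ((1 - (1 - η) * (τ : ℝ) : ℝ) : ℂ) * ((κ θ).1 - 1) ≠ 0 ∧
        1 + ((1 - (1 - η) * (τ : ℝ) : ℝ) : ℂ) * ((κ θ).1 - 1) ≠ 1) := by
    intro τ θ
    obtain ⟨f0, f1⟩ := hf τ
    constructor
    · intro he
      apply h0
      rw [← he]
      have h2 := hK h1 (h θ) (sub_nonneg.2 f1) f0.le (by ring)
      rw [Complex.real_smul, Complex.real_smul] at h2
      convert h2 using 1
      push_cast
      ring
    · intro he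
      have h3 : ((1 - (1 - η) * (τ : ℝ) : ℝ) : ℂ) * ((κ θ).1 - 1) = 0 := by
        linear_combination he
      rcases mul_eq_zero.1 h3 with h4 | h4
      · exact Complex.ofReal_ne_zero.2 f0.ne' h4
      · exact (κ θ).2.2 (sub_eq_zero.1 h4)
  let H : C(I × I, Z2) := ⟨fun x => ⟨1 + ((1 - (1 - η) * (x.1 : ℝ) : ℝ) : ℂ) * ((κ x.2).1 - 1),
      hmem x.1 x.2⟩,
    Continuous.subtype_mk (continuous_const.add ((Complex.continuous_ofReal.comp
      (continuous_const.sub (continuous_const.mul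
        (continuous_subtype_val.comp continuous_fst)))).mul (hc.comp continuous_snd))) _⟩
  have hκ01 : κ 0 = κ 1 := by rw [κ.source, κ.target]
  have hz : H (0, 0) = z := by
    apply Subtype.ext
    change 1 + ((1 - (1 - η) * (0 : ℝ) : ℝ) : ℂ) * ((κ 0).1 - 1) = z.1
    rw [κ.source, mul_zero, sub_zero, Complex.ofReal_one, one_mul]
    ring
  let w : Z2 := H (1, 0)
  let ω : Path z w := ⟨⟨fun τ => H (τ, 0), by fun_prop⟩, hz, rfl⟩
  have hw1 : H (1, 1) = w := by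
    apply Subtype.ext
    change 1 + ((1 - (1 - η) * (1 : ℝ) : ℝ) : ℂ) * ((κ 1).1 - 1) =
      1 + ((1 - (1 - η) * (1 : ℝ) : ℝ) : ℂ) * ((κ 0).1 - 1)
    rw [hκ01]
  let κ₁ : Path w w := ⟨⟨fun θ => H (1, θ), by fun_prop⟩, rfl, hw1⟩
  obtain ⟨e', he'⟩ := Phi_free B e ω κ κ₁ H (by
      intro θ
      apply Subtype.ext
      change (κ θ).1 = 1 + ((1 - (1 - η) * (0 : ℝ) : ℝ) : ℂ) * ((κ θ).1 - 1)
      rw [mul_zero, sub_zero, Complex.ofReal_one, one_mul]
      ring)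
    (fun θ => rfl) (fun τ => rfl) (by
      intro τ
      apply Subtype.ext
      change 1 + ((1 - (1 - η) * (τ : ℝ) : ℝ) : ℂ) * ((κ 0).1 - 1) =
        1 + ((1 - (1 - η) * (τ : ℝ) : ℝ) : ℂ) * ((κ 1).1 - 1)
      rw [hκ01])
  rw [he']
  apply near1 B m hb
  intro θ
  change ‖1 + ((1 - (1 - η) * (1 : ℝ) : ℝ) : ℂ) * ((κ θ).1 - 1) - 1‖ < 1
  rw [mul_one, sub_sub_cancel, add_sub_cancel_left, norm_mul, Complex.norm_real, Real.norm_eq_abs,
    abs_of_pos hη0]
  have h3 := hM θ (Set.mem_univ _)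
  have h4 : η * ‖(κ θ).1 - 1‖ ≤ η * M := mul_le_mul_of_nonneg_left h3 hη0.le
  have h5 : η * (M + 1) = 1 := by
    rw [hη]
    field_simp
  have h6 : η * (M + 1) = η * M + η := by ring
  linarith

end Pool.Kod
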