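import Pool.Agent.Work.MP_f5717c_gt.K.AB8

/-!
Module AB6 (S-M). Loops in a convex set that contains neither `0` nor `1`.

Proof. `κ` is homotopic (relative to the ends) to the constant path:
`H (τ, θ) = (1 - τ) κ θ + τ z ∈ K ⊆ ℂ \ {0, 1}` (`z = κ 0`). So the class of `κ` is `1`
(`Path.Homotopic.Quotient.eq`, `FundamentalGroup.one_def`, `Path.Homotopic.Quotient.mk_refl`) and
`Phi e 1 = 1`. (Or use `Phi_free` with a constant loop.)
-/

namespace Pool.Kod

open unitInterval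

theorem convNone {A : Type} [Group A] {a b : A} (B : ABund A a b) {z : Z2}
    (e : B.p ⁻¹' {z}) (κ : Path z z) (K : Set ℂ) (hK : Convex ℝ K) (h0 : (0 : ℂ) ∉ K)
    (h1 : (1 : ℂ) ∉ K) (h : ∀ θ : I, (κ θ).1 ∈ K) :
    B.Phi e (FundamentalGroup.fromPath (Path.Homotopic.Quotient.mk κ)) = 1 := by
  have hc : Continuous (fun θ : I => (κ θ).1) := continuous_subtype_val.comp κ.continuous
  have hzK : z.1 ∈ K := by
    have := h 0
    rwa [κ.source] at this
  have hmem : ∀ (τ : I) (θ : I),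
      (((1 - (τ : ℝ) : ℝ) : ℂ) * (κ θ).1 + ((τ : ℝ) : ℂ) * z.1 ≠ 0 ∧
        ((1 - (τ : ℝ) : ℝ) : ℂ) * (κ θ).1 + ((τ : ℝ) : ℂ) * z.1 ≠ 1) := by
    intro τ θ
    have h2 := hK (h θ) hzK (sub_nonneg.2 τ.2.2) τ.2.1 (by ring)
    rw [Complex.real_smul, Complex.real_smul] at h2
    constructor
    · intro he
      rw [he] at h2
      exact h0 h2
    · intro he
      rw [he] at h2
      exact h1 h2
  let H : C(I × I, Z2) := ⟨fun x => ⟨((1 - (x.1 : ℝ) : ℝ) : ℂ) * (κ x.2).1 + ((x.1 : ℝ) : ℂ) * z.1,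
      hmem x.1 x.2⟩,
    Continuous.subtype_mk (((Complex.continuous_ofReal.comp (continuous_const.sub
      (continuous_subtype_val.comp continuous_fst))).mul (hc.comp continuous_snd)).add
      ((Complex.continuous_ofReal.comp (continuous_subtype_val.comp continuous_fst)).mul
        continuous_const)) _⟩
  have hzz : ∀ τ : I, ((1 - (τ : ℝ) : ℝ) : ℂ) * z.1 + ((τ : ℝ) : ℂ) * z.1 = z.1 := by
    intro τ
    push_cast
    ring
  obtain ⟨e', he'⟩ := Phi_free B e (Path.refl z) κ (Path.refl z) H (by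
      intro θ
      apply Subtype.ext
      change (κ θ).1 = ((1 - (0 : ℝ) : ℝ) : ℂ) * (κ θ).1 + ((0 : ℝ) : ℂ) * z.1
      push_cast
      ring) (by
      intro θ
      apply Subtype.ext
      change z.1 = ((1 - (1 : ℝ) : ℝ) : ℂ) * (κ θ).1 + ((1 : ℝ) : ℂ) * z.1
      push_cast
      ring) (by
      intro τ
      apply Subtype.ext
      change z.1 = ((1 - (τ : ℝ) : ℝ) : ℂ) * (κ 0).1 + ((τ : ℝ) : ℂ) * z.1
      rw [κ.source, hzz]) (by
      intro τ
      apply Subtype.ext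
      change z.1 = ((1 - (τ : ℝ) : ℝ) : ℂ) * (κ 1).1 + ((τ : ℝ) : ℂ) * z.1
      rw [κ.target, hzz])
  rw [he']
  exact map_one (B.Phi e')

end Pool.Kod
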