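import Pool.Agent.Work.MP_f5717c_gt.K.AB1

/-!
Module AB7 (M). The monodromy of a circle around `0` and `1`.

Proof. Let `Γ : C(I, B.E)` be the lift of `κ` from `e` (`B.cov.isCoveringMap.liftPath`) and
`g = (B.Phi e [κ]).unop`, so `Γ 1 = g • e` (`IsQuotientCoveringMap.unop_fundamentalGroupToMulOpposite_smul`
and the definition of `IsCoveringMap.monodromy`). `κ θ = c0 + ρ0 e^(2π i θ)` has
`im = ρ0 sin (2πθ)`, positive for `0 < θ < 1/2`, negative for `1/2 < θ < 1`, zero for `θ = 0, 1/2, 1`, and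
`re = c0 + ρ0 > 1` at `θ = 0, 1`, `re = c0 - ρ0 < 0` at `θ = 1/2`. So `κ θ ∈ U 2` for `θ ∈ [0, 1/2)` and for
`θ ∈ (1/2, 1]`, `κ θ ∈ U 0` for `θ ∈ (0, 1)` (intervals of `I`, preconnected: `Set.ordConnected`,
`isPreconnected_Ico` etc. in `I`). By `chi_const`, with `x = χ 2 e`:
`χ 2 (Γ (1/4)) = x`, `χ 0 (Γ (1/4)) = x` (`up`), `χ 0 (Γ (3/4)) = x`,
`χ 2 (Γ (3/4)) = x * 1⁻¹ * (a * b)` (`low`), `χ 2 (Γ 1) = x * (a * b)`. By `equi`:
`g * x = x * (a * b)`, so `g = x * (a * b) * x⁻¹`.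
-/

namespace Pool.Kod

open unitInterval

private theorem pre_Icc (x y : ℝ) (hx : 0 ≤ x) (hy : y ≤ 1) :
    IsPreconnected {θ : I | x ≤ (θ : ℝ) ∧ (θ : ℝ) ≤ y} := by
  rw [← Topology.IsInducing.subtypeVal.isPreconnected_image]
  have h : ((↑) : I → ℝ) '' {θ : I | x ≤ (θ : ℝ) ∧ (θ : ℝ) ≤ y} = Set.Icc x y := by
    ext t
    constructor
    · rintro ⟨θ, hθ, rfl⟩
      exact hθ
    · intro ht
      exact ⟨⟨t, hx.trans ht.1, ht.2.trans hy⟩, ht, rfl⟩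
  rw [h]
  exact isPreconnected_Icc

theorem circle_mono {A : Type} [Group A] {a b : A} (B : ABund A a b) (c0 ρ0 : ℝ)
    (h1 : 1 < c0 + ρ0) (h0 : c0 - ρ0 < 0) (hρ : 0 < ρ0) {z : Z2} (e : B.p ⁻¹' {z})
    (κ : Path z z)
    (hκ : ∀ θ : I, (κ θ).1 = c0 + ρ0 * Complex.exp (2 * Real.pi * Complex.I * (θ : ℝ))) :
    ∃ x : A, (B.Phi e (FundamentalGroup.fromPath (Path.Homotopic.Quotient.mk κ))).unop =
      x * (a * b) * x⁻¹ := by
  set g := (B.Phi e (FundamentalGroup.fromPath (Path.Homotopic.Quotient.mk κ))).unop with hg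
  have hmon : g • e.1 = (B.cov.isCoveringMap.monodromy (Path.Homotopic.Quotient.mk κ) e).1 :=
    B.cov.unop_fundamentalGroupToMulOpposite_smul
  set Γ := B.cov.isCoveringMap.liftPath (κ : C(I, Z2)) e.1 (κ.source.trans e.2.symm) with hΓ
  have hΓ0 : Γ 0 = e.1 := B.cov.isCoveringMap.liftPath_zero ..
  have hΓ1 : Γ 1 = g • e.1 := hmon.symm
  have hΓp : ∀ θ, B.p (Γ θ) = κ θ := fun θ =>
    congrFun (B.cov.isCoveringMap.liftPath_lifts (κ : C(I, Z2)) e.1 (κ.source.trans e.2.symm)) θ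
  have hexp : ∀ θ : I, Complex.exp (2 * Real.pi * Complex.I * (θ : ℝ)) =
      ((Real.cos (2 * Real.pi * θ) : ℝ) : ℂ) + ((Real.sin (2 * Real.pi * θ) : ℝ) : ℂ) * Complex.I := by
    intro θ
    have h2 : (2 * Real.pi * Complex.I * ((θ : ℝ) : ℂ) : ℂ) =
        ((2 * Real.pi * (θ : ℝ) : ℝ) : ℂ) * Complex.I := by
      push_cast; ring
    rw [h2, Complex.exp_mul_I, ← Complex.ofReal_cos, ← Complex.ofReal_sin]
  have him : ∀ θ : I, (κ θ).1.im = ρ0 * Real.sin (2 * Real.pi * θ) := by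
    intro θ
    rw [hκ, hexp, Complex.add_im, Complex.ofReal_im, Complex.im_ofReal_mul, Complex.add_im,
      Complex.ofReal_im, Complex.im_ofReal_mul, Complex.I_im]
    ring
  have hre : ∀ θ : I, (κ θ).1.re = c0 + ρ0 * Real.cos (2 * Real.pi * θ) := by
    intro θ
    rw [hκ, hexp, Complex.add_re, Complex.ofReal_re, Complex.re_ofReal_mul, Complex.add_re,
      Complex.ofReal_re, Complex.re_ofReal_mul, Complex.I_re]
    ring
  have hpos : ∀ θ : I, 0 < (θ : ℝ) → (θ : ℝ) < 1 / 2 → 0 < (κ θ).1.im := by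
    intro θ t0 t1
    rw [him]
    apply mul_pos hρ
    apply Real.sin_pos_of_pos_of_lt_pi
    · positivity
    · nlinarith [Real.pi_pos]
  have hneg : ∀ θ : I, 1 / 2 < (θ : ℝ) → (θ : ℝ) < 1 → (κ θ).1.im < 0 := by
    intro θ t0 t1
    rw [him]
    apply mul_neg_of_pos_of_neg hρ
    have e1 : Real.sin (2 * Real.pi * θ) = - Real.sin (2 * Real.pi * θ - Real.pi) := by
      rw [Real.sin_sub_pi, neg_neg]
    rw [e1, neg_lt_zero]
    apply Real.sin_pos_of_pos_of_lt_pi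
    · nlinarith [Real.pi_pos]
    · nlinarith [Real.pi_pos]
  have hU2a : ∀ θ : I, (θ : ℝ) ≤ 1 / 4 → κ θ ∈ U 2 := by
    intro θ ht
    rcases θ.2.1.eq_or_lt with h2 | h2
    · refine Or.inr (Or.inr (Or.inr ⟨rfl, ?_⟩))
      rw [hre, ← h2, mul_zero, Real.cos_zero, mul_one]
      exact h1
    · exact Or.inl (hpos θ h2 (by linarith)).ne'
  have hU2b : ∀ θ : I, 3 / 4 ≤ (θ : ℝ) → κ θ ∈ U 2 := by
    intro θ ht
    rcases θ.2.2.eq_or_lt with h2 | h2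
    · refine Or.inr (Or.inr (Or.inr ⟨rfl, ?_⟩))
      rw [hre, h2, mul_one, Real.cos_two_pi, mul_one]
      exact h1
    · exact Or.inl (hneg θ (by linarith) h2).ne
  have hU0 : ∀ θ : I, 1 / 4 ≤ (θ : ℝ) → (θ : ℝ) ≤ 3 / 4 → κ θ ∈ U 0 := by
    intro θ t1 t2
    rcases lt_trichotomy (θ : ℝ) (1 / 2) with h2 | h2 | h2
    · exact Or.inl (hpos θ (by linarith) h2).ne'
    · refine Or.inr (Or.inl ⟨rfl, ?_⟩)
      have e1 : 2 * Real.pi * (θ : ℝ) = Real.pi := by rw [h2]; ring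
      rw [hre, e1, Real.cos_pi]
      linarith
    · exact Or.inl (hneg θ h2 (by linarith)).ne
  let q1 : I := ⟨1 / 4, by norm_num, by norm_num⟩
  let q3 : I := ⟨3 / 4, by norm_num, by norm_num⟩
  have s1 : B.χ 2 (Γ q1) = B.χ 2 (Γ 0) := by
    apply chi_const B Γ _ (pre_Icc 0 (1 / 4) le_rfl (by norm_num)) 2
    · intro θ hθ
      rw [hΓp]
      exact hU2a θ hθ.2
    · exact ⟨by norm_num [q1], by norm_num [q1]⟩
    · exact ⟨le_rfl, by norm_num⟩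
  have s2 : B.χ 0 (Γ q1) = B.χ 2 (Γ q1) := by
    apply B.up
    rw [hΓp]
    exact hpos q1 (by norm_num [q1]) (by norm_num [q1])
  have s3 : B.χ 0 (Γ q3) = B.χ 0 (Γ q1) := by
    apply chi_const B Γ _ (pre_Icc (1 / 4) (3 / 4) (by norm_num) (by norm_num)) 0
    · intro θ hθ
      rw [hΓp]
      exact hU0 θ hθ.1 hθ.2
    · exact ⟨by norm_num [q3], by norm_num [q3]⟩
    · exact ⟨by norm_num [q1], by norm_num [q1]⟩
  have s4 : B.χ 2 (Γ q3) = B.χ 0 (Γ q3) * (tra a b 0)⁻¹ * tra a b 2 := by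
    apply B.low
    rw [hΓp]
    exact hneg q3 (by norm_num [q3]) (by norm_num [q3])
  have s5 : B.χ 2 (Γ 1) = B.χ 2 (Γ q3) := by
    apply chi_const B Γ _ (pre_Icc (3 / 4) 1 (by norm_num) le_rfl) 2
    · intro θ hθ
      rw [hΓp]
      exact hU2b θ hθ.1
    · exact ⟨by norm_num, by norm_num⟩
    · exact ⟨by norm_num [q3], by norm_num [q3]⟩
  have s6 : B.χ 2 (g • e.1) = g * B.χ 2 e.1 := by
    apply B.equi
    rw [← hΓ0, hΓp]
    exact hU2a 0 (by norm_num)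
  refine ⟨B.χ 2 e.1, ?_⟩
  have t0 : (tra a b 0)⁻¹ * tra a b 2 = a * b := by
    change (1 : A)⁻¹ * (a * b) = a * b
    rw [inv_one, one_mul]
  have hfin : g * B.χ 2 e.1 = B.χ 2 e.1 * (a * b) := by
    rw [← s6, ← hΓ1, s5, s4, mul_assoc, t0, s3, s2, s1, hΓ0]
  rw [← hfin]
  group

end Pool.Kod
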