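import Mathlib

/-!
Module Alg (S-M). Group theory.

Proof. `H` has finite index, so there is `n ≥ 1` with `G^n ∈ H` and `C^n ∈ H`
(`Subgroup.exists_pow_mem_of_index_ne_zero` for each and take the product of the exponents). Define
`φ (ofAdd (i, j)) = ⟨(G^n)^i * (C^n)^j, _⟩`; it is a homomorphism because `G^n` and `C^n` commute
(`Commute.pow_pow`, `Commute.zpow_zpow`, `Commute.mul_zpow`, `zpow_add`). Injective: if
`(G^n)^i (C^n)^j = 1`, apply `ψ`: `(ψ G)^(n i) = 1` (`ψ C = 1`), so `n i = 0` and `i = 0`; then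
`C^(n j) = 1`, so `j = 0`.
-/

namespace Pool.Kod

theorem embed {Γ P : Type*} [Group Γ] [Group P] (ψ : Γ →* P) (G C : Γ) (hcomm : G * C = C * G)
    (hψC : ψ C = 1) (hG : ∀ k : ℤ, k ≠ 0 → (ψ G) ^ k ≠ 1) (hC : ∀ k : ℤ, k ≠ 0 → C ^ k ≠ 1)
    (H : Subgroup Γ) [H.FiniteIndex] :
    ∃ φ : Multiplicative (ℤ × ℤ) →* H, Function.Injective φ := by
  have hidx : H.index ≠ 0 := Subgroup.FiniteIndex.index_ne_zero
  obtain ⟨a, ha0, -, ha⟩ := Subgroup.exists_pow_mem_of_index_ne_zero hidx G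
  obtain ⟨b, hb0, -, hb⟩ := Subgroup.exists_pow_mem_of_index_ne_zero hidx C
  let G' : H := ⟨G ^ a, ha⟩
  let C' : H := ⟨C ^ b, hb⟩
  have hc : Commute G' C' := by
    apply Subtype.ext
    exact ((show Commute G C from hcomm).pow_pow a b)
  refine ⟨{ toFun := fun z => G' ^ z.toAdd.1 * C' ^ z.toAdd.2
            map_one' := by simp
            map_mul' := ?_ }, ?_⟩
  · intro z w
    simp only [toAdd_mul, Prod.fst_add, Prod.snd_add, zpow_add]
    have h1 : G' ^ w.toAdd.1 * C' ^ z.toAdd.2 = C' ^ z.toAdd.2 * G' ^ w.toAdd.1 :=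
      hc.zpow_zpow _ _
    rw [mul_assoc, ← mul_assoc (G' ^ w.toAdd.1), h1]
    simp only [mul_assoc]
  · rw [injective_iff_map_eq_one]
    intro z hz
    have hz' : G' ^ z.toAdd.1 * C' ^ z.toAdd.2 = 1 := hz
    have h1 : (G ^ a) ^ z.toAdd.1 * (C ^ b) ^ z.toAdd.2 = 1 := by
      have := congrArg Subtype.val hz'
      simpa using this
    have h2 : ψ G ^ ((a : ℤ) * z.toAdd.1) = 1 := by
      have := congrArg ψ h1
      rw [map_mul, map_zpow, map_zpow, map_pow, map_pow, hψC, one_pow, one_zpow, mul_one,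
        map_one] at this
      rw [zpow_mul, zpow_natCast]; exact this
    have h3 : z.toAdd.1 = 0 := by
      by_contra hne
      exact hG _ (mul_ne_zero (by exact_mod_cast ha0.ne') hne) h2
    rw [h3, zpow_zero, one_mul] at h1
    have h4 : z.toAdd.2 = 0 := by
      by_contra hne
      refine hC _ (mul_ne_zero (show (b : ℤ) ≠ 0 by exact_mod_cast hb0.ne') hne) ?_
      rw [zpow_mul, zpow_natCast]; exact h1
    have h5 : z.toAdd = 0 := Prod.ext h3 h4
    exact h5

end Pool.Kod
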