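import Pool.Agent.Work.MP_f5717c_gt.K.Defs

/-!
Module Ax (S). Basic facts on the imaginary axis `axis u = i e^u` and the dilations `scl u`.

* `axis_dist`: `UpperHalfPlane.isometry_vertical_line 0` (or `UpperHalfPlane.dist_of_re_eq`).
* `scl_*`: compare the coercions to `ℂ` (`UpperHalfPlane.ext`), `Real.exp_add`.
* `scl_dist`: `UpperHalfPlane.dist_eq` and homogeneity, or `UpperHalfPlane.isometry_pos_mul` (note
  `scl u z = (⟨exp u, _⟩ : {x : ℝ // 0 < x}) • z`, the coercions agree).
* continuity: `UpperHalfPlane.isEmbedding_coe.continuous_iff`.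
* `cosh_dist_axis`: `UpperHalfPlane.cosh_dist : cosh (dist z w) = 1 + dist (z:ℂ) w ^ 2 / (2 z.im w.im)`
  with `dist (z:ℂ) w ^ 2 = re^2 + (im - e^u)^2`, `w.im = e^u`:
  `1 + (x^2 + (y - e^u)^2) / (2 y e^u) = (x^2 + y^2 + e^(2u)) / (2 y e^u)`.
-/

namespace Pool.Kod

open UpperHalfPlane

theorem axis_dist (u v : ℝ) : dist (axis u) (axis v) = |u - v| :=
  (isometry_vertical_line 0).dist_eq u v

theorem axis_continuous : Continuous axis :=
  (isometry_vertical_line 0).continuous

theorem scl_im (u : ℝ) (z : ℍ) : (scl u z).im = Real.exp u * z.im :=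
  Complex.im_ofReal_mul _ _

theorem scl_re (u : ℝ) (z : ℍ) : (scl u z).re = Real.exp u * z.re :=
  Complex.re_ofReal_mul _ _

theorem scl_axis (u v : ℝ) : scl u (axis v) = axis (u + v) := by
  apply UpperHalfPlane.ext_re_im
  · rw [scl_re]
    change Real.exp u * 0 = 0
    ring
  · rw [scl_im]
    change Real.exp u * Real.exp v = Real.exp (u + v)
    rw [Real.exp_add]

theorem scl_scl (u v : ℝ) (z : ℍ) : scl u (scl v z) = scl (u + v) z := by
  apply UpperHalfPlane.ext_re_im
  · rw [scl_re, scl_re, scl_re, Real.exp_add]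
    ring
  · rw [scl_im, scl_im, scl_im, Real.exp_add]
    ring

theorem scl_zero (z : ℍ) : scl 0 z = z := by
  apply UpperHalfPlane.ext_re_im
  · rw [scl_re, Real.exp_zero, one_mul]
  · rw [scl_im, Real.exp_zero, one_mul]

private theorem scl_eq (u : ℝ) (z : ℍ) :
    scl u z = (⟨Real.exp u, Real.exp_pos u⟩ : {x : ℝ // 0 < x}) • z := by
  apply UpperHalfPlane.ext_re_im
  · rw [scl_re, pos_real_re]
  · rw [scl_im, pos_real_im]

theorem scl_dist (u : ℝ) (z w : ℍ) : dist (scl u z) (scl u w) = dist z w := by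
  rw [scl_eq, scl_eq]
  exact (isometry_pos_mul _).dist_eq z w

theorem scl_continuous : Continuous (fun p : ℝ × ℍ => scl p.1 p.2) := by
  rw [UpperHalfPlane.isEmbedding_coe.continuous_iff]
  exact (Complex.continuous_ofReal.comp (Real.continuous_exp.comp continuous_fst)).mul
    (UpperHalfPlane.continuous_coe.comp continuous_snd)

theorem cosh_dist_axis (z : ℍ) (u : ℝ) : Real.cosh (dist z (axis u)) =
    ((z.re ^ 2 + z.im ^ 2) * Real.exp (-u) + Real.exp u) / (2 * z.im) := by
  rw [UpperHalfPlane.cosh_dist']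
  have h1 : (axis u).re = 0 := rfl
  have h2 : (axis u).im = Real.exp u := rfl
  have h3 := z.im_pos
  have h4 := Real.exp_pos u
  rw [h1, h2, Real.exp_neg]
  field_simp
  ring

end Pool.Kod
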