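import Pool.Agent.Work.MP_f5717c_gt.K.Defs

/-!
Module BC (M). The orbifold group does not depend on the base point.

Proof. Let `ν : Path p q` in `Comp T` and `E = FundamentalGroup.fundamentalGroupMulEquivOfPath (ν.map pr.continuous) :
π₁(Base, pr p) ≃* π₁(Base, pr q)`; on the class of a loop `l` it is the class of `ν⁻¹ l ν` (unfold; it is
conjugation in the groupoid). `E` maps `(map pr) '' relators p` onto `(map pr) '' relators q`: the relator
`[(ω κ) ω⁻¹]^m` at `p` goes to `([ν⁻¹ ((ω κ) ω⁻¹) ν])^m = [((ν⁻¹ ω) κ) (ν⁻¹ ω)⁻¹]^m` (associativity of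
concatenation up to homotopy), which is a relator at `q` (same `t`, same `κ`), and conversely with
`ν⁻¹`. So `E` maps the first normal closure onto the second (`Subgroup.map_normalClosure` for the
surjective `E`, or `Subgroup.normalClosure_le_normal` both ways) and `QuotientGroup.congr` gives the
isomorphism of the quotients.
-/

namespace Pool.Kod

open UpperHalfPlane unitInterval CategoryTheory

private theorem key_conj {X Y : Type} [TopologicalSpace X] [TopologicalSpace Y] (f : C(X, Y))
    {x y z : X} (ν : Path x y) (ω : Path x z) (κ : Path z z) :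
    FundamentalGroup.map f y (FundamentalGroup.fromPath (Path.Homotopic.Quotient.mk
      (((ν.symm.trans ω).trans κ).trans (ν.symm.trans ω).symm)))
    = FundamentalGroup.fundamentalGroupMulEquivOfPath (ν.map f.continuous)
      (FundamentalGroup.map f x (FundamentalGroup.fromPath (Path.Homotopic.Quotient.mk
        ((ω.trans κ).trans ω.symm)))) := by
  let F := FundamentalGroupoid.map f
  let N : FundamentalGroupoid.mk x ⟶ FundamentalGroupoid.mk y := Path.Homotopic.Quotient.mk ν
  let O : FundamentalGroupoid.mk x ⟶ FundamentalGroupoid.mk z := Path.Homotopic.Quotient.mk ω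
  let K : FundamentalGroupoid.mk z ⟶ FundamentalGroupoid.mk z := Path.Homotopic.Quotient.mk κ
  change F.map (((Groupoid.inv N ≫ O) ≫ K) ≫ Groupoid.inv (Groupoid.inv N ≫ O))
    = Groupoid.inv (F.map N) ≫ F.map ((O ≫ K) ≫ Groupoid.inv O) ≫ F.map N
  simp only [Groupoid.inv_eq_inv, Functor.map_comp, Functor.map_inv, IsIso.inv_comp,
    IsIso.inv_inv, Category.assoc]

private theorem rel_sub (L₁ L₂ : Subgroup Iso) (T : Set Iso) (r : Iso → ℕ) {p q : Comp T}
    (ν : Path p q) (x : FundamentalGroup (Base L₁ L₂ T) (pr L₁ L₂ T p))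
    (hx : x ∈ (FundamentalGroup.map (pr L₁ L₂ T) p) '' relators T r p) :
    FundamentalGroup.fundamentalGroupMulEquivOfPath (ν.map (pr L₁ L₂ T).continuous) x
      ∈ (FundamentalGroup.map (pr L₁ L₂ T) q) '' relators T r q := by
  obtain ⟨a, ⟨t, ht, q', ω, κ, hκ, ha⟩, rfl⟩ := hx
  refine ⟨(FundamentalGroup.fromPath (Path.Homotopic.Quotient.mk
    (((ν.symm.trans ω).trans κ).trans (ν.symm.trans ω).symm))) ^ (r t),
    ⟨t, ht, q', ν.symm.trans ω, κ, hκ, rfl⟩, ?_⟩
  rw [ha, map_pow, map_pow, map_pow]
  congr 1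
  exact key_conj (pr L₁ L₂ T) ν ω κ

theorem base_change (L₁ L₂ : Subgroup Iso) (T : Set Iso) (r : Iso → ℕ) {p q : Comp T}
    (ν : Path p q) : Nonempty (OrbGroup L₁ L₂ T r p ≃* OrbGroup L₁ L₂ T r q) := by
  let E := FundamentalGroup.fundamentalGroupMulEquivOfPath (ν.map (pr L₁ L₂ T).continuous)
  let S := (FundamentalGroup.map (pr L₁ L₂ T) p) '' relators T r p
  let S' := (FundamentalGroup.map (pr L₁ L₂ T) q) '' relators T r q
  have h1 : ∀ x ∈ S, E x ∈ S' := fun x hx => rel_sub L₁ L₂ T r ν x hx
  have hEinv : ∀ y, E.symm y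
      = FundamentalGroup.fundamentalGroupMulEquivOfPath (ν.symm.map (pr L₁ L₂ T).continuous) y := by
    intro y
    rw [MulEquiv.symm_apply_eq]
    let N : FundamentalGroupoid.mk (pr L₁ L₂ T p) ⟶ FundamentalGroupoid.mk (pr L₁ L₂ T q) :=
      Path.Homotopic.Quotient.mk (ν.map (pr L₁ L₂ T).continuous)
    let y' : FundamentalGroupoid.mk (pr L₁ L₂ T q) ⟶ FundamentalGroupoid.mk (pr L₁ L₂ T q) := y
    change y' = Groupoid.inv N ≫ (Groupoid.inv (Groupoid.inv N) ≫ y' ≫ Groupoid.inv N) ≫ N
    simp
  have h2 : ∀ y ∈ S', E.symm y ∈ S := by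
    intro y hy
    rw [hEinv]
    exact rel_sub L₁ L₂ T r ν.symm y hy
  have hmap : (Subgroup.normalClosure S).map E.toMonoidHom = Subgroup.normalClosure S' := by
    apply le_antisymm
    · rw [Subgroup.map_le_iff_le_comap]
      apply Subgroup.normalClosure_le_normal
      intro x hx
      exact Subgroup.subset_normalClosure (h1 x hx)
    · haveI : ((Subgroup.normalClosure S).map E.toMonoidHom).Normal :=
        Subgroup.Normal.map inferInstance E.toMonoidHom E.surjective
      apply Subgroup.normalClosure_le_normal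
      intro y hy
      exact ⟨E.symm y, Subgroup.subset_normalClosure (h2 y hy), E.apply_symm_apply y⟩
  exact ⟨QuotientGroup.congr _ _ E hmap⟩

end Pool.Kod
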