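import Pool.Agent.Work.MP_f5717c_gt.K.Ax

/-!
Module C1 (M). The closest pair of graphs exists.

Proof. (0) `T` has two different elements: take `t ∈ T`; `L₂` has an element `h ≠ 1` (otherwise, by
`h₂.cocompact`, all points of `ℍ` would lie in a ball, but `ℍ` is unbounded: `dist (axis u) (axis 0) = |u|`,
or `NoncompactSpace ℍ` with `ProperSpace ℍ`), and `h * t ≠ t`, `h * t ∈ T` (`mul_mem` with `g = 1`).
Let `r0 = dist (t i) (h t i)` be the value of this pair at `i`.
(1) Let `x1, R1` be the centre and radius of `h₁.cocompact` and `x2, R2` those of `h₂.cocompact`.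
Call `(t, s, x)` (with `t ≠ s` in `T`) a triple and `dist (t x) (s x)` its value. For `g ∈ L₁`, `h ∈ L₂` the
triple `(h t g⁻¹, h s g⁻¹, g x)` has the same value. So each triple of value `≤ r0` can be replaced by
one of the same value with `dist x x1 ≤ R1` and `dist (t x) x2 ≤ R2`. For such a triple
`dist (t x1) x2 ≤ dist (t x1) (t x) + dist (t x) x2 ≤ R1 + R2` and
`dist (s x1) x2 ≤ dist (s x1) (s x) + dist (s x) (t x) + dist (t x) x2 ≤ R1 + R2 + r0`, so `t` and `s` lie in the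
finite set `F = {t ∈ T | dist (t x1) x2 ≤ R1 + R2 + r0}` (`hT.finite`).
(2) For each pair `(t, s)` in the finite set `P` of pairs of different elements of `F` the continuous
function `x ↦ dist (t x) (s x)` has a minimum on the compact ball `closedBall x1 R1`
(`isCompact_closedBall`, `ProperSpace ℍ`), at a point `m (t, s)`. `P` is not empty (the normalised form of
the triple of (0)); choose the pair of `P` with the smallest minimum (`Set.Finite.exists_minimalFor` /
`Finset.exists_min_image`). Its value is `≤ r0`, and it is a minimum over all triples of value `≤ r0` by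
(1), hence over all triples.
(3) The value is positive: `dist (t x) (s x) = 0` would give `t x = s x`, so `t = s` by `hT.disjoint`.
-/

namespace Pool.Kod

open UpperHalfPlane

private theorem exists_ne_one {L : Subgroup Iso} (h : IsSurfaceGroup L) : ∃ g ∈ L, g ≠ 1 := by
  by_contra hcon
  push Not at hcon
  obtain ⟨x, R, hR⟩ := h.cocompact
  have hall : ∀ y : ℍ, dist y x ≤ R := by
    intro y
    obtain ⟨g, hg, hd⟩ := hR y
    rw [hcon g hg] at hd
    exact hd
  have h1 := hall (axis 0)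
  have h2 := hall (axis (2 * R + 1))
  have h3 : dist (axis 0) (axis (2 * R + 1)) ≤ dist (axis 0) x + dist (axis (2 * R + 1)) x := by
    rw [dist_comm (axis (2 * R + 1)) x]
    exact dist_triangle _ _ _
  rw [axis_dist] at h3
  have h4 : 2 * R + 1 ≤ |0 - (2 * R + 1)| := by
    rw [zero_sub, abs_neg]
    exact le_abs_self _
  linarith

theorem closest {L₁ L₂ : Subgroup Iso} {T : Set Iso} (h₁ : IsSurfaceGroup L₁)
    (h₂ : IsSurfaceGroup L₂) (hT : IsEtale L₁ L₂ T) :
    ∃ t ∈ T, ∃ s ∈ T, t ≠ s ∧ ∃ x : ℍ, 0 < dist (t x) (s x) ∧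
      ∀ t' ∈ T, ∀ s' ∈ T, t' ≠ s' → ∀ x' : ℍ, dist (t x) (s x) ≤ dist (t' x') (s' x') := by
  obtain ⟨x1, R1, hR1⟩ := h₁.cocompact
  obtain ⟨x2, R2, hR2⟩ := h₂.cocompact
  have hR1n : 0 ≤ R1 := by
    obtain ⟨g, _, hd⟩ := hR1 x1
    exact le_trans dist_nonneg hd
  obtain ⟨k, hk, hk1⟩ := exists_ne_one h₂
  obtain ⟨t0, ht0⟩ := hT.nonempty
  have hs0 : k * t0 ∈ T := by
    have := hT.mul_mem t0 ht0 1 L₁.one_mem k hk
    rwa [mul_one] at this
  have hne0 : t0 ≠ k * t0 := fun h => hk1 (right_eq_mul.1 h)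
  set r0 : ℝ := dist (t0 x1) ((k * t0) x1) with hr0
  let P : Set (Iso × Iso) := {q | (q.1 ∈ T ∧ dist (q.1 x1) x2 ≤ R1 + R2 + r0) ∧
    (q.2 ∈ T ∧ dist (q.2 x1) x2 ≤ R1 + R2 + r0) ∧ q.1 ≠ q.2}
  have hPfin : P.Finite := by
    apply ((hT.finite x1 x2 (R1 + R2 + r0)).prod (hT.finite x1 x2 (R1 + R2 + r0))).subset
    rintro ⟨a, b⟩ ⟨ha, hb, _⟩
    exact ⟨ha, hb⟩
  have hnorm : ∀ t ∈ T, ∀ s ∈ T, t ≠ s → ∀ x : ℍ, dist (t x) (s x) ≤ r0 →
      ∃ q ∈ P, ∃ x' ∈ Metric.closedBall x1 R1, dist (q.1 x') (q.2 x') = dist (t x) (s x) := by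
    intro t ht s hs hts x hx
    obtain ⟨g, hg, hgx⟩ := hR1 x
    obtain ⟨h, hh, hhx⟩ := hR2 (t x)
    have e1 : (h * t * g⁻¹) (g x) = h (t x) := by
      change h (t (g.symm (g x))) = h (t x)
      rw [g.symm_apply_apply]
    have e2 : (h * s * g⁻¹) (g x) = h (s x) := by
      change h (s (g.symm (g x))) = h (s x)
      rw [g.symm_apply_apply]
    have d1 : dist ((h * t * g⁻¹) x1) (h (t x)) ≤ R1 := by
      rw [← e1, (h * t * g⁻¹).dist_eq, dist_comm]
      exact hgx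
    have d2 : dist ((h * s * g⁻¹) x1) (h (s x)) ≤ R1 := by
      rw [← e2, (h * s * g⁻¹).dist_eq, dist_comm]
      exact hgx
    have d3 : dist (h (s x)) (h (t x)) ≤ r0 := by
      rw [h.dist_eq, dist_comm]
      exact hx
    have hr0n : 0 ≤ r0 := dist_nonneg
    refine ⟨(h * t * g⁻¹, h * s * g⁻¹), ⟨⟨hT.mul_mem t ht _ (L₁.inv_mem hg) _ hh, ?_⟩,
      ⟨hT.mul_mem s hs _ (L₁.inv_mem hg) _ hh, ?_⟩, ?_⟩, g x, hgx, ?_⟩
    · have := dist_triangle ((h * t * g⁻¹) x1) (h (t x)) x2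
      change dist ((h * t * g⁻¹) x1) x2 ≤ _
      linarith
    · have t1 := dist_triangle ((h * s * g⁻¹) x1) (h (s x)) x2
      have t2 := dist_triangle (h (s x)) (h (t x)) x2
      change dist ((h * s * g⁻¹) x1) x2 ≤ _
      linarith
    · intro heq
      exact hts (mul_left_cancel (mul_right_cancel heq))
    · change dist ((h * t * g⁻¹) (g x)) ((h * s * g⁻¹) (g x)) = _
      rw [e1, e2, h.dist_eq]
  have hmin : ∀ q : Iso × Iso, ∃ m ∈ Metric.closedBall x1 R1, ∀ x ∈ Metric.closedBall x1 R1,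
      dist (q.1 m) (q.2 m) ≤ dist (q.1 x) (q.2 x) := by
    intro q
    have hc : Continuous (fun x : ℍ => dist (q.1 x) (q.2 x)) :=
      q.1.continuous.dist q.2.continuous
    obtain ⟨m, hm, hm2⟩ := (isCompact_closedBall x1 R1).exists_isMinOn
      ⟨x1, Metric.mem_closedBall_self hR1n⟩ hc.continuousOn
    exact ⟨m, hm, fun x hx => hm2 hx⟩
  choose m hm hm2 using hmin
  obtain ⟨q0, hq0, x0, hx0, hv0⟩ := hnorm t0 ht0 _ hs0 hne0 x1 le_rfl
  obtain ⟨q, hq, hqmin⟩ := Set.exists_min_image P (fun q => dist (q.1 (m q)) (q.2 (m q))) hPfin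
    ⟨q0, hq0⟩
  obtain ⟨⟨hq1, _⟩, ⟨hq2, _⟩, hq3⟩ := hq
  have hle : dist (q.1 (m q)) (q.2 (m q)) ≤ r0 := by
    have h1 := hqmin q0 hq0
    have h2 := hm2 q0 x0 hx0
    rw [hv0] at h2
    exact h1.trans h2
  refine ⟨q.1, hq1, q.2, hq2, hq3, m q, ?_, ?_⟩
  · rw [dist_pos]
    intro he
    exact hq3 (hT.disjoint _ hq1 _ hq2 _ he)
  · intro t' ht' s' hs' hne x'
    rcases le_or_gt (dist (t' x') (s' x')) r0 with hc | hc
    · obtain ⟨q', hq', y, hy, hv⟩ := hnorm t' ht' s' hs' hne x' hc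
      have h1 := hqmin q' hq'
      have h2 := hm2 q' y hy
      rw [hv] at h2
      exact h1.trans h2
    · exact hle.trans hc.le

end Pool.Kod
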