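import Pool.Agent.Work.MP_f5717c_gt.K.Ax

/-!
Module C2 (M). The axis closes up.

Proof. For `n : ℕ` put `x n = e (axis (n d))`; `s (x n) = t (x (n+1))`, so
`dist (t (x n)) (s (x n)) = dist (axis (n d)) (axis ((n+1) d)) = d`. With the centres and radii
`x1, R1`, `x2, R2` of `h₁.cocompact`, `h₂.cocompact` choose `g n ∈ L₁` with `dist (g n (x n)) x1 ≤ R1` and
`h n ∈ L₂` with `dist (h n (t (x n))) x2 ≤ R2`. The elements `a n = h n * t * (g n)⁻¹` and
`b n = h n * s * (g n)⁻¹` of `T` satisfy `a n (g n (x n)) = h n (t (x n))`, `b n (g n (x n)) = h n (s (x n))`, hence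
`dist (a n x1) x2 ≤ R1 + R2`, `dist (b n x1) x2 ≤ R1 + d + R2`: both lie in a finite set (`hT.finite`).
By the infinite pigeonhole principle there is an infinite set `J` of indices on which `(a n, b n)` is
constant. On `J` the map `n ↦ g n` is not constant: if `g n = g` for all `n ∈ J` then
`dist (g (x n)) (g (x m)) = |n - m| d ≤ 2 R1` for all `n, m ∈ J`, impossible for an infinite set. Take
`n, m ∈ J` with `g n ≠ g m` and put `γ = (g m)⁻¹ * g n ≠ 1`, `δ = (h m)⁻¹ * h n`. From `a n = a m`: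
`h n * t * (g n)⁻¹ = h m * t * (g m)⁻¹`, so `δ * t = t * γ`; from `b n = b m`: `δ * s = s * γ`.
-/

namespace Pool.Kod

open UpperHalfPlane

theorem period {L₁ L₂ : Subgroup Iso} {T : Set Iso} (h₁ : IsSurfaceGroup L₁)
    (h₂ : IsSurfaceGroup L₂) (hT : IsEtale L₁ L₂ T) {t s e : Iso} (ht : t ∈ T) (hs : s ∈ T)
    {d : ℝ} (hd : 0 < d) (hax : ∀ u : ℝ, s (e (axis u)) = t (e (axis (u + d)))) :
    ∃ γ ∈ L₁, ∃ δ ∈ L₂, γ ≠ 1 ∧ δ * t = t * γ ∧ δ * s = s * γ := by
  obtain ⟨x1, R1, hR1⟩ := h₁.cocompact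
  obtain ⟨x2, R2, hR2⟩ := h₂.cocompact
  let x : ℕ → ℍ := fun n => e (axis (n * d))
  have hx : ∀ n : ℕ, dist (t (x n)) (s (x n)) = d := by
    intro n
    change dist (t (e (axis (n * d)))) (s (e (axis (n * d)))) = d
    rw [hax, t.dist_eq, e.dist_eq, axis_dist]
    have : (n * d - (n * d + d) : ℝ) = -d := by ring
    rw [this, abs_neg, abs_of_pos hd]
  choose g hg hgx using fun n : ℕ => hR1 (x n)
  choose h hh hhx using fun n : ℕ => hR2 (t (x n))
  have e1 : ∀ (r : Iso) (n : ℕ), (h n * r * (g n)⁻¹) (g n (x n)) = h n (r (x n)) := by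
    intro r n
    change h n (r ((g n).symm (g n (x n)))) = h n (r (x n))
    rw [(g n).symm_apply_apply]
  have d1 : ∀ (r : Iso) (n : ℕ), dist ((h n * r * (g n)⁻¹) x1) (h n (r (x n))) ≤ R1 := by
    intro r n
    rw [← e1, (h n * r * (g n)⁻¹).dist_eq, dist_comm]
    exact hgx n
  let A : Set Iso := {a | a ∈ T ∧ dist (a x1) x2 ≤ R1 + d + R2}
  have hA : A.Finite := hT.finite x1 x2 _
  have ha : ∀ n, h n * t * (g n)⁻¹ ∈ A := by
    intro n
    refine ⟨hT.mul_mem t ht _ (L₁.inv_mem (hg n)) _ (hh n), ?_⟩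
    have t1 := dist_triangle ((h n * t * (g n)⁻¹) x1) (h n (t (x n))) x2
    have t2 := d1 t n
    have t3 := hhx n
    linarith
  have hb : ∀ n, h n * s * (g n)⁻¹ ∈ A := by
    intro n
    refine ⟨hT.mul_mem s hs _ (L₁.inv_mem (hg n)) _ (hh n), ?_⟩
    have t1 := dist_triangle ((h n * s * (g n)⁻¹) x1) (h n (s (x n))) x2
    have t2 := d1 s n
    have t3 := hhx n
    have t4 := dist_triangle (h n (s (x n))) (h n (t (x n))) x2
    have t5 : dist (h n (s (x n))) (h n (t (x n))) = d := by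
      rw [(h n).dist_eq, dist_comm]
      exact hx n
    linarith
  have : Finite A := hA
  obtain ⟨y, hy⟩ := Finite.exists_infinite_fiber
    (fun n : ℕ => ((⟨_, ha n⟩, ⟨_, hb n⟩) : A × A))
  have hJ : ((fun n : ℕ => ((⟨_, ha n⟩, ⟨_, hb n⟩) : A × A)) ⁻¹' {y}).Infinite :=
    Set.infinite_coe_iff.1 hy
  obtain ⟨n, hn⟩ := hJ.nonempty
  obtain ⟨K, hK⟩ := exists_nat_gt (2 * R1 / d)
  obtain ⟨k, hk, hkn⟩ := hJ.exists_gt (n + K)
  have hn' : ((⟨_, ha n⟩, ⟨_, hb n⟩) : A × A) = y := hn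
  have hk' : ((⟨_, ha k⟩, ⟨_, hb k⟩) : A × A) = y := hk
  have hnk := hn'.trans hk'.symm
  have ha' : h n * t * (g n)⁻¹ = h k * t * (g k)⁻¹ := congrArg (fun q : A × A => q.1.1) hnk
  have hb' : h n * s * (g n)⁻¹ = h k * s * (g k)⁻¹ := congrArg (fun q : A × A => q.2.1) hnk
  have hgne : g n ≠ g k := by
    intro heq
    have t1 := hgx n
    have t2 := hgx k
    rw [heq] at t1
    have t3 := dist_triangle (g k (x n)) x1 (g k (x k))
    rw [(g k).dist_eq, dist_comm x1] at t3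
    have t4 : dist (x n) (x k) = |(n : ℝ) * d - k * d| := by
      change dist (e (axis (n * d))) (e (axis (k * d))) = _
      rw [e.dist_eq, axis_dist]
    have t5 : (n : ℝ) + K < k := by exact_mod_cast hkn
    have t6 : (k : ℝ) * d - n * d ≤ |(n : ℝ) * d - k * d| := by
      have := neg_abs_le ((n : ℝ) * d - k * d)
      linarith
    rw [div_lt_iff₀ hd] at hK
    have t7 : ((n : ℝ) + K) * d < k * d := mul_lt_mul_of_pos_right t5 hd
    have t8 : ((n : ℝ) + K) * d = n * d + K * d := by ring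
    linarith
  refine ⟨(g k)⁻¹ * g n, L₁.mul_mem (L₁.inv_mem (hg k)) (hg n), (h k)⁻¹ * h n,
    L₂.mul_mem (L₂.inv_mem (hh k)) (hh n), ?_, ?_, ?_⟩
  · intro h0
    exact hgne (inv_mul_eq_one.1 h0).symm
  · have : (h k)⁻¹ * (h n * t * (g n)⁻¹) * g n = (h k)⁻¹ * (h k * t * (g k)⁻¹) * g n := by rw [ha']
    calc (h k)⁻¹ * h n * t = (h k)⁻¹ * (h n * t * (g n)⁻¹) * g n := by group
      _ = (h k)⁻¹ * (h k * t * (g k)⁻¹) * g n := this
      _ = t * ((g k)⁻¹ * g n) := by group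
  · have : (h k)⁻¹ * (h n * s * (g n)⁻¹) * g n = (h k)⁻¹ * (h k * s * (g k)⁻¹) * g n := by rw [hb']
    calc (h k)⁻¹ * h n * s = (h k)⁻¹ * (h n * s * (g n)⁻¹) * g n := by group
      _ = (h k)⁻¹ * (h k * s * (g k)⁻¹) * g n := this
      _ = s * ((g k)⁻¹ * g n) := by group

end Pool.Kod
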