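import Pool.Agent.Work.MP_f5717c_gt.K.H3a

/-!
Module H4 (S-M). An isometry that translates the axis by `d > 0` moves every other point by more
than `d`.

Proof. By `fix_axis_pt`, `(g z).im = e^d y` and `(g z).re = ± e^d x` (`z = x + i y`). By
`UpperHalfPlane.cosh_dist`:
`cosh (dist z (g z)) = 1 + (x^2 (1 ∓ e^d)^2 + y^2 (e^d - 1)^2) / (2 y^2 e^d)`, while
`cosh d = 1 + (e^d - 1)^2 / (2 e^d)`. So equality of the two forces `x^2 (1 ∓ e^d)^2 = 0`, and
`e^d ≠ 1`, `e^d ≠ -1`, so `x = 0` and `z = axis (log y)` (`UpperHalfPlane.ext_re_im`, `Real.exp_log`).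
-/

namespace Pool.Kod

open UpperHalfPlane

theorem axis_of_disp (g : Iso) (d : ℝ) (hd : 0 < d) (hg : ∀ u, g (axis u) = axis (u + d)) (z : ℍ)
    (hz : dist z (g z) = d) : ∃ u, z = axis u := by
  obtain ⟨him, hre⟩ := fix_axis_pt g d hg z
  have hz0 := z.im_pos
  have hd1 : 1 < Real.exp d := by
    have := Real.add_one_lt_exp hd.ne'
    linarith
  have hc := UpperHalfPlane.cosh_dist' z (g z)
  rw [hz, Real.cosh_eq, Real.exp_neg, him] at hc
  have hx : z.re = 0 := by
    by_contra hne
    have hx2 : 0 < z.re ^ 2 := by positivity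
    have hd0 := Real.exp_pos d
    field_simp at hc
    rcases hre with h | h
    · rw [h] at hc
      have h1 : (z.re - Real.exp d * z.re) ^ 2 = 0 := by nlinarith [hc]
      have h2 : z.re * (1 - Real.exp d) = 0 := by
        have := pow_eq_zero_iff (two_ne_zero) |>.1 h1
        linarith
      rcases mul_eq_zero.1 h2 with h3 | h3
      · exact hne h3
      · linarith
    · rw [h] at hc
      have h1 : (z.re + Real.exp d * z.re) ^ 2 = 0 := by nlinarith [hc]
      have h2 : z.re * (1 + Real.exp d) = 0 := by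
        have := pow_eq_zero_iff (two_ne_zero) |>.1 h1
        linarith
      rcases mul_eq_zero.1 h2 with h3 | h3
      · exact hne h3
      · linarith
  refine ⟨Real.log z.im, UpperHalfPlane.ext_re_im hx ?_⟩
  change z.im = Real.exp (Real.log z.im)
  rw [Real.exp_log hz0]

end Pool.Kod
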