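import Pool.Agent.Work.MP_f5717c_gt.K.Ax

/-!
Module H2 (M). The isometry group is transitive on pairs of points at a given distance.

Proof. Let `D = dist x y`. Step 1: it is enough to find, for each `w : ℍ` with `dist (axis 0) w = D`,
an isometry `k` with `k (axis 0) = axis 0` and `k (axis D) = w`. Indeed there is an isometry `m` with
`m (axis 0) = x` (`z ↦ x.im z + x.re`: compose `UpperHalfPlane.isometry_pos_mul` and
`UpperHalfPlane.isometry_real_vadd`, both are bijective; or use an element of `SL(2, ℝ)`); put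
`w = m⁻¹ y` and `e = m * k`.

Step 2: `k` is given by the rotation matrix `[[c, s], [-s, c]]` of `SL(2, ℝ)`, `c^2 + s^2 = 1`
(the action of `SL(2, ℝ)` is isometric: instance `IsIsometricSMul SL(2, ℝ) ℍ`, so
`IsometryEquiv.constSMul`). It fixes `i`. Put `l = e^D ≥ 1` and `w = a + i b`. One has
`(c (i l) + s) / (-s (i l) + c) = (s c (1 - l^2) + i l) / (c^2 + l^2 s^2)`.
From `cosh (dist i w) = (a^2 + b^2 + 1) / (2 b)` (`cosh_dist_axis`) and `2 cosh D = l + 1/l`:
(∗) `a^2 + b^2 + 1 = b (l + 1/l)`, hence `(b - l) (b - 1/l) = - a^2 ≤ 0`, so `1/l ≤ b ≤ l`.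
If `D = 0` then `w = i` and `k = 1`. If `D > 0` put `S = (l/b - 1)/(l^2 - 1)`, then `0 ≤ S ≤ 1` by
`1/l ≤ b ≤ l`; choose `s = √S`, `c = ± √(1 - S)`, so `c^2 + l^2 s^2 = 1 + (l^2 - 1) S = l / b` and the
imaginary part of the image is `b`. The real part is `s c (1 - l^2) b / l`, its square equals `a^2`
(both equal `- b^2 + b (l + 1/l) - 1`: the image also has distance `D` from `i`, since `k` is an
isometry fixing `i`, so (∗) holds for it as well), hence with the right sign of `c` it is `a`.
(Alternatively: with the sign `+` the image is `w` or `-a + i b`; in the second case compose with the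
isometry `z ↦ - conj z`; any isometry is allowed here.)
-/

namespace Pool.Kod

open UpperHalfPlane

private noncomputable def mirF (z : ℍ) : ℍ := ⟨⟨-z.re, z.im⟩, z.im_pos⟩

private theorem mirF_mirF (z : ℍ) : mirF (mirF z) = z := by
  apply UpperHalfPlane.ext_re_im
  · change - -z.re = z.re
    ring
  · rfl

private theorem mirF_dist (z w : ℍ) : dist (mirF z) (mirF w) = dist z w := by
  rw [UpperHalfPlane.dist_eq, UpperHalfPlane.dist_eq]
  have h : dist ((mirF z : ℍ) : ℂ) (mirF w : ℂ) = dist (z : ℂ) w := by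
    rw [Complex.dist_eq_re_im, Complex.dist_eq_re_im]
    change √((-z.re - -w.re) ^ 2 + (z.im - w.im) ^ 2) = √((z.re - w.re) ^ 2 + (z.im - w.im) ^ 2)
    congr 1
    ring
  rw [h]
  rfl

private noncomputable def mir : Iso where
  toFun := mirF
  invFun := mirF
  left_inv := mirF_mirF
  right_inv := mirF_mirF
  isometry_toFun := Isometry.of_dist_eq mirF_dist

private theorem axis_zero_coe : ((axis 0 : ℍ) : ℂ) = Complex.I := by
  apply Complex.ext
  · change (0 : ℝ) = Complex.I.re
    rw [Complex.I_re]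
  · change Real.exp 0 = Complex.I.im
    rw [Complex.I_im, Real.exp_zero]

private theorem rot_exists (c s : ℝ) (h : c ^ 2 + s ^ 2 = 1) (D : ℝ) :
    ∃ k : Iso, k (axis 0) = axis 0 ∧
      (k (axis D)).im = Real.exp D / (c ^ 2 + s ^ 2 * Real.exp D ^ 2) := by
  let g : Matrix.SpecialLinearGroup (Fin 2) ℝ := ⟨!![c, s; -s, c], by
    rw [Matrix.det_fin_two_of]; linarith⟩
  have h00 : g 0 0 = c := rfl
  have h01 : g 0 1 = s := rfl
  have h10 : g 1 0 = -s := rfl
  have h11 : g 1 1 = c := rfl
  have hap : ∀ z : ℍ, ((g • z : ℍ) : ℂ) = ((c : ℂ) * z + s) / (-(s : ℂ) * z + c) := by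
    intro z
    rw [coe_specialLinearGroup_apply]
    simp only [h00, h01, h10, h11, Algebra.algebraMap_self, RingHom.id_apply]
    push_cast
    rfl
  refine ⟨IsometryEquiv.constSMul g, ?_, ?_⟩
  · change g • axis 0 = axis 0
    apply UpperHalfPlane.ext
    rw [hap, axis_zero_coe]
    have hne : (-(s : ℂ) * Complex.I + c) ≠ 0 := by
      intro h0
      have h1 := congrArg Complex.re h0
      have h2 := congrArg Complex.im h0
      simp at h1 h2
      rw [h1, h2] at h
      norm_num at h
    rw [div_eq_iff hne]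
    linear_combination (s : ℂ) * Complex.I_sq
  · change (g • axis D).im = _
    rw [← coe_im, hap, Complex.div_im]
    have e1 : ((axis D : ℍ) : ℂ).re = 0 := rfl
    have e2 : ((axis D : ℍ) : ℂ).im = Real.exp D := rfl
    have n1 : ((c : ℂ) * (axis D : ℍ) + s).im = c * Real.exp D := by
      rw [Complex.add_im, Complex.im_ofReal_mul, Complex.ofReal_im, e2, add_zero]
    have n2 : ((c : ℂ) * (axis D : ℍ) + s).re = s := by
      rw [Complex.add_re, Complex.re_ofReal_mul, Complex.ofReal_re, e1, mul_zero, zero_add]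
    have n3 : (-(s : ℂ) * (axis D : ℍ) + c).im = -s * Real.exp D := by
      rw [← Complex.ofReal_neg, Complex.add_im, Complex.im_ofReal_mul, Complex.ofReal_im, e2,
        add_zero]
    have n4 : (-(s : ℂ) * (axis D : ℍ) + c).re = c := by
      rw [← Complex.ofReal_neg, Complex.add_re, Complex.re_ofReal_mul, Complex.ofReal_re, e1,
        mul_zero, zero_add]
    rw [Complex.normSq_apply, n1, n2, n3, n4]
    have hE := Real.exp_pos D
    have e3 : c * c + -s * Real.exp D * (-s * Real.exp D) = c ^ 2 + s ^ 2 * Real.exp D ^ 2 := by ring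
    rw [e3, ← sub_div]
    congr 1
    linear_combination Real.exp D * h

/-- The circle of radius `D` around `i`. -/
private theorem star {w : ℍ} {D : ℝ} (hw : dist w (axis 0) = D) :
    w.re ^ 2 + w.im ^ 2 + 1 = w.im * (Real.exp D + (Real.exp D)⁻¹) := by
  have h := cosh_dist_axis w 0
  rw [hw, Real.cosh_eq, neg_zero, Real.exp_zero, Real.exp_neg] at h
  have hb := w.im_pos
  have hE := Real.exp_pos D
  rw [eq_div_iff (by positivity)] at h
  linarith

private theorem rot_to (w : ℍ) (D : ℝ) (hD : 0 ≤ D) (hw : dist w (axis 0) = D) :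
    ∃ k : Iso, k (axis 0) = axis 0 ∧ k (axis D) = w := by
  rcases hD.eq_or_lt with h0 | h0
  · subst h0
    exact ⟨1, rfl, (dist_eq_zero.1 hw).symm⟩
  have hl : 1 < Real.exp D := Real.one_lt_exp_iff.2 h0
  have hs := star hw
  set l := Real.exp D with hld
  have hb := w.im_pos
  set b := w.im with hbd
  have hl0 : 0 < l := by linarith
  have hprod : (b - l) * (b - l⁻¹) ≤ 0 := by
    have : (b - l) * (b - l⁻¹) = -(w.re ^ 2) := by
      have e : l * l⁻¹ = 1 := mul_inv_cancel₀ hl0.ne'
      linear_combination hs + e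
    rw [this]
    nlinarith [sq_nonneg w.re]
  have hli : l⁻¹ < 1 := inv_lt_one_of_one_lt₀ hl
  have hbl : b ≤ l := by
    by_contra hc
    push Not at hc
    have h1 : 0 < b - l := by linarith
    have h2 : 0 < b - l⁻¹ := by linarith
    linarith [mul_pos h1 h2]
  have hbl2 : l⁻¹ ≤ b := by
    by_contra hc
    push Not at hc
    have h1 : 0 < l - b := by linarith
    have h2 : 0 < l⁻¹ - b := by linarith
    have := mul_pos h1 h2
    have e : (l - b) * (l⁻¹ - b) = (b - l) * (b - l⁻¹) := by ring
    linarith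
  have hl2 : 0 < l ^ 2 - 1 := by nlinarith
  set S : ℝ := (l / b - 1) / (l ^ 2 - 1) with hS
  have hS0 : 0 ≤ S := by
    apply div_nonneg _ hl2.le
    have : 1 ≤ l / b := by rw [le_div_iff₀ hb]; linarith
    linarith
  have hS1 : S ≤ 1 := by
    rw [hS, div_le_one hl2]
    have : l / b ≤ l ^ 2 := by
      rw [div_le_iff₀ hb]
      have h3 : 1 ≤ l * b := by
        have := mul_le_mul_of_nonneg_left hbl2 hl0.le
        rwa [mul_inv_cancel₀ hl0.ne'] at this
      nlinarith
    linarith
  obtain ⟨k, hk1, hk2⟩ := rot_exists (√(1 - S)) (√S) (by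
    rw [Real.sq_sqrt (by linarith), Real.sq_sqrt hS0]; ring) D
  rw [Real.sq_sqrt (by linarith : (0 : ℝ) ≤ 1 - S), Real.sq_sqrt hS0, ← hld] at hk2
  have hden : 1 - S + S * l ^ 2 = l / b := by
    have : S * (l ^ 2 - 1) = l / b - 1 := by
      rw [hS]; exact div_mul_cancel₀ _ hl2.ne'
    linarith
  rw [hden] at hk2
  have hk3 : (k (axis D)).im = b := by
    rw [hk2]
    field_simp
  have hkd : dist (k (axis D)) (axis 0) = D := by
    conv_lhs => rw [← hk1]
    rw [k.dist_eq, axis_dist, sub_zero, abs_of_pos h0]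
  have hs2 := star hkd
  rw [hk3, ← hld] at hs2
  have hre : (k (axis D)).re ^ 2 = w.re ^ 2 := by linarith
  rcases sq_eq_sq_iff_eq_or_eq_neg.1 hre with h1 | h1
  · exact ⟨k, hk1, UpperHalfPlane.ext_re_im h1 hk3⟩
  · refine ⟨mir * k, ?_, ?_⟩
    · change mirF (k (axis 0)) = axis 0
      rw [hk1]
      apply UpperHalfPlane.ext_re_im
      · change -(0 : ℝ) = 0
        ring
      · rfl
    · change mirF (k (axis D)) = w
      apply UpperHalfPlane.ext_re_im
      · change -(k (axis D)).re = w.re
        rw [h1, neg_neg]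
      · exact hk3

theorem exists_iso (x y : ℍ) : ∃ e : Iso, e (axis 0) = x ∧ e (axis (dist x y)) = y := by
  let m : Iso := IsometryEquiv.constSMul x.toSL2R
  have hI : axis 0 = UpperHalfPlane.I := by
    apply UpperHalfPlane.ext
    rw [axis_zero_coe]
    rfl
  have hm : m (axis 0) = x := by
    change x.toSL2R • axis 0 = x
    rw [hI]
    exact toSL2R_smul_I x
  have hd : dist (m.symm y) (axis 0) = dist x y := by
    rw [← m.dist_eq, m.apply_symm_apply, hm, dist_comm]
  obtain ⟨k, hk1, hk2⟩ := rot_to (m.symm y) (dist x y) dist_nonneg hd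
  refine ⟨m * k, ?_, ?_⟩
  · change m (k (axis 0)) = x
    rw [hk1, hm]
  · change m (k (axis (dist x y))) = y
    rw [hk2, m.apply_symm_apply]

end Pool.Kod
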