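import Pool.Agent.Work.MP_f5717c_gt.K.H1
import Pool.Agent.Work.MP_f5717c_gt.K.H2

/-!
Module H5 (M). If the displacement of an isometry `g` has its minimum `d > 0` at `x`, then `g`
translates the geodesic through `x` and `g x`.

Proof. By `exists_iso` there is `e` with `e (axis 0) = x`, `e (axis d) = g x` (`dist x (g x) = d`). Put
`f = e⁻¹ * g * e` (isometry): `f (axis 0) = axis d`, and `d ≤ dist z (f z)` for all `z` (apply `hmin` to
`e z`; `e` is an isometry). Let `m = axis (d/2)` and `n = f m`. Then
`dist n (axis d) = dist (f m) (f (axis 0)) = dist m (axis 0) = d/2` and, by the triangle inequality,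
`d ≤ dist m n ≤ dist m (axis d) + dist (axis d) n = d/2 + d/2 = d`; so `dist n m = d` and
`dist n (axis d) = d/2`: by `axis_unique` with `u = d/2`, `v = d`, `w = 3d/2`: `n = axis (3d/2)`.
Now for every `u`: `z = f (axis u)` satisfies `dist z (axis d) = dist (axis u) (axis 0) = |u|` and
`dist z (axis (3d/2)) = dist (f (axis u)) (f (axis (d/2))) = |u - d/2|`; by `axis_unique` with the points
`d` and `3d/2` and `w = u + d`: `z = axis (u + d)`. So `g (e (axis u)) = e (f (axis u)) = e (axis (u + d))`.
-/

namespace Pool.Kod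

open UpperHalfPlane

theorem axis_of_min (g : Iso) (x : ℍ) (d : ℝ) (hd : 0 < d) (hx : dist x (g x) = d)
    (hmin : ∀ y : ℍ, d ≤ dist y (g y)) :
    ∃ e : Iso, e (axis 0) = x ∧ ∀ u : ℝ, g (e (axis u)) = e (axis (u + d)) := by
  obtain ⟨e, he0, hed⟩ := exists_iso x (g x)
  rw [hx] at hed
  refine ⟨e, he0, ?_⟩
  have hfd : ∀ z w : ℍ, dist (e.symm (g (e z))) (e.symm (g (e w))) = dist z w := by
    intro z w
    rw [e.symm.dist_eq, g.dist_eq, e.dist_eq]
  have hf0 : e.symm (g (e (axis 0))) = axis d := by
    rw [he0, ← hed, e.symm_apply_apply]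
  have hfmin : ∀ z : ℍ, d ≤ dist z (e.symm (g (e z))) := by
    intro z
    have h1 := hmin (e z)
    rw [← e.symm.dist_eq, e.symm_apply_apply] at h1
    exact h1
  have a1 : dist (e.symm (g (e (axis (d / 2))))) (axis d) = d / 2 := by
    rw [← hf0, hfd, axis_dist, sub_zero, abs_of_pos (by linarith)]
  have a2 : dist (e.symm (g (e (axis (d / 2))))) (axis (d / 2)) = d := by
    apply le_antisymm
    · have h1 := dist_triangle (e.symm (g (e (axis (d / 2))))) (axis d) (axis (d / 2))
      have h2 : dist (axis d) (axis (d / 2)) = d / 2 := by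
        rw [axis_dist]
        have : d - d / 2 = d / 2 := by ring
        rw [this, abs_of_pos (by linarith)]
      linarith
    · rw [dist_comm]
      exact hfmin _
  have hn : e.symm (g (e (axis (d / 2)))) = axis (3 * d / 2) := by
    apply axis_unique (u := d / 2) (v := d) (w := 3 * d / 2) (by linarith)
    · rw [a2]
      have : 3 * d / 2 - d / 2 = d := by ring
      rw [this, abs_of_pos hd]
    · rw [a1]
      have : 3 * d / 2 - d = d / 2 := by ring
      rw [this, abs_of_pos (by linarith)]
  intro u
  have hz : e.symm (g (e (axis u))) = axis (u + d) := by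
    apply axis_unique (u := d) (v := 3 * d / 2) (w := u + d) (by linarith)
    · rw [← hf0, hfd, axis_dist]
      congr 1
      ring
    · rw [← hn, hfd, axis_dist]
      congr 1
      ring
  rw [← hz, e.apply_symm_apply]

end Pool.Kod
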