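import Pool.Agent.Work.MP_f5717c_gt.K.H3
import Pool.Agent.Work.MP_f5717c_gt.K.H4
import Pool.Agent.Work.MP_f5717c_gt.K.H5
import Pool.Agent.Work.MP_f5717c_gt.K.C1
import Pool.Agent.Work.MP_f5717c_gt.K.C2

/-!
Module C3 (M). The tube exists.

Proof. Take `t, s, x` from `closest`, `d = dist (t x) (s x) > 0`, `g = t⁻¹ * s`. For all `y`:
`dist y (g y) = dist (t y) (s y) ≥ d`, with equality at `x`. `axis_of_min` gives `e` with
`g (e (axis u)) = e (axis (u + d))`, i.e. `s (e (axis u)) = t (e (axis (u + d)))` (`hax`). `period` gives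
`γ0 ∈ L₁`, `δ0 ∈ L₂`, `γ0 ≠ 1`, `δ0 t = t γ0`, `δ0 s = s γ0`; hence `γ0 g = g γ0`
(`t⁻¹ s γ0 = t⁻¹ δ0 s = γ0 t⁻¹ s`).
Put `f = e⁻¹ * g * e`, `k = e⁻¹ * γ0 * e`; `f (axis u) = axis (u + d)` and `f k = k f`. For each `u` the point
`z = k (axis u)` has `dist z (f z) = dist (k (axis u)) (k (f (axis u))) = dist (axis u) (axis (u+d)) = d`, so by
`axis_of_disp` `z = axis (w u)` for some real `w u`. `|w u - w v| = |u - v|` (`axis_dist`, `k` isometry) and
`axis (w (u + d)) = k (f (axis u)) = f (k (axis u)) = axis (w u + d)`, so `w (u + d) = w u + d`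
(`axis` is injective by `axis_dist`). A map `w : ℝ → ℝ` with `|w u - w v| = |u - v|` is `u ↦ w 0 + u` or
`u ↦ w 0 - u` at every point (`|w u - w 0| = |u|`), and here always the first: if `w u = w 0 - u` with
`u ≠ 0`, compare with `w d = w 0 + d`: `|w u - w d| = |u + d|` must be `|u - d|`, so `u d = 0`, a
contradiction. Put `c = w 0`: `k (axis u) = axis (u + c)`. `c ≠ 0`, because otherwise
`γ0 (e (axis 0)) = e (axis 0)` and `γ0 = 1` by `h₁.free`.
Take `γ = γ0 * γ0`, `δ = δ0 * δ0`, `L = 2 c`. By `fix_axis_sq`: `k (k z) = scl (2 c) z`, so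
`γ (e z) = e (k (k z)) = e (scl L z)`. `δ t = δ0 (δ0 t) = δ0 t γ0 = t γ0 γ0 = t γ`.
`hmin` is the minimality in `closest`.
-/

namespace Pool.Kod

open UpperHalfPlane

private theorem axis_inj {u v : ℝ} (h : axis u = axis v) : u = v := by
  have h1 := axis_dist u v
  rw [h, dist_self] at h1
  have h2 := abs_eq_zero.1 h1.symm
  linarith

/-- An isometry that commutes with the translation of the axis and maps the axis to itself is a
translation on the axis. -/
private theorem axis_trans (f k : Iso) (d : ℝ) (hd : 0 < d)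
    (hf : ∀ u : ℝ, f (axis u) = axis (u + d)) (hfk : f * k = k * f) :
    ∃ c : ℝ, ∀ u : ℝ, k (axis u) = axis (u + c) := by
  have hcomm : ∀ z : ℍ, f (k z) = k (f z) := fun z => DFunLike.congr_fun hfk z
  have h1 : ∀ u : ℝ, ∃ w : ℝ, k (axis u) = axis w := by
    intro u
    apply axis_of_disp f d hd hf
    rw [hcomm, k.dist_eq, hf, axis_dist]
    have : u - (u + d) = -d := by ring
    rw [this, abs_neg, abs_of_pos hd]
  choose w hw using h1
  have hdist : ∀ u v : ℝ, |w u - w v| = |u - v| := by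
    intro u v
    rw [← axis_dist, ← hw, ← hw, k.dist_eq, axis_dist]
  have hper : ∀ u : ℝ, w (u + d) = w u + d := by
    intro u
    apply axis_inj
    rw [← hw, ← hf, ← hcomm, hw, hf]
  refine ⟨w 0, fun u => ?_⟩
  rw [hw]
  congr 1
  have a1 := hdist u 0
  have a2 := hdist u d
  have a3 := hper 0
  rw [zero_add] at a3
  rw [a3] at a2
  rw [sub_zero] at a1
  rcases abs_eq_abs.1 a1 with h | h
  · linarith
  · have h2 : w u = w 0 - u := by linarith
    rw [h2] at a2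
    have h3 : w 0 - u - (w 0 + d) = -(u + d) := by ring
    rw [h3, abs_neg] at a2
    rcases abs_eq_abs.1 a2 with h4 | h4
    · exfalso
      linarith
    · have : u = 0 := by linarith
      rw [this]
      ring

theorem exists_tube {L₁ L₂ : Subgroup Iso} {T : Set Iso} (h₁ : IsSurfaceGroup L₁)
    (h₂ : IsSurfaceGroup L₂) (hT : IsEtale L₁ L₂ T) :
    ∃ (t s e γ δ : Iso) (d L : ℝ), IsTube L₁ L₂ T t s e γ δ d L := by
  obtain ⟨t, ht, s, hs, hne, x, hd, hmin⟩ := closest h₁ h₂ hT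
  set d := dist (t x) (s x) with hdd
  have hdisp : ∀ y : ℍ, dist y ((t⁻¹ * s) y) = dist (t y) (s y) := by
    intro y
    change dist y (t.symm (s y)) = dist (t y) (s y)
    rw [← t.dist_eq, t.apply_symm_apply]
  obtain ⟨e, he0, hax0⟩ := axis_of_min (t⁻¹ * s) x d hd (hdisp x) (fun y => by
    rw [hdisp]
    exact hmin t ht s hs hne y)
  have hax : ∀ u : ℝ, s (e (axis u)) = t (e (axis (u + d))) := by
    intro u
    have h1 := hax0 u
    have h2 : t ((t⁻¹ * s) (e (axis u))) = s (e (axis u)) := t.apply_symm_apply _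
    rw [← h2, h1]
  obtain ⟨γ₀, hγ₀, δ₀, hδ₀, hγne, hδt, hδs⟩ := period h₁ h₂ hT ht hs hd hax
  have hcomm : (t⁻¹ * s) * γ₀ = γ₀ * (t⁻¹ * s) := by
    calc (t⁻¹ * s) * γ₀ = t⁻¹ * (s * γ₀) := by group
      _ = t⁻¹ * (δ₀ * s) := by rw [hδs]
      _ = t⁻¹ * (δ₀ * t) * (t⁻¹ * s) := by group
      _ = t⁻¹ * (t * γ₀) * (t⁻¹ * s) := by rw [hδt]
      _ = γ₀ * (t⁻¹ * s) := by group
  let f : Iso := e⁻¹ * (t⁻¹ * s) * e
  let k : Iso := e⁻¹ * γ₀ * e
  have hf : ∀ u : ℝ, f (axis u) = axis (u + d) := by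
    intro u
    change e.symm ((t⁻¹ * s) (e (axis u))) = axis (u + d)
    rw [hax0, e.symm_apply_apply]
  have hfk : f * k = k * f := by
    calc e⁻¹ * (t⁻¹ * s) * e * (e⁻¹ * γ₀ * e) = e⁻¹ * ((t⁻¹ * s) * γ₀) * e := by group
      _ = e⁻¹ * (γ₀ * (t⁻¹ * s)) * e := by rw [hcomm]
      _ = e⁻¹ * γ₀ * e * (e⁻¹ * (t⁻¹ * s) * e) := by group
  obtain ⟨c, hc⟩ := axis_trans f k d hd hf hfk
  have hc0 : c ≠ 0 := by
    intro h0
    apply hγne
    apply h₁.free γ₀ hγ₀ (e (axis 0))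
    have h1 : e (k (axis 0)) = γ₀ (e (axis 0)) := e.apply_symm_apply _
    rw [← h1, hc, h0, add_zero]
  have hsq : ∀ z : ℍ, γ₀ (γ₀ (e z)) = e (scl (2 * c) z) := by
    intro z
    rw [← fix_axis_sq k c hc z]
    change γ₀ (γ₀ (e z)) = e (e.symm (γ₀ (e (e.symm (γ₀ (e z))))))
    rw [e.apply_symm_apply, e.apply_symm_apply]
  exact ⟨t, s, e, γ₀ * γ₀, δ₀ * δ₀, d, 2 * c,
    { ht := ht
      hs := hs
      hne := hne
      hd := hd
      hax := hax
      hmin := hmin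
      hγ := L₁.mul_mem hγ₀ hγ₀
      hδ := L₂.mul_mem hδ₀ hδ₀
      hL := mul_ne_zero two_ne_zero hc0
      hγe := hsq
      hδt := by rw [mul_assoc, hδt, ← mul_assoc, hδt, mul_assoc] }⟩

end Pool.Kod
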