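import Pool.Agent.Work.MP_f5717c_gt.K.Ax

/-!
Module Cv (M). The complement covers the base, with group `L₁ × L₂`.

Proof. The fields of `IsQuotientCoveringMap`:
* quotient map: `isQuotientMap_quotient_mk'` (`pr` is `Quotient.mk _`);
* `ContinuousConstSMul`: each `g` acts by a pair of isometries (`Continuous.subtype_mk`,
  `Continuous.prodMk`);
* `apply_eq_iff_mem_orbit`: `Quotient.eq`; `pr e₁ = pr e₂` iff `∃ g ∈ L₁, ∃ h ∈ L₂, e₂ = (g, h) e₁`, iff
  `e₁ = (g, h)⁻¹ • e₂` lies in the orbit of `e₂`;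
* `disjoint` at `e = (x, y)`: the sets `{g ∈ L₁ | dist (g x) x ≤ 1}` and `{h ∈ L₂ | dist (h y) y ≤ 1}` are
  finite, and `g x ≠ x` for `g ≠ 1` (`free`), so there is `0 < ρ ≤ 1` with `ρ ≤ dist (g x) x` for all
  `g ∈ L₁`, `g ≠ 1` and `ρ ≤ dist (h y) y` for all `h ∈ L₂`, `h ≠ 1`. Take for `U` the points `(x', y')` with
  `dist x' x < ρ/2`, `dist y' y < ρ/2`. If `(x', y')` and `(g x', h y')` are in `U` then
  `dist (g x) x ≤ dist (g x) (g x') + dist (g x') x < ρ`, so `g = 1`, and `h = 1` in the same way.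
-/

namespace Pool.Kod

open UpperHalfPlane

/-- There is a radius below which no element different from `1` moves the point `x`. -/
private theorem exists_rad {L : Subgroup Iso} (h : IsSurfaceGroup L) (x : ℍ) :
    ∃ ρ : ℝ, 0 < ρ ∧ ∀ g ∈ L, dist (g x) x < ρ → g = 1 := by
  have hf := h.discrete x 1
  have hf2 : ((fun g : Iso => dist (g x) x) '' ({g : Iso | g ∈ L ∧ dist (g x) x ≤ 1} \ {1})).Finite :=
    (hf.subset Set.sdiff_subset).image _
  have h0 : (0 : ℝ) ∉ (fun g : Iso => dist (g x) x) '' ({g : Iso | g ∈ L ∧ dist (g x) x ≤ 1} \ {1}) := by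
    rintro ⟨g, ⟨hg, hg1⟩, he⟩
    exact hg1 (h.free g hg.1 x (dist_eq_zero.1 he))
  obtain ⟨ε, hε, hb⟩ := Metric.isOpen_iff.1 hf2.isClosed.isOpen_compl 0 h0
  refine ⟨min ε 1, lt_min hε one_pos, fun g hg hlt => ?_⟩
  by_contra hne
  have hmem : dist (g x) x ∈ Metric.ball (0 : ℝ) ε := by
    rw [Metric.mem_ball, Real.dist_eq, sub_zero, abs_of_nonneg dist_nonneg]
    exact lt_of_lt_of_le hlt (min_le_left _ _)
  exact hb hmem ⟨g, ⟨⟨hg, (lt_of_lt_of_le hlt (min_le_right _ _)).le⟩, hne⟩, rfl⟩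

theorem quotCov {L₁ L₂ : Subgroup Iso} {T : Set Iso} (h₁ : IsSurfaceGroup L₁)
    (h₂ : IsSurfaceGroup L₂) (hT : IsEtale L₁ L₂ T) :
    letI := actC hT
    IsQuotientCoveringMap (pr L₁ L₂ T) (L₁ × L₂) := by
  let := actC hT
  have hq : Topology.IsQuotientMap (pr L₁ L₂ T) := isQuotientMap_quotient_mk'
  have hcs : ContinuousConstSMul (L₁ × L₂) (Comp T) := by
    constructor
    intro g
    apply Continuous.subtype_mk
    exact (g.1.1.continuous.comp (continuous_fst.comp continuous_subtype_val)).prodMk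
      (g.2.1.continuous.comp (continuous_snd.comp continuous_subtype_val))
  refine ⟨hq, hcs, ?_, ?_⟩
  · intro e₁ e₂
    constructor
    · intro h
      obtain ⟨g, hg, k, hk, h1, h2⟩ := Quotient.exact h
      refine ⟨(⟨g⁻¹, L₁.inv_mem hg⟩, ⟨k⁻¹, L₂.inv_mem hk⟩), ?_⟩
      apply Subtype.ext
      change (g⁻¹ e₂.1.1, k⁻¹ e₂.1.2) = e₁.1
      rw [h1, h2]
      exact Prod.ext (g.symm_apply_apply _) (k.symm_apply_apply _)
    · rintro ⟨g, hg⟩
      apply Quotient.sound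
      refine ⟨(g.1.1)⁻¹, L₁.inv_mem g.1.2, (g.2.1)⁻¹, L₂.inv_mem g.2.2, ?_, ?_⟩
      · have : e₁.1.1 = g.1.1 e₂.1.1 := by rw [← hg]; rfl
        rw [this]
        exact (g.1.1.symm_apply_apply _).symm
      · have : e₁.1.2 = g.2.1 e₂.1.2 := by rw [← hg]; rfl
        rw [this]
        exact (g.2.1.symm_apply_apply _).symm
  · intro e
    obtain ⟨ρ₁, hρ₁, hr1⟩ := exists_rad h₁ e.1.1
    obtain ⟨ρ₂, hρ₂, hr2⟩ := exists_rad h₂ e.1.2
    refine ⟨{q : Comp T | dist q.1.1 e.1.1 < ρ₁ / 2 ∧ dist q.1.2 e.1.2 < ρ₂ / 2}, ?_, ?_⟩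
    · apply IsOpen.mem_nhds
      · exact (isOpen_lt ((continuous_fst.comp continuous_subtype_val).dist continuous_const)
          continuous_const).inter
          (isOpen_lt ((continuous_snd.comp continuous_subtype_val).dist continuous_const)
          continuous_const)
      · constructor
        · rw [dist_self]; linarith
        · rw [dist_self]; linarith
    · rintro g ⟨q', ⟨q, ⟨hq1, hq2⟩, rfl⟩, hq3, hq4⟩
      have hq3' : dist (g.1.1 q.1.1) e.1.1 < ρ₁ / 2 := hq3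
      have hq4' : dist (g.2.1 q.1.2) e.1.2 < ρ₂ / 2 := hq4
      have e1 : g.1.1 = 1 := by
        apply hr1 g.1.1 g.1.2
        have h5 := dist_triangle (g.1.1 e.1.1) (g.1.1 q.1.1) e.1.1
        rw [g.1.1.dist_eq, dist_comm e.1.1] at h5
        linarith
      have e2 : g.2.1 = 1 := by
        apply hr2 g.2.1 g.2.2
        have h5 := dist_triangle (g.2.1 e.1.2) (g.2.1 q.1.2) e.1.2
        rw [g.2.1.dist_eq, dist_comm e.1.2] at h5
        linarith
      exact Prod.ext (Subtype.ext e1) (Subtype.ext e2)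

end Pool.Kod
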