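import Mathlib

/-!
MP_f5717c_gt, board modkod: branched coverings of products of two closed hyperbolic surfaces
along surfaces that are etale over both factors. Definitions (FIXED).
-/

namespace Pool.Kod

open UpperHalfPlane Topology unitInterval

noncomputable section

/-- The group of all isometries of the hyperbolic plane (orientation reversing ones included). -/
abbrev Iso : Type := ℍ ≃ᵢ ℍ

/-- `L` is the deck group of a closed hyperbolic surface `ℍ / L`: it acts freely, only finitely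
many of its elements move a given point by at most `R`, and it acts cocompactly. -/
structure IsSurfaceGroup (L : Subgroup Iso) : Prop where
  free : ∀ g ∈ L, ∀ x : ℍ, g x = x → g = 1
  discrete : ∀ (x : ℍ) (R : ℝ), {g : Iso | g ∈ L ∧ dist (g x) x ≤ R}.Finite
  cocompact : ∃ (x : ℍ) (R : ℝ), ∀ y : ℍ, ∃ g ∈ L, dist (g y) x ≤ R

/-- `T` is the set of all isometries `t` of the hyperbolic plane whose graph `{(x, t x)}` is a
sheet of the preimage in `ℍ × ℍ` of a closed surface `D` in `(ℍ / L₁) × (ℍ / L₂)` that is locally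
the graph of an isometry (so `D` is etale over both factors): `T` is not empty, invariant under
`L₂` on the left and `L₁` on the right, locally finite, and its graphs are pairwise disjoint
(`D` is embedded). -/
structure IsEtale (L₁ L₂ : Subgroup Iso) (T : Set Iso) : Prop where
  nonempty : T.Nonempty
  mul_mem : ∀ t ∈ T, ∀ g ∈ L₁, ∀ h ∈ L₂, h * t * g ∈ T
  finite : ∀ (x y : ℍ) (R : ℝ), {t : Iso | t ∈ T ∧ dist (t x) y ≤ R}.Finite
  disjoint : ∀ t ∈ T, ∀ s ∈ T, ∀ x : ℍ, t x = s x → t = s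

/-- The complement of all the graphs in `ℍ × ℍ`. -/
abbrev Comp (T : Set Iso) : Type := {p : ℍ × ℍ // ∀ t ∈ T, p.2 ≠ t p.1}

/-- Two points of the complement are identified when an element of `L₁ × L₂` moves one to the
other. -/
def rel (L₁ L₂ : Subgroup Iso) (T : Set Iso) : Setoid (Comp T) where
  r p q := ∃ g ∈ L₁, ∃ h ∈ L₂, q.1.1 = g p.1.1 ∧ q.1.2 = h p.1.2
  iseqv :=
    { refl := fun p => ⟨1, L₁.one_mem, 1, L₂.one_mem, rfl, rfl⟩
      symm := by
        rintro p q ⟨g, hg, h, hh, e1, e2⟩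
        refine ⟨g⁻¹, L₁.inv_mem hg, h⁻¹, L₂.inv_mem hh, ?_, ?_⟩
        · rw [e1]; exact (g.symm_apply_apply _).symm
        · rw [e2]; exact (h.symm_apply_apply _).symm
      trans := by
        rintro p q s ⟨g, hg, h, hh, e1, e2⟩ ⟨g', hg', h', hh', e1', e2'⟩
        refine ⟨g' * g, L₁.mul_mem hg' hg, h' * h, L₂.mul_mem hh' hh, ?_, ?_⟩
        · rw [e1', e1]; rfl
        · rw [e2', e2]; rfl }

/-- The space `((ℍ / L₁) × (ℍ / L₂)) \ D`. -/
abbrev Base (L₁ L₂ : Subgroup Iso) (T : Set Iso) : Type := Quotient (rel L₁ L₂ T)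

/-- The quotient map. -/
def pr (L₁ L₂ : Subgroup Iso) (T : Set Iso) : C(Comp T, Base L₁ L₂ T) :=
  ⟨Quotient.mk (rel L₁ L₂ T), continuous_quotient_mk'⟩

/-- The loop `κ` lies in the punctured disc of radius `ε` around the point of the graph of `t` in
the fibre `{x} × ℍ`, a disc that meets no other graph. -/
def SmallLoop (T : Set Iso) (t : Iso) {p : Comp T} (κ : Path p p) : Prop :=
  ∃ ε : ℝ, (∀ s ∈ T, s ≠ t → ε < dist (s p.1.1) (t p.1.1)) ∧
    ∀ θ : I, (κ θ).1.1 = p.1.1 ∧ dist (κ θ).1.2 (t p.1.1) ≤ ε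

/-- The `r`-th powers of the loops around the graphs, based at `p`. -/
def relators (T : Set Iso) (r : Iso → ℕ) (p : Comp T) : Set (FundamentalGroup (Comp T) p) :=
  {a | ∃ t ∈ T, ∃ (q : Comp T) (ω : Path p q) (κ : Path q q), SmallLoop T t κ ∧
    a = (FundamentalGroup.fromPath (Path.Homotopic.Quotient.mk ((ω.trans κ).trans ω.symm))) ^ (r t)}

/-- The orbifold fundamental group of `(ℍ / L₁) × (ℍ / L₂)` with cone angle `2 π / r t` along the
component of `D` given by `t`: the fundamental group of the complement of `D` divided by the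
`r t`-th powers of the loops around `D`. -/
abbrev OrbGroup (L₁ L₂ : Subgroup Iso) (T : Set Iso) (r : Iso → ℕ) (p : Comp T) : Type :=
  FundamentalGroup (Base L₁ L₂ T) (pr L₁ L₂ T p) ⧸
    Subgroup.normalClosure ((FundamentalGroup.map (pr L₁ L₂ T) p) '' relators T r p)

/-! ### Auxiliary definitions (not used in the final statement) -/

/-- The point `i e^u` of the imaginary axis. -/
def axis (u : ℝ) : ℍ := ⟨⟨0, Real.exp u⟩, Real.exp_pos u⟩

/-- The map `z ↦ e^u z`. -/
def scl (u : ℝ) (z : ℍ) : ℍ :=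
  ⟨(Real.exp u : ℂ) * z, by
    have h : ((Real.exp u : ℂ) * (z : ℂ)).im = Real.exp u * z.im := Complex.im_ofReal_mul _ _
    rw [h]; exact mul_pos (Real.exp_pos u) z.im_pos⟩

/-- The action of `L₁ × L₂` on the complement of the graphs. -/
@[reducible] def actC {L₁ L₂ : Subgroup Iso} {T : Set Iso} (hT : IsEtale L₁ L₂ T) :
    MulAction (L₁ × L₂) (Comp T) where
  smul g p := ⟨(g.1.1 p.1.1, g.2.1 p.1.2), by
    intro t ht he
    have h1 : (g.2.1)⁻¹ * t * g.1.1 ∈ T := hT.mul_mem t ht g.1.1 g.1.2 _ (L₂.inv_mem g.2.2)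
    apply p.2 _ h1
    change p.1.2 = g.2.1.symm (t (g.1.1 p.1.1))
    have he' : g.2.1 p.1.2 = t (g.1.1 p.1.1) := he
    rw [← he']
    exact (g.2.1.symm_apply_apply _).symm⟩
  one_smul p := Subtype.ext (Prod.ext rfl rfl)
  mul_smul g h p := Subtype.ext (Prod.ext rfl rfl)

/-- The closest pair of graphs and the isometries that carry it around. -/
structure IsTube (L₁ L₂ : Subgroup Iso) (T : Set Iso) (t s e γ δ : Iso) (d L : ℝ) : Prop where
  ht : t ∈ T
  hs : s ∈ T
  hne : t ≠ s
  hd : 0 < d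
  hax : ∀ u : ℝ, s (e (axis u)) = t (e (axis (u + d)))
  hmin : ∀ t' ∈ T, ∀ s' ∈ T, t' ≠ s' → ∀ x : ℍ, d ≤ dist (t' x) (s' x)
  hγ : γ ∈ L₁
  hδ : δ ∈ L₂
  hL : L ≠ 0
  hγe : ∀ z : ℍ, γ (e z) = e (scl L z)
  hδt : δ * t = t * γ

/-- The circle of radius `R` around `i e^{d/2}`, as a curve in the complex plane. -/
def circC (d R θ : ℝ) : ℂ :=
  Complex.I * (Real.exp (d / 2) * (Real.cosh R + Real.sinh R * Complex.exp (2 * Real.pi * Complex.I * θ)))

theorem circC_im (d R θ : ℝ) : 0 < (circC d R θ).im := by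
  have h : (circC d R θ).im
      = Real.exp (d / 2) * (Real.cosh R + Real.sinh R * Real.cos (2 * Real.pi * θ)) := by
    have h1 : (2 * Real.pi * Complex.I * θ : ℂ) = ((2 * Real.pi * θ : ℝ) : ℂ) * Complex.I := by
      push_cast; ring
    unfold circC
    rw [h1, Complex.exp_mul_I, ← Complex.ofReal_cos, ← Complex.ofReal_sin, Complex.I_mul_im,
      Complex.re_ofReal_mul, Complex.add_re, Complex.ofReal_re, Complex.re_ofReal_mul,
      Complex.add_re, Complex.ofReal_re, Complex.re_ofReal_mul, Complex.I_re]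
    ring
  rw [h]
  have hc : |Real.sinh R * Real.cos (2 * Real.pi * θ)| ≤ |Real.sinh R| := by
    rw [abs_mul]
    exact mul_le_of_le_one_right (abs_nonneg _) (Real.abs_cos_le_one _)
  have hs : |Real.sinh R| < Real.cosh R := by
    rw [abs_lt]
    constructor
    · have := Real.exp_pos R
      rw [← Real.cosh_add_sinh] at this
      linarith
    · exact Real.sinh_lt_cosh R
  have := (abs_lt.1 (lt_of_le_of_lt hc hs)).1
  have h2 : 0 < Real.cosh R + Real.sinh R * Real.cos (2 * Real.pi * θ) := by linarith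
  exact mul_pos (Real.exp_pos _) h2

/-- The circle of radius `R` around `i e^{d/2}`. -/
def circ (d R θ : ℝ) : ℍ := ⟨circC d R θ, circC_im d R θ⟩

/-- The torus: the circle around the two closest points, carried along the axis. -/
def tor (t e : Iso) (d R u θ : ℝ) : ℍ × ℍ := (e (axis u), t (e (scl u (circ d R θ))))

/-- The plane without the points `0` and `1`. -/
abbrev Z2 : Type := {v : ℂ // v ≠ 0 ∧ v ≠ 1}

/-- Three open sets that cover `Z2`. -/
def U (j : Fin 3) : Set Z2 :=
  {v | v.1.im ≠ 0 ∨ (j = 0 ∧ v.1.re < 0) ∨ (j = 1 ∧ 0 < v.1.re ∧ v.1.re < 1) ∨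
    (j = 2 ∧ 1 < v.1.re)}

/-- The three transition elements. -/
def tra {A : Type} [Group A] (a b : A) : Fin 3 → A := ![1, a, a * b]

/-- A covering of `Z2` with group `A`, given by the three charts `U j`; `χ j` is the coordinate in
the chart `U j`. The charts agree over the upper half plane and differ by the transition elements
over the lower half plane. -/
structure ABund (A : Type) [Group A] (a b : A) where
  E : Type
  top : TopologicalSpace E
  act : MulAction A E
  p : E → Z2
  cov : IsQuotientCoveringMap p A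
  χ : Fin 3 → E → A
  loc : ∀ (j : Fin 3) (e : E), p e ∈ U j → ∀ᶠ e' in 𝓝 e, χ j e' = χ j e
  equi : ∀ (j : Fin 3) (g : A) (e : E), p e ∈ U j → χ j (g • e) = g * χ j e
  up : ∀ (j k : Fin 3) (e : E), 0 < (p e).1.im → χ k e = χ j e
  low : ∀ (j k : Fin 3) (e : E), (p e).1.im < 0 → χ k e = χ j e * (tra a b j)⁻¹ * tra a b k

attribute [instance] ABund.top ABund.act

/-- The homomorphism given by the covering. -/
def ABund.Phi {A : Type} [Group A] {a b : A} (B : ABund A a b) {z : Z2} (e : B.p ⁻¹' {z}) :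
    FundamentalGroup Z2 z →* Aᵐᵒᵖ :=
  B.cov.fundamentalGroupToMulOpposite e

/-- The function that sends the graph of `t` to `0` and the graph of `s` to `1`. -/
def vfun (t s e : Iso) (p : ℍ × ℍ) : ℂ :=
  (((e⁻¹ (t⁻¹ p.2) : ℍ) : ℂ) - ((e⁻¹ p.1 : ℍ) : ℂ)) /
    (((e⁻¹ (t⁻¹ (s p.1)) : ℍ) : ℂ) - ((e⁻¹ p.1 : ℍ) : ℂ))

end

end Pool.Kod
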