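import Mathlib

/-!
Module FP (M). The free product of two cyclic groups.

Proof. Take `A = Monoid.CoprodI (fun i : Fin 2 => Multiplicative (ZMod (if i = 0 then m else n)))` (or
`Monoid.Coprod (Multiplicative (ZMod m)) (Multiplicative (ZMod n))`) and for `a`, `b` the images of the
generators `Multiplicative.ofAdd 1`; `a^m = 1`, `b^n = 1`, and `a ≠ 1`, `b ≠ 1` because `m, n ≥ 2`.
For `k ≥ 1` the element `(a b)^k` is the product of the reduced word `a, b, a, b, …, a, b` of length `2k`,
so it is not `1`: build by induction a `Monoid.CoprodI.NeWord _ 0 1` with product `(a b)^k`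
(`NeWord.singleton`, `NeWord.append`, `NeWord.append_prod`), and a `NeWord` has product `≠ 1` (the
corresponding `Word` is not empty, `NeWord.toWord`, `NeWord.prod`, and `Word.prod` is injective: `Word.equiv`;
compare `Monoid.CoprodI.lift_word_prod_nontrivial_of_not_empty` or the proof of `NeWord` facts in
`Mathlib/GroupTheory/CoprodI.lean`). For `k < 0` take inverses.
-/

namespace Pool.Kod

open Monoid.CoprodI in
theorem exists_group (m n : ℕ) (hm : 2 ≤ m) (hn : 2 ≤ n) :
    ∃ (A : Type) (_ : Group A) (a b : A), a ^ m = 1 ∧ b ^ n = 1 ∧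
      ∀ k : ℤ, k ≠ 0 → (a * b) ^ k ≠ 1 := by
  let M : Fin 2 → Type := fun i => Multiplicative (ZMod (![m, n] i))
  let x : M 0 := Multiplicative.ofAdd (1 : ZMod m)
  let y : M 1 := Multiplicative.ofAdd (1 : ZMod n)
  have hx1 : x ≠ 1 := by
    intro h
    have h' : (1 : ZMod m) = 0 := h
    have : Fact (1 < m) := ⟨by omega⟩
    exact one_ne_zero h'
  have hy1 : y ≠ 1 := by
    intro h
    have h' : (1 : ZMod n) = 0 := h
    have : Fact (1 < n) := ⟨by omega⟩
    exact one_ne_zero h'
  have hxm : x ^ m = 1 := by
    change Multiplicative.ofAdd (m • (1 : ZMod m)) = 1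
    rw [nsmul_one, ZMod.natCast_self]; rfl
  have hyn : y ^ n = 1 := by
    change Multiplicative.ofAdd (n • (1 : ZMod n)) = 1
    rw [nsmul_one, ZMod.natCast_self]; rfl
  refine ⟨Monoid.CoprodI M, inferInstance, of x, of y, ?_, ?_, ?_⟩
  · rw [← map_pow, hxm, map_one]
  · rw [← map_pow, hyn, map_one]
  · have h01 : (0 : Fin 2) ≠ 1 := by decide
    have h10 : (1 : Fin 2) ≠ 0 := by decide
    let w : NeWord M 0 1 := NeWord.append (NeWord.singleton x hx1) h01 (NeWord.singleton y hy1)
    have hw : w.prod = of x * of y := by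
      rw [NeWord.append_prod, NeWord.prod_singleton, NeWord.prod_singleton]
    have key : ∀ k : ℕ, ∃ w' : NeWord M 0 1, w'.prod = (of x * of y) ^ (k + 1) := by
      intro k
      induction k with
      | zero => exact ⟨w, by rw [hw, zero_add, pow_one]⟩
      | succ k ih =>
        obtain ⟨w', hw'⟩ := ih
        exact ⟨NeWord.append w' h10 w, by rw [NeWord.append_prod, hw', hw, ← pow_succ]⟩
    have hne : ∀ w' : NeWord M 0 1, w'.prod ≠ 1 := by
      intro w' h
      classical
      have h1 : w'.toWord.prod = (Word.empty : Word M).prod := by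
        rw [Word.prod_empty]; exact h
      have h2 : w'.toWord = Word.empty := Word.equiv.symm.injective h1
      have h3 : w'.toWord.toList = [] := by rw [h2]; rfl
      exact w'.toList_ne_nil h3
    have hpos : ∀ k : ℕ, 0 < k → (of x * of y : Monoid.CoprodI M) ^ k ≠ 1 := by
      intro k hk
      obtain ⟨w', hw'⟩ := key (k - 1)
      rw [Nat.sub_add_cancel hk] at hw'
      rw [← hw']
      exact hne w'
    intro k hk
    rcases Int.eq_nat_or_neg k with ⟨l, rfl | rfl⟩
    · rw [zpow_natCast]
      exact hpos l (by omega)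
    · rw [zpow_neg, zpow_natCast]
      intro h
      exact hpos l (by omega) (inv_eq_one.1 h)

end Pool.Kod
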