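import Pool.Agent.Work.MP_f5717c_gt.K.Defs

/-!
Module V1 (S-M). `vfun` is a continuous map from the complement to `Z2`.

Proof. The denominator is not zero: `e⁻¹ (t⁻¹ (s x)) = e⁻¹ x` would give `s x = t x`, so `t = s`
(`hT.disjoint`). `vfun = 0` would give `e⁻¹ (t⁻¹ y) = e⁻¹ x`, `y = t x`, excluded by `p.2 t ht`; `vfun = 1`
would give `e⁻¹ (t⁻¹ y) = e⁻¹ (t⁻¹ (s x))`, `y = s x`, excluded by `p.2 s hs` (`div_eq_one_iff_eq`). Continuity:
isometries and the coercion `ℍ → ℂ` are continuous (`UpperHalfPlane.continuous_coe`), `Continuous.div`.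
-/

namespace Pool.Kod

open UpperHalfPlane

private theorem v1_inv (t : Iso) (x y : ℍ) (h : (t⁻¹ : Iso) y = x) : y = t x := by
  rw [← h]
  exact (t.apply_symm_apply y).symm

theorem exists_vmap {L₁ L₂ : Subgroup Iso} {T : Set Iso} (hT : IsEtale L₁ L₂ T) {t s : Iso}
    (ht : t ∈ T) (hs : s ∈ T) (hne : t ≠ s) (e : Iso) :
    ∃ v : C(Comp T, Z2), ∀ p : Comp T, (v p).1 = vfun t s e p.1 := by
  have hcoe : ∀ x y : ℍ, (x : ℂ) = (y : ℂ) → x = y := fun x y h => UpperHalfPlane.ext h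
  have hden : ∀ x : ℍ, (((e⁻¹ : Iso) ((t⁻¹ : Iso) (s x)) : ℍ) : ℂ) - (((e⁻¹ : Iso) x : ℍ) : ℂ) ≠ 0 := by
    intro x h
    have h1 := hcoe _ _ (sub_eq_zero.1 h)
    have h2 : (t⁻¹ : Iso) (s x) = x := (e⁻¹ : Iso).injective h1
    have h3 := v1_inv t _ _ h2
    exact hne (hT.disjoint t ht s hs x h3.symm)
  have h0 : ∀ p : Comp T, vfun t s e p.1 ≠ 0 := by
    intro p h
    rw [vfun, div_eq_zero_iff] at h
    rcases h with h | h
    · have h1 := hcoe _ _ (sub_eq_zero.1 h)
      have h2 : (t⁻¹ : Iso) p.1.2 = p.1.1 := (e⁻¹ : Iso).injective h1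
      exact p.2 t ht (v1_inv t _ _ h2)
    · exact hden _ h
  have h1 : ∀ p : Comp T, vfun t s e p.1 ≠ 1 := by
    intro p h
    rw [vfun, div_eq_one_iff_eq (hden _)] at h
    have h1 := hcoe _ _ (sub_left_injective h)
    have h2 : (t⁻¹ : Iso) p.1.2 = (t⁻¹ : Iso) (s p.1.1) := (e⁻¹ : Iso).injective h1
    exact p.2 s hs ((t⁻¹ : Iso).injective h2)
  have hc : Continuous fun p : Comp T => vfun t s e p.1 := by
    have c1 : Continuous fun p : Comp T => p.1.1 := continuous_fst.comp continuous_subtype_val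
    have c2 : Continuous fun p : Comp T => p.1.2 := continuous_snd.comp continuous_subtype_val
    have ce : Continuous (e⁻¹ : Iso) := (e⁻¹ : Iso).continuous
    have ct : Continuous (t⁻¹ : Iso) := (t⁻¹ : Iso).continuous
    have cs : Continuous s := s.continuous
    refine Continuous.div ?_ ?_ fun p => hden _
    · exact (UpperHalfPlane.continuous_coe.comp (ce.comp (ct.comp c2))).sub
        (UpperHalfPlane.continuous_coe.comp (ce.comp c1))
    · exact (UpperHalfPlane.continuous_coe.comp (ce.comp (ct.comp (cs.comp c1)))).sub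
        (UpperHalfPlane.continuous_coe.comp (ce.comp c1))
  exact ⟨⟨fun p => ⟨vfun t s e p.1, h0 p, h1 p⟩, hc.subtype_mk _⟩, fun _ => rfl⟩

end Pool.Kod
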