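import Pool.Agent.Work.MP_f5717c_gt.K.Defs

/-!
Module V2 (M). The image of a small loop lies in a convex set.

Proof. Let `x = p.1.1`, `x̂ = e⁻¹ x`, `w = e⁻¹ (t⁻¹ (s x))`, `y₀ = e⁻¹ (t⁻¹ (t' x))`, `ε` from `SmallLoop`. Let
`Bl = closedBall y₀ ε` in `ℍ`, `K = (fun ŷ : ℂ => (ŷ - x̂) / (w - x̂)) '' (coe '' Bl)`. `coe '' Bl` is a euclidean
closed ball (`UpperHalfPlane.image_coe_closedBall`), so it is convex, and `K` is its image under an affine
map (`Convex.is_linear_image`, or `Convex.translate`/`Convex.smul`; or check the definition by hand).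
`κ θ = (x, y)` with `dist y (t' x) ≤ ε`, so `e⁻¹ (t⁻¹ y) ∈ Bl` and `vfun t s e (κ θ).1 ∈ K`.
`w ≠ x̂` (else `s x = t x` and `t = s` by `hT.disjoint`), so `0 ∈ K` iff `x̂ ∈ Bl` iff `dist (t x) (t' x) ≤ ε`
(apply the isometry `t e`), and `1 ∈ K` iff `w ∈ Bl` iff `dist (s x) (t' x) ≤ ε`. `0 ≤ ε` since `κ 0` is in
the ball. If `t' = t` then the first holds and the second fails (`ε < dist (s x) (t x)`, as `s ≠ t`); if
`t' = s` the first fails and the second holds; otherwise both fail (`ε < dist (t x) (t' x)` etc.).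
-/

namespace Pool.Kod

open UpperHalfPlane unitInterval

private theorem dist_inv2 (e t : Iso) (y z : ℍ) :
    dist ((e⁻¹ : Iso) ((t⁻¹ : Iso) y)) ((e⁻¹ : Iso) ((t⁻¹ : Iso) z)) = dist y z := by
  rw [(e⁻¹ : Iso).dist_eq, (t⁻¹ : Iso).dist_eq]

private theorem inv_apply_self' (t : Iso) (x : ℍ) : (t⁻¹ : Iso) (t x) = x :=
  t.symm_apply_apply x

private theorem apply_inv_self' (t : Iso) (x : ℍ) : t ((t⁻¹ : Iso) x) = x :=
  t.apply_symm_apply x

theorem small_convex {L₁ L₂ : Subgroup Iso} {T : Set Iso} (hT : IsEtale L₁ L₂ T) {t s : Iso}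
    (ht : t ∈ T) (hs : s ∈ T) (hne : t ≠ s) (e : Iso) {t' : Iso} (ht' : t' ∈ T) {p : Comp T}
    (κ : Path p p) (hκ : SmallLoop T t' κ) :
    ∃ K : Set ℂ, Convex ℝ K ∧ (∀ θ : I, vfun t s e (κ θ).1 ∈ K) ∧
      (t' = t → (0 : ℂ) ∈ K ∧ (1 : ℂ) ∉ K) ∧ (t' = s → (0 : ℂ) ∉ K ∧ (1 : ℂ) ∈ K) ∧
      (t' ≠ t → t' ≠ s → (0 : ℂ) ∉ K ∧ (1 : ℂ) ∉ K) := by
  obtain ⟨ε, hε, hκ2⟩ := hκ
  set x : ℍ := p.1.1 with hx
  have hε0 : 0 ≤ ε := dist_nonneg.trans (hκ2 0).2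
  obtain ⟨xh, hxh⟩ : ∃ xh : ℍ, xh = (e⁻¹ : Iso) x := ⟨_, rfl⟩
  obtain ⟨w, hw⟩ : ∃ w : ℍ, w = (e⁻¹ : Iso) ((t⁻¹ : Iso) (s x)) := ⟨_, rfl⟩
  obtain ⟨y0, hy0⟩ : ∃ y0 : ℍ, y0 = (e⁻¹ : Iso) ((t⁻¹ : Iso) (t' x)) := ⟨_, rfl⟩
  have hwx : (w : ℂ) - (xh : ℂ) ≠ 0 := by
    intro h0
    have h1 : w = xh := UpperHalfPlane.coe_injective (sub_eq_zero.mp h0)
    rw [hw, hxh] at h1
    have h2 := (e⁻¹ : Iso).injective h1
    have h3 := congrArg t h2
    rw [apply_inv_self'] at h3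
    exact hne (hT.disjoint t ht s hs x h3.symm)
  obtain ⟨f, hf⟩ : ∃ f : ℂ → ℂ, f = fun z => (z - (xh : ℂ)) / ((w : ℂ) - (xh : ℂ)) := ⟨_, rfl⟩
  set S : Set ℂ := ((↑) : ℍ → ℂ) '' Metric.closedBall y0 ε with hS
  have hSc : Convex ℝ S := by
    rw [hS, UpperHalfPlane.image_coe_closedBall]
    exact convex_closedBall _ _
  have hzero : (0 : ℂ) ∈ f '' S ↔ dist (t x) (t' x) ≤ ε := by
    have h1 : dist (t x) (t' x) = dist xh y0 := by
      rw [hxh, hy0, (e⁻¹ : Iso).dist_eq, ← t.dist_eq x ((t⁻¹ : Iso) (t' x)), apply_inv_self']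
    rw [h1]
    constructor
    · rintro ⟨z, ⟨z', hz', rfl⟩, hz⟩
      rw [hf] at hz
      have h2 : (z' : ℂ) - (xh : ℂ) = 0 := by
        rcases div_eq_zero_iff.mp hz with h | h
        · exact h
        · exact absurd h hwx
      have h3 : z' = xh := UpperHalfPlane.coe_injective (sub_eq_zero.mp h2)
      rw [← h3]
      exact hz'
    · intro h
      refine ⟨(xh : ℂ), ⟨xh, h, rfl⟩, ?_⟩
      rw [hf]
      simp only [sub_self, zero_div]
  have hone : (1 : ℂ) ∈ f '' S ↔ dist (s x) (t' x) ≤ ε := by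
    have h1 : dist (s x) (t' x) = dist w y0 := by
      rw [hw, hy0, dist_inv2]
    rw [h1]
    constructor
    · rintro ⟨z, ⟨z', hz', rfl⟩, hz⟩
      rw [hf] at hz
      have h2 : (z' : ℂ) - (xh : ℂ) = (w : ℂ) - (xh : ℂ) := by
        have h4 := (div_eq_one_iff_eq hwx).mp hz
        exact h4
      have h3 : z' = w := UpperHalfPlane.coe_injective (sub_left_injective h2)
      rw [← h3]
      exact hz'
    · intro h
      refine ⟨(w : ℂ), ⟨w, h, rfl⟩, ?_⟩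
      rw [hf]
      exact div_self hwx
  refine ⟨f '' S, ?_, ?_, ?_, ?_, ?_⟩
  · rintro _ ⟨z1, hz1, rfl⟩ _ ⟨z2, hz2, rfl⟩ a b ha hb hab
    refine ⟨a • z1 + b • z2, hSc hz1 hz2 ha hb hab, ?_⟩
    rw [hf]
    simp only [Complex.real_smul]
    have h1 : ((a : ℂ)) + (b : ℂ) = 1 := by
      rw [← Complex.ofReal_add, hab, Complex.ofReal_one]
    rw [← mul_div_assoc, ← mul_div_assoc, ← add_div]
    congr 1
    linear_combination (xh : ℂ) * h1
  · intro θ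
    obtain ⟨h1, h2⟩ := hκ2 θ
    refine ⟨(((e⁻¹ : Iso) ((t⁻¹ : Iso) (κ θ).1.2) : ℍ) : ℂ), ⟨_, ?_, rfl⟩, ?_⟩
    · rw [Metric.mem_closedBall, hy0, dist_inv2]
      exact h2
    · rw [hf]
      unfold vfun
      rw [h1, hxh, hw]
  · intro h
    subst h
    constructor
    · rw [hzero, dist_self]
      exact hε0
    · rw [hone, not_le]
      exact hε s hs hne.symm
  · intro h
    subst h
    constructor
    · rw [hzero, not_le]
      exact hε t ht hne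
    · rw [hone, dist_self]
      exact hε0
  · intro h1 h2
    constructor
    · rw [hzero, not_le]
      exact hε t ht (Ne.symm h1)
    · rw [hone, not_le]
      exact hε s hs (Ne.symm h2)

end Pool.Kod
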