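import Pool.Agent.Work.MP_f5717c_gt.K.Ax

/-!
Module V3 (S-M). The image of the circle of the torus.

Proof. `tor t e d R 0 θ = (e (axis 0), t (e (scl 0 z)))` with `z = circ d R θ`, `scl 0 z = z` (`scl_zero`). So
`e⁻¹ (t⁻¹ (t (e z))) = z`, `e⁻¹ (e (axis 0)) = axis 0` (coercion `i`), and
`e⁻¹ (t⁻¹ (s (e (axis 0)))) = axis d` by `h.hax 0` (coercion `i e^d`). So
`vfun = (circC d R θ - i) / (i e^d - i) = (e^(d/2) (cosh R + sinh R exp (2 π i θ)) - 1) / (e^d - 1)`.
`c0 + ρ0 = (e^(d/2) e^R - 1) / (e^d - 1) > 1` as `R > d/2` (`Real.cosh_add_sinh`);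
`c0 - ρ0 = (e^(d/2) e^(-R) - 1) / (e^d - 1) < 0` (`Real.cosh_sub_sinh`); `ρ0 > 0` as `R > 0`.
-/

namespace Pool.Kod

open UpperHalfPlane

theorem vfun_circle {L₁ L₂ : Subgroup Iso} {T : Set Iso} {t s e γ δ : Iso} {d L : ℝ}
    (h : IsTube L₁ L₂ T t s e γ δ d L) {R : ℝ} (hR : d / 2 < R) :
    ∃ c0 ρ0 : ℝ, 1 < c0 + ρ0 ∧ c0 - ρ0 < 0 ∧ 0 < ρ0 ∧ ∀ θ : ℝ,
      vfun t s e (tor t e d R 0 θ) =
        c0 + ρ0 * Complex.exp (2 * Real.pi * Complex.I * (θ : ℝ)) := by
  have hd := h.hd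
  have hEd : 1 < Real.exp d := Real.one_lt_exp_iff.2 hd
  have hE := Real.exp_pos (d / 2)
  have hED : Real.exp d = Real.exp (d / 2) * Real.exp (d / 2) := by
    rw [← Real.exp_add]; congr 1; ring
  have hER : Real.exp (d / 2) < Real.exp R := Real.exp_lt_exp.2 hR
  have hden : 0 < Real.exp d - 1 := by linarith
  refine ⟨(Real.exp (d / 2) * Real.cosh R - 1) / (Real.exp d - 1),
    Real.exp (d / 2) * Real.sinh R / (Real.exp d - 1), ?_, ?_, ?_, ?_⟩
  · rw [← add_div, lt_div_iff₀ hden]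
    have h1 : Real.exp (d / 2) * Real.cosh R - 1 + Real.exp (d / 2) * Real.sinh R =
        Real.exp (d / 2) * Real.exp R - 1 := by
      rw [← Real.cosh_add_sinh R]; ring
    rw [h1, hED]
    nlinarith
  · rw [← sub_div]
    apply div_neg_of_neg_of_pos _ hden
    have h1 : Real.exp (d / 2) * Real.cosh R - 1 - Real.exp (d / 2) * Real.sinh R =
        Real.exp (d / 2) * Real.exp (-R) - 1 := by
      rw [← Real.cosh_sub_sinh R]; ring
    rw [h1, ← Real.exp_add]
    have : Real.exp (d / 2 + -R) < 1 := Real.exp_lt_one_iff.2 (by linarith)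
    linarith
  · apply div_pos _ hden
    exact mul_pos hE (Real.sinh_pos_iff.2 (by linarith))
  · intro θ
    have e1 : e⁻¹ (t⁻¹ (tor t e d R 0 θ).2) = circ d R θ := by
      change e.symm (t.symm (t (e (scl 0 (circ d R θ))))) = circ d R θ
      rw [t.symm_apply_apply, e.symm_apply_apply, scl_zero]
    have e2 : e⁻¹ (tor t e d R 0 θ).1 = axis 0 := e.symm_apply_apply _
    have e3 : e⁻¹ (t⁻¹ (s (tor t e d R 0 θ).1)) = axis d := by
      change e.symm (t.symm (s (e (axis 0)))) = axis d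
      rw [h.hax, t.symm_apply_apply, e.symm_apply_apply, zero_add]
    have c1 : ((axis 0 : ℍ) : ℂ) = Complex.I := by
      apply Complex.ext
      · change (0 : ℝ) = Complex.I.re
        rw [Complex.I_re]
      · change Real.exp 0 = Complex.I.im
        rw [Complex.I_im, Real.exp_zero]
    have c2 : ((axis d : ℍ) : ℂ) = Complex.I * ((Real.exp d : ℝ) : ℂ) := by
      apply Complex.ext
      · change (0 : ℝ) = _
        rw [Complex.I_mul_re, Complex.ofReal_im, neg_zero]
      · change Real.exp d = _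
        rw [Complex.I_mul_im, Complex.ofReal_re]
    have c3 : ((circ d R θ : ℍ) : ℂ) = Complex.I * (((Real.exp (d / 2) : ℝ) : ℂ) *
        (((Real.cosh R : ℝ) : ℂ) + ((Real.sinh R : ℝ) : ℂ) *
          Complex.exp (2 * Real.pi * Complex.I * θ))) := by
      change circC d R θ = _
      unfold circC
      push_cast
      rfl
    unfold vfun
    rw [e1, e2, e3, c1, c2, c3]
    have hdc : (((Real.exp d : ℝ) : ℂ) - 1) ≠ 0 := by
      have : (((Real.exp d : ℝ) : ℂ) - 1) = ((Real.exp d - 1 : ℝ) : ℂ) := by push_cast; ring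
      rw [this]
      exact Complex.ofReal_ne_zero.2 hden.ne'
    have hdI : Complex.I * ((Real.exp d : ℝ) : ℂ) - Complex.I ≠ 0 := by
      have : Complex.I * ((Real.exp d : ℝ) : ℂ) - Complex.I =
          Complex.I * (((Real.exp d : ℝ) : ℂ) - 1) := by ring
      rw [this]
      exact mul_ne_zero Complex.I_ne_zero hdc
    rw [div_eq_iff hdI]
    have a1 : (((Real.exp (d / 2) * Real.cosh R - 1) / (Real.exp d - 1) : ℝ) : ℂ) =
        (((Real.exp (d / 2) : ℝ) : ℂ) * ((Real.cosh R : ℝ) : ℂ) - 1) /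
          (((Real.exp d : ℝ) : ℂ) - 1) := by
      rw [Complex.ofReal_div, Complex.ofReal_sub, Complex.ofReal_mul, Complex.ofReal_sub,
        Complex.ofReal_one]
    have a2 : ((Real.exp (d / 2) * Real.sinh R / (Real.exp d - 1) : ℝ) : ℂ) =
        (((Real.exp (d / 2) : ℝ) : ℂ) * ((Real.sinh R : ℝ) : ℂ)) /
          (((Real.exp d : ℝ) : ℂ) - 1) := by
      rw [Complex.ofReal_div, Complex.ofReal_mul, Complex.ofReal_sub, Complex.ofReal_one]
    rw [a1, a2]
    field_simp
    ring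

end Pool.Kod
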