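import Pool.Agent.Work.MP_f5717c_gt.K.AB0
import Pool.Agent.Work.MP_f5717c_gt.K.AB4
import Pool.Agent.Work.MP_f5717c_gt.K.AB5
import Pool.Agent.Work.MP_f5717c_gt.K.AB6
import Pool.Agent.Work.MP_f5717c_gt.K.AB7
import Pool.Agent.Work.MP_f5717c_gt.K.FP
import Pool.Agent.Work.MP_f5717c_gt.K.V1
import Pool.Agent.Work.MP_f5717c_gt.K.V2
import Pool.Agent.Work.MP_f5717c_gt.K.V3

/-!
Module Det (M). A homomorphism that kills the relators and not the loop around the two points.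

Proof. `exists_group (r t) (r s)` gives `A, a, b`; `exists_abund` gives `B`; `exists_vmap` gives `v`.
Let `e₀ : B.p ⁻¹' {v p₀}` (`B.cov` is surjective) and
`Φ = (B.Phi e₀).comp (FundamentalGroup.map v p₀) : FundamentalGroup (Comp T) p₀ →* Aᵐᵒᵖ`.
Relators: let `z = [(ω κ) ω⁻¹]^(r t')` with `κ` a `SmallLoop` for `t' ∈ T` at `q`. The image of the loop under
`v` is `((ω.map v) (κ.map v)) (ω.map v)⁻¹`, so by `Phi_conj` `Φ [(ω κ) ω⁻¹] = B.Phi e' [κ.map v]` for some `e'`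
over `v q`. `κ.map v` takes values in the convex set `K` of `small_convex`. If `t' = t`: `conv0` with
`m = r t`, `a^(r t) = 1`; if `t' = s`: `conv1` with `m = r s`; otherwise `convNone` (and `1^m = 1`).
So `Φ z = 1`.
The loop `c`: `(v (c θ)).1 = vfun t s e (tor t e d R 0 θ) = c0 + ρ0 exp (2 π i θ)` (`vfun_circle`), so by
`circle_mono` `(Φ [c]).unop = x (a b) x⁻¹`, hence `(Φ [c])^k = op (x (a b)^k x⁻¹) ≠ 1` for `k ≠ 0`
(`MulOpposite.unop_zpow`, `conj_zpow`).
-/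

namespace Pool.Kod

open UpperHalfPlane unitInterval

theorem det {L₁ L₂ : Subgroup Iso} {T : Set Iso} (hT : IsEtale L₁ L₂ T) {t s e γ δ : Iso}
    {d L : ℝ} (h : IsTube L₁ L₂ T t s e γ δ d L) {R : ℝ} (hR : d / 2 < R) {r : Iso → ℕ}
    (hr : ∀ t ∈ T, 2 ≤ r t) {p₀ : Comp T} (c : Path p₀ p₀)
    (hc : ∀ θ : I, (c θ).1 = tor t e d R 0 θ) :
    ∃ (A : Type) (_ : Group A) (Φ : FundamentalGroup (Comp T) p₀ →* A),
      (∀ z ∈ relators T r p₀, Φ z = 1) ∧
      ∀ k : ℤ, k ≠ 0 →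
        (Φ (FundamentalGroup.fromPath (Path.Homotopic.Quotient.mk c))) ^ k ≠ 1 := by
  obtain ⟨A, instA, a, b, ha, hb, hab⟩ := exists_group (r t) (r s) (hr t h.ht) (hr s h.hs)
  obtain ⟨B⟩ := exists_abund A a b
  obtain ⟨v, hv⟩ := exists_vmap hT h.ht h.hs h.hne e
  obtain ⟨e₀', he₀'⟩ := B.cov.surjective (v p₀)
  let e₀ : B.p ⁻¹' {v p₀} := ⟨e₀', he₀'⟩
  refine ⟨Aᵐᵒᵖ, inferInstance, (B.Phi e₀).comp (FundamentalGroup.map v p₀), ?_, ?_⟩
  · rintro z ⟨t', ht', q, ω, κ, hκ, rfl⟩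
    rw [map_pow]
    obtain ⟨e', he'⟩ := Phi_conj B e₀ (ω.map v.continuous)
    have h1 : ((B.Phi e₀).comp (FundamentalGroup.map v p₀)) (FundamentalGroup.fromPath
        (Path.Homotopic.Quotient.mk ((ω.trans κ).trans ω.symm))) =
        B.Phi e' (FundamentalGroup.fromPath
          (Path.Homotopic.Quotient.mk (κ.map v.continuous))) := by
      rw [← he']
      change B.Phi e₀ (FundamentalGroup.fromPath (Path.Homotopic.Quotient.mk
        (((ω.trans κ).trans ω.symm).map v.continuous))) = _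
      rw [Path.map_trans, Path.map_trans, Path.map_symm]
    rw [h1]
    obtain ⟨K, hK, hKm, hK1, hK2, hK3⟩ := small_convex hT h.ht h.hs h.hne e ht' κ hκ
    have hKm' : ∀ θ : I, ((κ.map v.continuous) θ).1 ∈ K := by
      intro θ
      rw [Path.map_coe, Function.comp_apply, hv]
      exact hKm θ
    by_cases e1 : t' = t
    · obtain ⟨k0, k1⟩ := hK1 e1
      rw [e1]
      exact conv0 B (r t) ha e' _ K hK k0 k1 hKm'
    · by_cases e2 : t' = s
      · obtain ⟨k0, k1⟩ := hK2 e2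
        rw [e2]
        exact conv1 B (r s) hb e' _ K hK k0 k1 hKm'
      · obtain ⟨k0, k1⟩ := hK3 e1 e2
        rw [convNone B e' _ K hK k0 k1 hKm', one_pow]
  · intro k hk
    obtain ⟨c0, ρ0, g1, g2, g3, g4⟩ := vfun_circle h hR
    obtain ⟨x, hx⟩ := circle_mono B c0 ρ0 g1 g2 g3 e₀ (c.map v.continuous) (by
      intro θ
      rw [Path.map_coe, Function.comp_apply, hv, hc]
      exact g4 θ)
    change (B.Phi e₀ (FundamentalGroup.fromPath (Path.Homotopic.Quotient.mk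
      (c.map v.continuous)))) ^ k ≠ 1
    intro h5
    have h6 := congrArg MulOpposite.unop h5
    rw [MulOpposite.unop_zpow, hx, MulOpposite.unop_one, conj_zpow] at h6
    apply hab k hk
    have h7 : (a * b) ^ k = x⁻¹ * (x * (a * b) ^ k * x⁻¹) * x := by group
    rw [h7, h6, mul_one, inv_mul_cancel]

end Pool.Kod
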