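import Pool.Agent.Work.MP_f5717c_gt.K.Nor1

/-!
Module Nor (S-M). An element of `π₁(Comp T)` that dies in the orbifold group lies in the subgroup
generated by the relators.

Proof. Let `P = FundamentalGroup.map (pr ..) p`. By `conj_relator` the set `P '' relators` is closed
under conjugation by all of `π₁(Base)`, so `Subgroup.normalClosure (P '' relators) =
Subgroup.closure (P '' relators)` (`Subgroup.normalClosure = closure (conjugatesOfSet ..)`, and
`conjugatesOfSet (P '' relators) ⊆ P '' relators`) `= (Subgroup.closure relators).map P`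
(`MonoidHom.map_closure`). So `P x = P y` with `y` in the closure, and `P` is injective:
`IsCoveringMap.injective_path_homotopic_map` for the covering `(quotCov h₁ h₂ hT).isCoveringMap`
(`FundamentalGroup.map_apply`). So `x = y`.
-/

namespace Pool.Kod

open UpperHalfPlane

theorem mem_closure_of_map {L₁ L₂ : Subgroup Iso} {T : Set Iso} (h₁ : IsSurfaceGroup L₁)
    (h₂ : IsSurfaceGroup L₂) (hT : IsEtale L₁ L₂ T) {r : Iso → ℕ}
    (hinv : ∀ t ∈ T, ∀ g ∈ L₁, ∀ h ∈ L₂, r (h * t * g) = r t) (p : Comp T)
    (x : FundamentalGroup (Comp T) p)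
    (hx : FundamentalGroup.map (pr L₁ L₂ T) p x ∈
      Subgroup.normalClosure ((FundamentalGroup.map (pr L₁ L₂ T) p) '' relators T r p)) :
    x ∈ Subgroup.closure (relators T r p) := by
  set P := FundamentalGroup.map (pr L₁ L₂ T) p with hP
  have hnc : Subgroup.normalClosure (P '' relators T r p) ≤
      (Subgroup.closure (relators T r p)).map P := by
    rw [Subgroup.normalClosure, MonoidHom.map_closure]
    apply Subgroup.closure_mono
    intro y hy
    obtain ⟨y0, hy0, hyc⟩ := Group.mem_conjugatesOfSet_iff.1 hy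
    obtain ⟨z, hz, rfl⟩ := hy0
    obtain ⟨w, hw⟩ := isConj_iff.1 hyc
    obtain ⟨z', hz', he⟩ := conj_relator h₁ h₂ hT hinv p w z hz
    refine ⟨z', hz', ?_⟩
    rw [← hw]
    exact he.symm
  obtain ⟨y, hy, hyx⟩ := hnc hx
  let := actC hT
  have hinj := (quotCov h₁ h₂ hT).isCoveringMap.injective_path_homotopic_map p p
  have : y = x := hinj hyx
  rw [← this]
  exact hy

end Pool.Kod
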