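import Pool.Agent.Work.MP_f5717c_gt.K.Cv

/-!
Module Psi (M). The homomorphism from the fundamental group of the base to the deck group.

Proof. Let `letI := actC hT`, `hp := quotCov h₁ h₂ hT`, `e₀ = ⟨p, rfl⟩ : (pr ..) ⁻¹' {pr .. p}` and
`Ψ = hp.fundamentalGroupToMulOpposite e₀ : FundamentalGroup (Base ..) (pr .. p) →* (L₁ × L₂)ᵐᵒᵖ`.
`Ψ (map (pr ..) p x) = 1`: the monodromy of the image of a loop class at `p` fixes `p`
(`IsCoveringMap.monodromy_map`, `fundamentalGroupToMulOpposite_eq_one_iff`).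
Second part: the class `w` of `(ω.map pr).cast rfl hpq.symm` satisfies
`monodromy w e₀ = ⟨q, _⟩` (`IsCoveringMap.monodromy_eq_of_map_eq` with the class of `ω`), and
`q = (γ, δ) • p`, so `Ψ w = op (γ, δ)` (`fundamentalGroupToMulOpposite_apply_eq_Iff`). If `(Ψ w)^k = 1` then
`γ^k = 1` in `Iso`.
-/

namespace Pool.Kod

open UpperHalfPlane unitInterval

theorem psi {L₁ L₂ : Subgroup Iso} {T : Set Iso} (h₁ : IsSurfaceGroup L₁)
    (h₂ : IsSurfaceGroup L₂) (hT : IsEtale L₁ L₂ T) (p : Comp T) :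
    ∃ (P : Type) (_ : Group P) (Ψ : FundamentalGroup (Base L₁ L₂ T) (pr L₁ L₂ T p) →* P),
      (∀ x, Ψ (FundamentalGroup.map (pr L₁ L₂ T) p x) = 1) ∧
      ∀ (q : Comp T) (ω : Path p q) (γ δ : Iso), γ ∈ L₁ → δ ∈ L₂ → q.1.1 = γ p.1.1 →
        q.1.2 = δ p.1.2 → ∀ hpq : pr L₁ L₂ T q = pr L₁ L₂ T p,
        (∀ k : ℤ, k ≠ 0 → γ ^ k ≠ 1) → ∀ k : ℤ, k ≠ 0 →
          (Ψ (FundamentalGroup.fromPath (Path.Homotopic.Quotient.mk
            ((ω.map (pr L₁ L₂ T).continuous).cast rfl hpq.symm)))) ^ k ≠ 1 := by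
  letI := actC hT
  have hp := quotCov h₁ h₂ hT
  let e₀ : (pr L₁ L₂ T) ⁻¹' {pr L₁ L₂ T p} := ⟨p, rfl⟩
  refine ⟨(L₁ × L₂)ᵐᵒᵖ, inferInstance, hp.fundamentalGroupToMulOpposite e₀, ?_, ?_⟩
  · intro x
    exact (hp.fundamentalGroupToMulOpposite_eq_one_iff).2 (hp.isCoveringMap.monodromy_map x)
  · intro q ω γ δ hγ hδ hq1 hq2 hpq hpow k hk
    let W : FundamentalGroup (Base L₁ L₂ T) (pr L₁ L₂ T p) :=
      FundamentalGroup.fromPath (Path.Homotopic.Quotient.mk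
            ((ω.map (pr L₁ L₂ T).continuous).cast rfl hpq.symm))
    let e₁ : (pr L₁ L₂ T) ⁻¹' {pr L₁ L₂ T p} := ⟨q, hpq⟩
    have hm : hp.isCoveringMap.monodromy W e₀ = e₁ :=
      hp.isCoveringMap.monodromy_eq_of_map_eq (ex := e₀) (ey := e₁)
        (Path.Homotopic.Quotient.mk ω) rfl
    have hW : hp.fundamentalGroupToMulOpposite e₀ W
        = MulOpposite.op ((⟨γ, hγ⟩ : L₁), (⟨δ, hδ⟩ : L₂)) := by
      rw [hp.fundamentalGroupToMulOpposite_apply_eq_Iff, hm]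
      apply Subtype.ext
      exact Prod.ext hq1.symm hq2.symm
    change (hp.fundamentalGroupToMulOpposite e₀ W) ^ k ≠ 1
    rw [hW]
    intro h
    have h1 := congrArg MulOpposite.unop h
    rw [MulOpposite.unop_zpow, MulOpposite.unop_op, MulOpposite.unop_one] at h1
    have h2 := congrArg Prod.fst h1
    have h3 := congrArg Subtype.val h2
    apply hpow k hk
    simpa using h3

end Pool.Kod
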