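import Pool.Agent.Work.MP_f5717c_gt.K.TC
import Pool.Agent.Work.MP_f5717c_gt.K.Nor
import Pool.Agent.Work.MP_f5717c_gt.K.Det
import Pool.Agent.Work.MP_f5717c_gt.K.Psi
import Pool.Agent.Work.MP_f5717c_gt.K.Alg

/-!
Module Fin0 (M). The theorem at the base point of the torus.

Proof. Let `P = FundamentalGroup.map (pr ..) p₀`, `N = Subgroup.normalClosure (P '' relators T r p₀)`,
`Γ = OrbGroup = π₁(Base) ⧸ N`, `hpq : pr q₀ = pr p₀` (`Quotient.sound`, from `hq1`, `hq2`, `h.hγ`, `h.hδ`; mind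
the symmetric direction). `g₀` = class of `(g.map pr).cast rfl hpq.symm`, `c₀ = P [c]` = class of `c.map pr`;
`torus_comm` gives `g₀ * c₀ = c₀ * g₀` (`FundamentalGroup.mul_def`, `Path.Homotopic.Quotient.mk_trans`).
`G = [g₀]`, `C = [c₀]` in `Γ` commute.
`psi` gives `Ψ` with `Ψ ∘ P = 1`, so `Ψ` kills `N` (`Subgroup.normalClosure_le_normal` into `Ψ.ker`) and
factors as `ψ = QuotientGroup.lift N Ψ _ : Γ →* P'`. `ψ C = 1`. `ψ G = Ψ g₀` has infinite order by `psi`: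
`γ^k ≠ 1` for `k ≠ 0`: `γ^k (e z) = e (scl (k L) z)` (induction from `h.hγe`, or on `axis`:
`γ^k (e (axis u)) = e (axis (u + k L))`), which is not `e z` since `k L ≠ 0`.
`C^k ≠ 1` for `k ≠ 0`: `C^k = 1` means `P ([c]^k) ∈ N`, so `[c]^k ∈ Subgroup.closure (relators ..)`
(`mem_closure_of_map`), and `Φ` of `det` kills the relators, hence this closure
(`Subgroup.closure_le` into `Φ.ker`), so `Φ [c]^k = 1`, a contradiction.
Conclude by `embed`.
-/

namespace Pool.Kod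

open UpperHalfPlane unitInterval

private theorem pow_axis {e γ : Iso} {L : ℝ} (hγe : ∀ z : ℍ, γ (e z) = e (scl L z)) (k : ℕ) :
    ∀ z : ℍ, (γ ^ k) (e z) = e (scl (k * L) z) := by
  induction k with
  | zero =>
    intro z
    have : scl ((0 : ℕ) * L) z = z := by
      apply UpperHalfPlane.ext
      simp [scl]
    rw [pow_zero, this]; rfl
  | succ k ih =>
    intro z
    have h1 : (γ ^ (k + 1)) (e z) = (γ ^ k) (γ (e z)) := by rw [pow_succ]; rfl
    rw [h1, hγe, ih]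
    congr 1
    apply UpperHalfPlane.ext
    simp only [scl]
    push_cast
    rw [add_mul, one_mul, Complex.exp_add, mul_assoc]

private theorem pow_ne {e γ : Iso} {L : ℝ} (hL : L ≠ 0) (hγe : ∀ z : ℍ, γ (e z) = e (scl L z)) :
    ∀ k : ℤ, k ≠ 0 → γ ^ k ≠ 1 := by
  have hpos : ∀ k : ℕ, 0 < k → γ ^ k ≠ 1 := by
    intro k hk h
    have h1 := pow_axis hγe k UpperHalfPlane.I
    rw [h] at h1
    have h2 : (UpperHalfPlane.I : ℍ) = scl (k * L) UpperHalfPlane.I := e.injective h1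
    have h3 := congrArg UpperHalfPlane.im h2
    have h4 : (scl (k * L) UpperHalfPlane.I : ℍ).im = Real.exp (k * L) := by
      change (((Real.exp (k * L) : ℝ) : ℂ) * (UpperHalfPlane.I : ℂ)).im = _
      rw [Complex.im_ofReal_mul]
      simp
    rw [h4] at h3
    have h5 : (UpperHalfPlane.I : ℍ).im = 1 := by simp
    rw [h5] at h3
    have h6 : (k : ℝ) * L = 0 := by
      have := h3.symm
      rwa [Real.exp_eq_one_iff] at this
    rcases mul_eq_zero.1 h6 with h7 | h7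
    · exact hk.ne' (by exact_mod_cast h7)
    · exact hL h7
  intro k hk
  rcases Int.eq_nat_or_neg k with ⟨l, rfl | rfl⟩
  · rw [zpow_natCast]
    exact hpos l (by omega)
  · rw [zpow_neg, zpow_natCast]
    intro h
    exact hpos l (by omega) (inv_eq_one.1 h)

theorem fin0 {L₁ L₂ : Subgroup Iso} {T : Set Iso} (h₁ : IsSurfaceGroup L₁)
    (h₂ : IsSurfaceGroup L₂) (hT : IsEtale L₁ L₂ T) {r : Iso → ℕ} (hr : ∀ t ∈ T, 2 ≤ r t)
    (hinv : ∀ t ∈ T, ∀ g ∈ L₁, ∀ h ∈ L₂, r (h * t * g) = r t) {t s e γ δ : Iso} {d L : ℝ}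
    (h : IsTube L₁ L₂ T t s e γ δ d L) {R : ℝ} (hR : d / 2 < R)
    (hR2 : ∀ z : ℍ, dist z (axis (d / 2)) ≤ R → dist z (axis 0) < d ∨ dist z (axis d) < d)
    {p₀ q₀ : Comp T} (c : Path p₀ p₀) (g : Path p₀ q₀)
    (hc : ∀ θ : I, (c θ).1 = tor t e d R 0 θ)
    (hg : ∀ τ : I, (g τ).1 = tor t e d R (L * τ) 0) (hq1 : q₀.1.1 = γ p₀.1.1)
    (hq2 : q₀.1.2 = δ p₀.1.2) (H : Subgroup (OrbGroup L₁ L₂ T r p₀)) [H.FiniteIndex] :
    ∃ φ : Multiplicative (ℤ × ℤ) →* H, Function.Injective φ := by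
  have hpq : pr L₁ L₂ T q₀ = pr L₁ L₂ T p₀ :=
    (Quotient.sound (show (rel L₁ L₂ T).r p₀ q₀ from ⟨γ, h.hγ, δ, h.hδ, hq1, hq2⟩)).symm
  let P := FundamentalGroup.map (pr L₁ L₂ T) p₀
  let c' : FundamentalGroup (Comp T) p₀ :=
    FundamentalGroup.fromPath (Path.Homotopic.Quotient.mk c)
  let g₀ : FundamentalGroup (Base L₁ L₂ T) (pr L₁ L₂ T p₀) :=
    FundamentalGroup.fromPath (Path.Homotopic.Quotient.mk
      ((g.map (pr L₁ L₂ T).continuous).cast rfl hpq.symm))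
  have hcomm := torus_comm h hR hR2 c hc g hg hpq
  have hgc : g₀ * P c' = P c' * g₀ := Path.Homotopic.Quotient.eq.2 hcomm.symm
  let N : Subgroup (FundamentalGroup (Base L₁ L₂ T) (pr L₁ L₂ T p₀)) :=
    Subgroup.normalClosure ((FundamentalGroup.map (pr L₁ L₂ T) p₀) '' relators T r p₀)
  let G : OrbGroup L₁ L₂ T r p₀ := QuotientGroup.mk' N g₀
  let C : OrbGroup L₁ L₂ T r p₀ := QuotientGroup.mk' N (P c')
  have hGC : G * C = C * G := by
    change QuotientGroup.mk' N g₀ * QuotientGroup.mk' N (P c')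
      = QuotientGroup.mk' N (P c') * QuotientGroup.mk' N g₀
    rw [← map_mul, ← map_mul, hgc]
  obtain ⟨P', instP, Ψ, hΨ1, hΨ2⟩ := psi h₁ h₂ hT p₀
  have hN : N ≤ Ψ.ker := by
    apply Subgroup.normalClosure_le_normal
    rintro _ ⟨x, -, rfl⟩
    exact hΨ1 x
  let ψ : OrbGroup L₁ L₂ T r p₀ →* P' := QuotientGroup.lift N Ψ hN
  have hψC : ψ C = 1 := hΨ1 c'
  have hψG : ∀ k : ℤ, k ≠ 0 → (ψ G) ^ k ≠ 1 := by
    intro k hk
    exact hΨ2 q₀ g γ δ h.hγ h.hδ hq1 hq2 hpq (pow_ne h.hL h.hγe) k hk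
  have hC : ∀ k : ℤ, k ≠ 0 → C ^ k ≠ 1 := by
    intro k hk hCk
    have h1 : QuotientGroup.mk' N (P (c' ^ k)) = 1 := by
      rw [map_zpow, map_zpow]; exact hCk
    have h2 : P (c' ^ k) ∈ N := (QuotientGroup.eq_one_iff _).1 h1
    have h3 := mem_closure_of_map h₁ h₂ hT hinv p₀ (c' ^ k) h2
    obtain ⟨A, instA, Φ, hΦ1, hΦ2⟩ := det hT h hR hr c hc
    have h4 : Subgroup.closure (relators T r p₀) ≤ Φ.ker := by
      rw [Subgroup.closure_le]
      intro z hz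
      exact hΦ1 z hz
    have h5 : Φ (c' ^ k) = 1 := h4 h3
    rw [map_zpow] at h5
    exact hΦ2 k hk h5
  exact embed ψ G C hGC hψC hψG hC H

end Pool.Kod
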