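import Pool.Agent.Work.MP_f5717c_gt.K.Ax

/-!
Module H1 (S-M). A point whose distances to two different points of the axis are those of
`axis w` is `axis w`.

Proof. Write `x = z.re`, `y = z.im > 0`, `N = x^2 + y^2`. By `cosh_dist_axis` and `Real.cosh_abs`,
`N e^(-u) + e^u = 2 y cosh (w - u) = y (e^(w-u) + e^(u-w))`; multiply by `e^u`:
(1) `N + e^(2u) = y (e^w + e^(2u-w))`. In the same way (2) `N + e^(2v) = y (e^w + e^(2v-w))`.
Subtract: `e^(2u) - e^(2v) = y e^(-w) (e^(2u) - e^(2v))`, and `e^(2u) ≠ e^(2v)`, so `y = e^w`. Then (1)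
gives `N = y e^w + y e^(2u-w) - e^(2u) = e^(2w)`, so `x^2 = N - y^2 = 0`. Conclude by
`UpperHalfPlane.ext_re_im` (`(axis w).re = 0`, `(axis w).im = e^w` are `rfl`).
-/

namespace Pool.Kod

open UpperHalfPlane

theorem axis_unique {u v w : ℝ} (huv : u ≠ v) {z : ℍ} (h1 : dist z (axis u) = |w - u|)
    (h2 : dist z (axis v) = |w - v|) : z = axis w := by
  have key : ∀ t : ℝ, dist z (axis t) = |w - t| →
      (z.re ^ 2 + z.im ^ 2) + Real.exp t ^ 2 =
        z.im * (Real.exp w + Real.exp t ^ 2 * (Real.exp w)⁻¹) := by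
    intro t ht
    have h := cosh_dist_axis z t
    rw [ht, Real.cosh_abs, Real.cosh_eq, Real.exp_sub, neg_sub, Real.exp_sub, Real.exp_neg] at h
    have hz := z.im_pos
    have ht0 := Real.exp_pos t
    have hw0 := Real.exp_pos w
    field_simp at h ⊢
    nlinarith [h]
  have e1 := key u h1
  have e2 := key v h2
  have hw0 := Real.exp_pos w
  have hne : Real.exp u ^ 2 - Real.exp v ^ 2 ≠ 0 := by
    intro h0
    have h3 : Real.exp u = Real.exp v := by
      have hu0 := Real.exp_pos u
      have hv0 := Real.exp_pos v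
      nlinarith [mul_pos hu0 hv0]
    exact huv (Real.exp_injective h3)
  have hy : z.im = Real.exp w := by
    have h4 : (Real.exp u ^ 2 - Real.exp v ^ 2) * (1 - z.im * (Real.exp w)⁻¹) = 0 := by
      linear_combination e1 - e2
    have h5 : 1 - z.im * (Real.exp w)⁻¹ = 0 := (mul_eq_zero.1 h4).resolve_left hne
    field_simp at h5
    linarith
  have hx : z.re = 0 := by
    rw [hy] at e1
    have h6 : Real.exp w * (Real.exp w + Real.exp u ^ 2 * (Real.exp w)⁻¹) =
        Real.exp w ^ 2 + Real.exp u ^ 2 := by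
      field_simp
    rw [h6] at e1
    have h7 : z.re ^ 2 = 0 := by linarith
    exact pow_eq_zero_iff (two_ne_zero) |>.1 h7
  exact UpperHalfPlane.ext_re_im hx hy

end Pool.Kod
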