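import Pool.Agent.Work.MP_f5717c_gt.K.H3a

/-!
Module H3 (M). The square of an isometry that translates the axis by `c` is `scl (2 c)`.

Proof. Apply `fix_axis_pt` at `z` and at `w = g z`. So `(g w).im = e^c w.im = e^(2c) z.im` and
`w.re = ± e^c z.re`, `(g w).re = ± e^c w.re`. If `z.re = 0`, all real parts are `0` and we are done.
Let `z.re ≠ 0`. We must show that the two signs agree (then `(g w).re = e^(2c) z.re`, and
`UpperHalfPlane.ext_re_im`, `scl_re`, `scl_im`).
`g` is an isometry: `dist z w = dist (g z) (g w) = dist w (g w)`. By `UpperHalfPlane.cosh_dist`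
(or `UpperHalfPlane.dist_eq`) this says
`((z.re - w.re)^2 + (z.im - w.im)^2) / (z.im w.im) = ((w.re - (g w).re)^2 + (w.im - (g w).im)^2) / (w.im (g w).im)`.
With `w.re = σ e^c z.re`, `(g w).re = σ' e^c w.re`, `w.im = e^c z.im`, `(g w).im = e^c w.im` (`σ, σ' = ± 1`) the right
side is `(e^(2c) z.re^2 (1 - σ' e^c)^2 + e^(2c) z.im^2 (1 - e^c)^2) / (e^(3c) z.im^2)` and the left side
`(z.re^2 (1 - σ e^c)^2 + z.im^2 (1 - e^c)^2) / (e^c z.im^2)`; so `(1 - σ e^c)^2 = (1 - σ' e^c)^2`, that is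
`σ e^c = σ' e^c`, `σ = σ'`.
-/

namespace Pool.Kod

open UpperHalfPlane

theorem fix_axis_sq (g : Iso) (c : ℝ) (hg : ∀ u, g (axis u) = axis (u + c)) (z : ℍ) :
    g (g z) = scl (2 * c) z := by
  obtain ⟨him, hre⟩ := fix_axis_pt g c hg z
  obtain ⟨him2, hre2⟩ := fix_axis_pt g c hg (g z)
  have hz := z.im_pos
  have hc := Real.exp_pos c
  have hgz := (g z).im_pos
  have hggz := (g (g z)).im_pos
  have h2c : Real.exp (2 * c) = Real.exp c * Real.exp c := by
    rw [← Real.exp_add]; congr 1; ring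
  have hIm : (g (g z)).im = (scl (2 * c) z).im := by
    rw [scl_im, h2c, him2, him]; ring
  refine UpperHalfPlane.ext_re_im ?_ hIm
  rw [scl_re, h2c]
  have hd : dist z (g z) = dist (g z) (g (g z)) := (g.dist_eq z (g z)).symm
  have h1 := UpperHalfPlane.cosh_dist' z (g z)
  have h2 := UpperHalfPlane.cosh_dist' (g z) (g (g z))
  rw [← hd, h1, him2, him] at h2
  rcases hre with h | h <;> rcases hre2 with h' | h' <;> rw [h'] at h2 ⊢ <;> rw [h] at h2 ⊢
  · ring
  · field_simp at h2
    have h3 : z.re * z.re = 0 := by nlinarith [h2]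
    have h4 : z.re = 0 := mul_self_eq_zero.1 h3
    rw [h4]; ring
  · field_simp at h2
    have h3 : z.re * z.re = 0 := by nlinarith [h2]
    have h4 : z.re = 0 := mul_self_eq_zero.1 h3
    rw [h4]; ring
  · ring

end Pool.Kod
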