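import Pool.Agent.Work.MP_f5717c_gt.K.Ax

/-!
Module H3a (S-M). An isometry that translates the axis is, at each point, the dilation or the
dilation followed by the reflection `x + i y ↦ -x + i y`.

Proof. Let `w = g z`. For all `u`: `dist w (axis (u + c)) = dist (g z) (g (axis u)) = dist z (axis u)`.
By `cosh_dist_axis` with `N = z.re^2 + z.im^2`, `y = z.im`, `N' = w.re^2 + w.im^2`, `y' = w.im`:
`(N' e^(-u-c) + e^(u+c)) / (2 y') = (N e^(-u) + e^u) / (2 y)` for all `u`. Put `P = N' e^(-c) / y' - N / y`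
and `Q = e^c / y' - 1 / y`: then `P e^(-u) + Q e^u = 0` for `u = 0` and `u = 1`, so `P + Q = 0` and
`P + Q e^2 = 0`, hence `P = Q = 0`: `y' = e^c y` and `N' = e^c N y' / y = e^(2c) N`. So
`w.re^2 = N' - y'^2 = e^(2c) (N - y^2) = (e^c z.re)^2`, and `sq_eq_sq'`/`sq_eq_sq_iff_abs_eq_abs`.
-/

namespace Pool.Kod

open UpperHalfPlane

theorem fix_axis_pt (g : Iso) (c : ℝ) (hg : ∀ u, g (axis u) = axis (u + c)) (z : ℍ) :
    (g z).im = Real.exp c * z.im ∧
      ((g z).re = Real.exp c * z.re ∨ (g z).re = -(Real.exp c * z.re)) := by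
  have key : ∀ u : ℝ, (((g z).re ^ 2 + (g z).im ^ 2) + (Real.exp u * Real.exp c) ^ 2) * z.im =
      ((z.re ^ 2 + z.im ^ 2) + Real.exp u ^ 2) * ((g z).im * Real.exp c) := by
    intro u
    have h1 : dist (g z) (axis (u + c)) = dist z (axis u) := by
      rw [← hg u, g.dist_eq]
    have h2 := cosh_dist_axis (g z) (u + c)
    rw [h1, cosh_dist_axis z u, Real.exp_neg, Real.exp_neg, Real.exp_add] at h2
    have hz := z.im_pos
    have hgz := (g z).im_pos
    have hu := Real.exp_pos u
    have hc := Real.exp_pos c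
    field_simp at h2
    nlinarith [h2]
  have hz := z.im_pos
  have hc := Real.exp_pos c
  have k0 := key 0
  have k1 := key 1
  rw [Real.exp_zero] at k0
  have he : Real.exp 1 ^ 2 - 1 ≠ 0 := by
    have h3 : (1 : ℝ) < Real.exp 1 := by
      have := Real.add_one_lt_exp (one_ne_zero)
      linarith
    nlinarith
  have him : (g z).im = Real.exp c * z.im := by
    have h4 : (Real.exp 1 ^ 2 - 1) * (Real.exp c * (Real.exp c * z.im - (g z).im)) = 0 := by
      linear_combination k1 - k0
    have h5 := (mul_eq_zero.1 h4).resolve_left he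
    have h6 := (mul_eq_zero.1 h5).resolve_left hc.ne'
    linarith
  refine ⟨him, ?_⟩
  rw [him] at k0
  have h7 : z.im * ((g z).re ^ 2 - (Real.exp c * z.re) ^ 2) = 0 := by
    linear_combination k0
  have h8 := (mul_eq_zero.1 h7).resolve_left hz.ne'
  have h9 : (g z).re ^ 2 = (Real.exp c * z.re) ^ 2 := by linarith
  exact sq_eq_sq_iff_eq_or_eq_neg.1 h9

end Pool.Kod
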