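import Pool.Agent.Work.MP_f5717c_gt.K.Ax

/-!
Module P1 (M). The fibres of the complement are path connected.

Proof. `T` is countable: `T = ⋃ n : ℕ, {t ∈ T | dist (t x) x ≤ n}` (`hT.finite`). So the set
`S = {t x | t ∈ T}` is countable. The map `h : ℍ → ℂ`, `z ↦ ⟨z.re, log z.im⟩` is a homeomorphism
(inverse `w ↦ ⟨⟨w.re, exp w.im⟩, _⟩`). The complement of the countable set `h '' S` in `ℂ` is path
connected (`Set.Countable.isPathConnected_compl_of_one_lt_rank`, `rank ℝ ℂ = 2`:
`Complex.rank_real_complex`). So there is a path in `(h '' S)ᶜ` from `h y` to `h y'`; compose it with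
the inverse of `h` to get a path `f` in `Sᶜ` from `y` to `y'`, and take `τ ↦ ⟨(x, f τ), _⟩`.
-/

namespace Pool.Kod

open UpperHalfPlane

/-- Horizontal coordinate and logarithm of the height. -/
private noncomputable def lg (z : ℍ) : ℂ := ⟨z.re, Real.log z.im⟩

private noncomputable def ex (w : ℂ) : ℍ := ⟨⟨w.re, Real.exp w.im⟩, Real.exp_pos _⟩

private theorem ex_lg (z : ℍ) : ex (lg z) = z := by
  apply UpperHalfPlane.ext_re_im
  · rfl
  · exact Real.exp_log z.im_pos

private theorem lg_ex (w : ℂ) : lg (ex w) = w := by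
  apply Complex.ext
  · rfl
  · exact Real.log_exp w.im

private theorem ex_cont : Continuous ex := by
  rw [UpperHalfPlane.isEmbedding_coe.continuous_iff]
  have h1 : (((↑) : ℍ → ℂ) ∘ ex) = fun w : ℂ => ((w.re : ℝ) : ℂ) + ((Real.exp w.im : ℝ) : ℂ) * Complex.I := by
    funext w
    apply Complex.ext
    · change w.re = _
      rw [Complex.add_re, Complex.ofReal_re, Complex.re_ofReal_mul, Complex.I_re]
      ring
    · change Real.exp w.im = _
      rw [Complex.add_im, Complex.ofReal_im, Complex.im_ofReal_mul, Complex.I_im]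
      ring
  rw [h1]
  exact (Complex.continuous_ofReal.comp Complex.continuous_re).add
    ((Complex.continuous_ofReal.comp (Real.continuous_exp.comp Complex.continuous_im)).mul
      continuous_const)

theorem fibre_joined {L₁ L₂ : Subgroup Iso} {T : Set Iso} (hT : IsEtale L₁ L₂ T)
    (p q : Comp T) (hpq : p.1.1 = q.1.1) : Joined p q := by
  have hTc : T.Countable := by
    have h1 : T ⊆ ⋃ n : ℕ, {t : Iso | t ∈ T ∧ dist (t p.1.1) p.1.1 ≤ n} := by
      intro t ht
      obtain ⟨n, hn⟩ := exists_nat_ge (dist (t p.1.1) p.1.1)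
      exact Set.mem_iUnion.2 ⟨n, ht, hn⟩
    exact (Set.countable_iUnion (fun n : ℕ => (hT.finite p.1.1 p.1.1 (n : ℝ)).countable)).mono h1
  let S : Set ℂ := (fun t : Iso => lg (t p.1.1)) '' T
  have hS : S.Countable := hTc.image _
  have hrank : 1 < Module.rank ℝ ℂ := by
    rw [Complex.rank_real_complex]
    norm_num
  have hpc : IsPathConnected Sᶜ := hS.isPathConnected_compl_of_one_lt_rank hrank
  have hp : lg p.1.2 ∈ Sᶜ := by
    rintro ⟨t, ht, he⟩
    apply p.2 t ht
    have he' : lg (t p.1.1) = lg p.1.2 := he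
    rw [← ex_lg p.1.2, ← he', ex_lg]
  have hq : lg q.1.2 ∈ Sᶜ := by
    rintro ⟨t, ht, he⟩
    apply q.2 t ht
    have he' : lg (t p.1.1) = lg q.1.2 := he
    rw [← ex_lg q.1.2, ← he', ex_lg, hpq]
  obtain ⟨f, hf⟩ := hpc.joinedIn _ hp _ hq
  refine ⟨{ toFun := fun τ => ⟨(p.1.1, ex (f τ)), ?_⟩, continuous_toFun := ?_, source' := ?_, target' := ?_ }⟩
  · intro t ht he
    apply hf τ
    refine ⟨t, ht, ?_⟩
    have he' : ex (f τ) = t p.1.1 := he
    change lg (t p.1.1) = f τ
    rw [← he', lg_ex]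
  · apply Continuous.subtype_mk
    exact continuous_const.prodMk (ex_cont.comp f.continuous)
  · apply Subtype.ext
    change (p.1.1, ex (f 0)) = p.1
    rw [f.source, ex_lg]
  · apply Subtype.ext
    change (p.1.1, ex (f 1)) = q.1
    rw [f.target, ex_lg, hpq]

end Pool.Kod
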