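import Pool.Agent.Work.MP_f5717c_gt.K.C1
import Pool.Agent.Work.MP_f5717c_gt.K.P1

/-!
Module P2 (M). The complement of the graphs is path connected.

Proof. By `closest` there is `d > 0` with `d ≤ dist (t' x) (s' x)` for all `t' ≠ s'` in `T` and all `x`. Let
`η = d / 2` and let `v x = ⟨⟨x.re, exp η * x.im⟩, _⟩ : ℍ`; `v` is continuous and `dist (v x) x = η`
(`UpperHalfPlane.dist_of_re_eq`, `log (exp η * x.im) = η + log x.im`). Fix `t ∈ T`. The point
`c x = (x, t (v x))` lies in the complement: if `t (v x) = s x` with `s ∈ T` then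
`dist (s x) (t x) = dist (v x) x = η < d`, so `s = t` and `v x = x`, impossible since `η > 0`. So
`c : ℍ → Comp T` is continuous, and `c x`, `c x'` are joined for all `x, x'` (`ℍ` is path connected,
map a path by `c`; `Joined.map` / `PathConnectedSpace.joined`). Given `p, q`: `p` is joined to `c p.1.1`
by `fibre_joined`, `c p.1.1` to `c q.1.1`, and that to `q` by `fibre_joined`. Nonempty: `c x`.
-/

namespace Pool.Kod

open UpperHalfPlane

private noncomputable def vv (η : ℝ) (z : ℍ) : ℍ :=
  ⟨⟨z.re, Real.exp η * z.im⟩, mul_pos (Real.exp_pos η) z.im_pos⟩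

private theorem vv_cont (η : ℝ) : Continuous (vv η) := by
  rw [UpperHalfPlane.isEmbedding_coe.continuous_iff]
  have h1 : (((↑) : ℍ → ℂ) ∘ vv η) =
      fun z : ℍ => ((z.re : ℝ) : ℂ) + ((Real.exp η * z.im : ℝ) : ℂ) * Complex.I := by
    funext w
    apply Complex.ext
    · change w.re = _
      rw [Complex.add_re, Complex.ofReal_re, Complex.re_ofReal_mul, Complex.I_re]
      ring
    · change Real.exp η * w.im = _
      rw [Complex.add_im, Complex.ofReal_im, Complex.im_ofReal_mul, Complex.I_im]
      ring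
  rw [h1]
  have h2 : Continuous (fun z : ℍ => z.re) := UpperHalfPlane.continuous_re
  have h3 : Continuous (fun z : ℍ => z.im) := UpperHalfPlane.continuous_im
  exact (Complex.continuous_ofReal.comp h2).add
    ((Complex.continuous_ofReal.comp (continuous_const.mul h3)).mul continuous_const)

private theorem vv_dist {η : ℝ} (hη : 0 < η) (z : ℍ) : dist (vv η z) z = η := by
  have h0 : (vv η z).re = z.re := rfl
  rw [UpperHalfPlane.dist_of_re_eq h0]
  have h1 : (vv η z).im = Real.exp η * z.im := rfl
  rw [h1, Real.log_mul (Real.exp_pos η).ne' z.im_pos.ne', Real.log_exp, Real.dist_eq]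
  have h2 : η + Real.log z.im - Real.log z.im = η := by ring
  rw [h2, abs_of_pos hη]

theorem comp_pathConnected {L₁ L₂ : Subgroup Iso} {T : Set Iso} (h₁ : IsSurfaceGroup L₁)
    (h₂ : IsSurfaceGroup L₂) (hT : IsEtale L₁ L₂ T) : PathConnectedSpace (Comp T) := by
  obtain ⟨t, ht, s, hs, hts, x, hd, hmin⟩ := closest h₁ h₂ hT
  set d := dist (t x) (s x) with hdd
  have hη : 0 < d / 2 := by linarith
  have hc : ∀ y : ℍ, ∀ t' ∈ T, t (vv (d / 2) y) ≠ t' y := by
    intro y t' ht' he
    have h1 : dist (t' y) (t y) = d / 2 := by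
      rw [← he, t.dist_eq, vv_dist hη]
    by_cases htt : t' = t
    · subst htt
      rw [dist_self] at h1
      linarith
    · have := hmin t' ht' t ht htt y
      linarith
  let c : ℍ → Comp T := fun y => ⟨(y, t (vv (d / 2) y)), hc y⟩
  have hcc : Continuous c :=
    Continuous.subtype_mk (continuous_id.prodMk (t.continuous.comp (vv_cont _))) _
  have hj : ∀ y y' : ℍ, Joined (c y) (c y') := fun y y' =>
    (PathConnectedSpace.joined y y').map hcc
  refine ⟨⟨c x⟩, fun p q => ?_⟩
  have h1 : Joined p (c p.1.1) := fibre_joined hT p (c p.1.1) rfl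
  have h2 : Joined (c q.1.1) q := fibre_joined hT (c q.1.1) q rfl
  exact (h1.trans (hj _ _)).trans h2

end Pool.Kod
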