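import Pool.Agent.Work.MP_f5717c_gt.K.Ax

/-!
Module T1 (S-M). A disc around the midpoint that contains both ends and is covered by the two open
discs of radius `d` around the ends.

Proof. Median formula: for every `z`
`cosh (dist z (axis 0)) + cosh (dist z (axis d)) = 2 cosh (d/2) cosh (dist z (axis (d/2)))`.
Indeed by `cosh_dist_axis` with `N = z.re^2 + z.im^2`, `y = z.im` the left side is
`(N + 1 + N e^(-d) + e^d) / (2 y)` and the right side `(e^(d/2) + e^(-d/2)) (N e^(-d/2) + e^(d/2)) / (2 y)`,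
which is the same. Since `cosh (d/2)^2 = (1 + cosh d)/2 < cosh d` (`d > 0`, `Real.cosh_sq`, `Real.cosh_two_mul`),
by continuity of `cosh` there is `R > d/2` with `cosh (d/2) cosh R < cosh d`
(e.g. `R` from the open set `{R | cosh (d/2) cosh R < cosh d}` that contains `d/2`). If
`dist z (axis (d/2)) ≤ R` then `cosh (dist z (axis 0)) + cosh (dist z (axis d)) ≤ 2 cosh (d/2) cosh R < 2 cosh d`,
so one of the two is `< cosh d`, and `Real.cosh_lt_cosh` (absolute values; distances are `≥ 0`).
-/

namespace Pool.Kod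

open UpperHalfPlane

theorem exists_radius (d : ℝ) (hd : 0 < d) : ∃ R : ℝ, d / 2 < R ∧ ∀ z : ℍ,
    dist z (axis (d / 2)) ≤ R → dist z (axis 0) < d ∨ dist z (axis d) < d := by
  have hc : Real.cosh (d / 2) * Real.cosh (d / 2) < Real.cosh d := by
    have h1 : Real.cosh d = Real.cosh (d / 2) ^ 2 + Real.sinh (d / 2) ^ 2 := by
      rw [← Real.cosh_two_mul]; congr 1; ring
    have h2 : 0 < Real.sinh (d / 2) := Real.sinh_pos_iff.2 (by linarith)
    rw [h1]
    nlinarith [mul_pos h2 h2]
  have hcont : Continuous (fun R : ℝ => Real.cosh (d / 2) * Real.cosh R) :=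
    continuous_const.mul Real.continuous_cosh
  have hopen : IsOpen {R : ℝ | Real.cosh (d / 2) * Real.cosh R < Real.cosh d} :=
    isOpen_lt hcont continuous_const
  obtain ⟨ε, hε, hball⟩ := Metric.isOpen_iff.1 hopen (d / 2) hc
  have hR : Real.cosh (d / 2) * Real.cosh (d / 2 + ε / 2) < Real.cosh d := by
    apply hball
    rw [Metric.mem_ball, Real.dist_eq]
    have : d / 2 + ε / 2 - d / 2 = ε / 2 := by ring
    rw [this, abs_of_pos (by linarith)]
    linarith
  refine ⟨d / 2 + ε / 2, by linarith, fun z hz => ?_⟩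
  have hmed : Real.cosh (dist z (axis 0)) + Real.cosh (dist z (axis d)) =
      2 * (Real.cosh (d / 2) * Real.cosh (dist z (axis (d / 2)))) := by
    rw [cosh_dist_axis, cosh_dist_axis, cosh_dist_axis, Real.cosh_eq (d / 2)]
    have e1 : Real.exp d = Real.exp (d / 2) * Real.exp (d / 2) := by
      rw [← Real.exp_add]; congr 1; ring
    rw [Real.exp_neg, Real.exp_neg, Real.exp_neg, e1, Real.exp_zero]
    have hp := Real.exp_pos (d / 2)
    have hz0 := z.im_pos
    field_simp
    ring
  have hle : Real.cosh (dist z (axis (d / 2))) ≤ Real.cosh (d / 2 + ε / 2) := by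
    rw [Real.cosh_le_cosh, abs_of_nonneg dist_nonneg, abs_of_pos (by linarith)]
    exact hz
  by_contra hcon
  push Not at hcon
  obtain ⟨h0, h1⟩ := hcon
  have g0 : Real.cosh d ≤ Real.cosh (dist z (axis 0)) := by
    rw [Real.cosh_le_cosh, abs_of_nonneg dist_nonneg, abs_of_pos hd]
    exact h0
  have g1 : Real.cosh d ≤ Real.cosh (dist z (axis d)) := by
    rw [Real.cosh_le_cosh, abs_of_nonneg dist_nonneg, abs_of_pos hd]
    exact h1
  have h3 : Real.cosh (d / 2) * Real.cosh (dist z (axis (d / 2))) ≤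
      Real.cosh (d / 2) * Real.cosh (d / 2 + ε / 2) :=
    mul_le_mul_of_nonneg_left hle (Real.cosh_pos _).le
  linarith

end Pool.Kod
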