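import Pool.Agent.Work.MP_f5717c_gt.K.T2

/-!
Module T4 (S). Continuity and periods of the torus.

Proof. Continuity: `axis_continuous`, `scl_continuous`, `circ_continuous`, isometries are continuous.
`tor_theta`: `circ_zero_one`. `tor_period`: `γ (e (axis u)) = e (scl L (axis u)) = e (axis (L + u))`
(`hγe`, `scl_axis`), and `δ (t (e (scl u z))) = t (γ (e (scl u z))) = t (e (scl L (scl u z))) = t (e (scl (u + L) z))`
(`hδt` applied to a point, `scl_scl`).
-/

namespace Pool.Kod

open UpperHalfPlane

theorem tor_continuous (t e : Iso) (d R : ℝ) :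
    Continuous (fun p : ℝ × ℝ => tor t e d R p.1 p.2) := by
  have h1 : Continuous (fun p : ℝ × ℝ => e (axis p.1)) :=
    e.continuous.comp (axis_continuous.comp continuous_fst)
  have h2 : Continuous (fun p : ℝ × ℝ => scl p.1 (circ d R p.2)) :=
    scl_continuous.comp (continuous_fst.prodMk ((circ_continuous d R).comp continuous_snd))
  exact h1.prodMk (t.continuous.comp (e.continuous.comp h2))

theorem tor_theta (t e : Iso) (d R u : ℝ) : tor t e d R u 1 = tor t e d R u 0 := by
  unfold tor
  rw [circ_zero_one]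

theorem tor_period {L₁ L₂ : Subgroup Iso} {T : Set Iso} {t s e γ δ : Iso} {d L : ℝ}
    (h : IsTube L₁ L₂ T t s e γ δ d L) (R u θ : ℝ) :
    (tor t e d R (u + L) θ).1 = γ (tor t e d R u θ).1 ∧
      (tor t e d R (u + L) θ).2 = δ (tor t e d R u θ).2 := by
  constructor
  · change e (axis (u + L)) = γ (e (axis u))
    rw [h.hγe, scl_axis, add_comm]
  · change t (e (scl (u + L) (circ d R θ))) = δ (t (e (scl u (circ d R θ))))
    have h1 : δ (t (e (scl u (circ d R θ)))) = t (γ (e (scl u (circ d R θ)))) :=
      DFunLike.congr_fun h.hδt (e (scl u (circ d R θ)))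
    rw [h1, h.hγe, scl_scl, add_comm L u]

end Pool.Kod
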