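import Pool.Agent.Work.MP_f5717c_gt.K.T3
import Pool.Agent.Work.MP_f5717c_gt.K.T4

/-!
Module TP (S). The two paths of the torus.

Proof. `p₀ = ⟨tor t e d R 0 0, tor_mem ..⟩`, `q₀ = ⟨tor t e d R L 0, tor_mem ..⟩`,
`c θ = ⟨tor t e d R 0 θ, _⟩` (a loop by `tor_theta`), `g τ = ⟨tor t e d R (L τ) 0, _⟩`; continuity from
`tor_continuous`. `hq`: `tor_period` with `u = 0` (`0 + L = L`).
-/

namespace Pool.Kod

open UpperHalfPlane unitInterval

theorem torus_paths {L₁ L₂ : Subgroup Iso} {T : Set Iso} {t s e γ δ : Iso} {d L : ℝ}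
    (h : IsTube L₁ L₂ T t s e γ δ d L) {R : ℝ} (hR : d / 2 < R)
    (hR2 : ∀ z : ℍ, dist z (axis (d / 2)) ≤ R → dist z (axis 0) < d ∨ dist z (axis d) < d) :
    ∃ (p₀ q₀ : Comp T) (c : Path p₀ p₀) (g : Path p₀ q₀),
      (∀ θ : I, (c θ).1 = tor t e d R 0 θ) ∧ (∀ τ : I, (g τ).1 = tor t e d R (L * τ) 0) ∧
      q₀.1.1 = γ p₀.1.1 ∧ q₀.1.2 = δ p₀.1.2 := by
  have hm := fun u θ => tor_mem h hR hR2 u θ
  have hcont := tor_continuous t e d R
  let p₀ : Comp T := ⟨tor t e d R 0 0, hm 0 0⟩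
  let q₀ : Comp T := ⟨tor t e d R L 0, hm L 0⟩
  let c : Path p₀ p₀ :=
    { toFun := fun θ => ⟨tor t e d R 0 θ, hm 0 θ⟩
      continuous_toFun := by
        apply Continuous.subtype_mk
        exact hcont.comp (continuous_const.prodMk continuous_subtype_val)
      source' := rfl
      target' := Subtype.ext (tor_theta t e d R 0) }
  let g : Path p₀ q₀ :=
    { toFun := fun τ => ⟨tor t e d R (L * τ) 0, hm (L * τ) 0⟩
      continuous_toFun := by
        apply Continuous.subtype_mk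
        exact hcont.comp ((continuous_const.mul continuous_subtype_val).prodMk continuous_const)
      source' := Subtype.ext (by
        change tor t e d R (L * (0 : ℝ)) 0 = tor t e d R 0 0
        rw [mul_zero])
      target' := Subtype.ext (by
        change tor t e d R (L * (1 : ℝ)) 0 = tor t e d R L 0
        rw [mul_one]) }
  have hp := tor_period h R 0 0
  rw [zero_add] at hp
  exact ⟨p₀, q₀, c, g, fun θ => rfl, fun τ => rfl, hp.1, hp.2⟩

end Pool.Kod
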