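import Pool.Agent.Work.MP_f5717c_gt.K.C3
import Pool.Agent.Work.MP_f5717c_gt.K.T1
import Pool.Agent.Work.MP_f5717c_gt.K.TP
import Pool.Agent.Work.MP_f5717c_gt.K.P2
import Pool.Agent.Work.MP_f5717c_gt.K.BC
import Pool.Agent.Work.MP_f5717c_gt.K.Fin0

/-!
Module Main. Assembly.
-/

namespace Pool.Kod

open UpperHalfPlane

theorem main {L₁ L₂ : Subgroup Iso} {T : Set Iso} (h₁ : IsSurfaceGroup L₁)
    (h₂ : IsSurfaceGroup L₂) (hT : IsEtale L₁ L₂ T) {r : Iso → ℕ} (hr : ∀ t ∈ T, 2 ≤ r t)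
    (hinv : ∀ t ∈ T, ∀ g ∈ L₁, ∀ h ∈ L₂, r (h * t * g) = r t) (p : Comp T)
    (H : Subgroup (OrbGroup L₁ L₂ T r p)) [H.FiniteIndex] :
    ∃ φ : Multiplicative (ℤ × ℤ) →* H, Function.Injective φ := by
  obtain ⟨t, s, e, γ, δ, d, L, h⟩ := exists_tube h₁ h₂ hT
  obtain ⟨R, hR, hR2⟩ := exists_radius d h.hd
  obtain ⟨p₀, q₀, c, g, hc, hg, hq1, hq2⟩ := torus_paths h hR hR2
  haveI := comp_pathConnected h₁ h₂ hT
  obtain ⟨ν⟩ := PathConnectedSpace.joined p p₀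
  obtain ⟨E⟩ := base_change L₁ L₂ T r ν
  haveI : (H.map E.toMonoidHom).FiniteIndex := by
    constructor
    have h5 : (H.map (E : OrbGroup L₁ L₂ T r p →* OrbGroup L₁ L₂ T r p₀)).index = H.index :=
      Subgroup.index_map_equiv H E
    intro h6
    exact Subgroup.FiniteIndex.index_ne_zero (H := H) (h5.symm.trans h6)
  obtain ⟨φ, hφ⟩ := fin0 h₁ h₂ hT hr hinv h hR hR2 c g hc hg hq1 hq2 (H.map E.toMonoidHom)
  refine ⟨(E.symm.toMonoidHom.comp ((H.map E.toMonoidHom).subtype.comp φ)).codRestrict H ?_, ?_⟩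
  · intro x
    obtain ⟨y, hy, hy2⟩ := (φ x).2
    have h3 : E.symm ((φ x : _)) = y := by
      rw [← hy2]
      exact E.symm_apply_apply y
    change E.symm ((φ x : _)) ∈ H
    rw [h3]
    exact hy
  · intro x y hxy
    apply hφ
    apply Subtype.ext
    have h4 := congrArg Subtype.val hxy
    exact E.symm.injective h4

end Pool.Kod
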