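import Pool.Agent.Work.MP_f5717c_gt.K.Cv

/-!
Module Nor1 (M). Conjugates of relators are relators.

Proof. Let `letI := actC hT`, `hp := quotCov h₁ h₂ hT`, `cov := hp.isCoveringMap`. Let
`z = [(ω κ) ω⁻¹]^(r t)` be the relator given by `t`, `q`, `ω : Path p q`, `κ : Path q q`. Let
`Γ : Path.Homotopic.Quotient (pr p) (pr p)` be the class `w` itself. In `FundamentalGroup`,
`a * b = b.trans a` (`FundamentalGroup.mul_def`) and `a⁻¹ = a.symm` (`inv_def`), so
`w * P z * w⁻¹ = w.symm.trans ((P z).trans w)` with `P = FundamentalGroup.map (pr ..) p`.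
Lift `w.symm` from `p`: `Σ = cov.liftPathQuotient w.symm ⟨p, rfl⟩`, a class of paths in `Comp T` from `p` to
a point `p'` over `pr p` (`cov.monodromy ..`), with image `w.symm` (`map_liftPathQuotient`). There is
`a = (g, h) ∈ L₁ × L₂` with `p' = a • p` (`hp.apply_eq_iff_mem_orbit`). Translate by `a`
(`ContinuousMap` `a • ·`; `pr (a • x) = pr x`, `hp.map_smul`): `aω : Path p' (a • q)`,
`aκ : Path (a • q) (a • q)`. Pick a path `σ` representing `Σ` and put
`z' = [((σ.trans aω).trans aκ).trans (σ.trans aω).symm]^(r t')` with `t' = h * t * g⁻¹ ∈ T`.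
`aκ` is a `SmallLoop` for `t'` with the same `ε`: `t' (g x) = h (t x)`, and for `s' ∈ T`, `s' ≠ t'`:
`s = h⁻¹ * s' * g ∈ T`, `s ≠ t`, `dist (s' (g x)) (t' (g x)) = dist (s x) (t x) > ε`; the distances in the second
half are preserved because `h` is an isometry. `r t' = r t` by `hinv`. The image of the conjugated loop
is `w.symm · P[(ω κ) ω⁻¹] · w` (as `pr ∘ a = pr`), so `P z' = w * P z * w⁻¹` (powers commute with
conjugation and with `P`).
-/

namespace Pool.Kod

open UpperHalfPlane unitInterval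

/-- Associativity in the groupoid, up to changes of the names of the end points. -/
private theorem conj_aux {X : Type*} [TopologicalSpace X] {x y x' y' : X} (hx : x' = x)
    (hy : y' = y) (W : Path x x) (s : Path x x') (hs : ∀ t, s t = W.symm t)
    (ω : Path x y) (ω' : Path x' y') (hω : ∀ t, ω' t = ω t) (κ : Path y y) (κ' : Path y' y')
    (hκ : ∀ t, κ' t = κ t) :
    (((s.trans ω').trans κ').trans (s.trans ω').symm).Homotopic
      (W.symm.trans (((ω.trans κ).trans ω.symm).trans W)) := by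
  subst hx hy
  have e1 : s = W.symm := by ext t; exact hs t
  have e2 : ω' = ω := by ext t; exact hω t
  have e3 : κ' = κ := by ext t; exact hκ t
  subst e1 e2 e3
  rw [Path.trans_symm, Path.symm_symm, ← Path.Homotopic.Quotient.eq]
  simp only [Path.Homotopic.Quotient.mk_trans, Path.Homotopic.Quotient.trans_assoc]

theorem conj_relator {L₁ L₂ : Subgroup Iso} {T : Set Iso} (h₁ : IsSurfaceGroup L₁)
    (h₂ : IsSurfaceGroup L₂) (hT : IsEtale L₁ L₂ T) {r : Iso → ℕ}
    (hinv : ∀ t ∈ T, ∀ g ∈ L₁, ∀ h ∈ L₂, r (h * t * g) = r t) (p : Comp T)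
    (w : FundamentalGroup (Base L₁ L₂ T) (pr L₁ L₂ T p)) (z : FundamentalGroup (Comp T) p)
    (hz : z ∈ relators T r p) : ∃ z' ∈ relators T r p,
      w * FundamentalGroup.map (pr L₁ L₂ T) p z * w⁻¹ = FundamentalGroup.map (pr L₁ L₂ T) p z' := by
  let := actC hT
  have hp := quotCov h₁ h₂ hT
  have hcs := hp.toContinuousConstSMul
  obtain ⟨t, ht, q, ω, κ, ⟨ε, hε1, hε2⟩, rfl⟩ := hz
  obtain ⟨W, rfl⟩ := Path.Homotopic.Quotient.mk_surjective w
  obtain ⟨Γ, hΓ, hΓ0⟩ := hp.isCoveringMap.exists_path_lifts (W.symm : C(I, Base L₁ L₂ T)) p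
    W.symm.source
  have hΓ' : ∀ τ, pr L₁ L₂ T (Γ τ) = W.symm τ := fun τ => congrFun hΓ τ
  have hend : pr L₁ L₂ T (Γ 1) = pr L₁ L₂ T p := by rw [hΓ' 1, W.symm.target]
  obtain ⟨a, ha⟩ := hp.apply_eq_iff_mem_orbit.1 hend
  have ha' : a • p = Γ 1 := ha
  have hprs : ∀ x : Comp T, pr L₁ L₂ T (a • x) = pr L₁ L₂ T x := fun x =>
    hp.apply_eq_iff_mem_orbit.2 ⟨a, rfl⟩
  have hac : Continuous (fun x : Comp T => a • x) := continuous_const_smul a
  let s : Path p (a • p) := ⟨Γ, hΓ0, ha'.symm⟩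
  let ω' : Path (a • p) (a • q) := ω.map hac
  let κ' : Path (a • q) (a • q) := κ.map hac
  let t' : Iso := a.2.1 * t * (a.1.1)⁻¹
  have ht' : t' ∈ T := hT.mul_mem t ht _ (L₁.inv_mem a.1.2) _ a.2.2
  have htg : t' (a • q).1.1 = a.2.1 (t q.1.1) := by
    change a.2.1 (t (a.1.1.symm (a.1.1 q.1.1))) = a.2.1 (t q.1.1)
    rw [a.1.1.symm_apply_apply]
  have hsmall : SmallLoop T t' κ' := by
    refine ⟨ε, fun s' hs' hne => ?_, fun θ => ?_⟩
    · have hs0 : (a.2.1)⁻¹ * s' * a.1.1 ∈ T := hT.mul_mem s' hs' _ a.1.2 _ (L₂.inv_mem a.2.2)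
      have hne0 : (a.2.1)⁻¹ * s' * a.1.1 ≠ t := by
        intro h0
        apply hne
        change s' = a.2.1 * t * (a.1.1)⁻¹
        rw [← h0]
        group
      have h3 := hε1 _ hs0 hne0
      rw [htg]
      have h4 : dist (s' (a • q).1.1) (a.2.1 (t q.1.1)) =
          dist (a.2.1.symm (s' (a • q).1.1)) (t q.1.1) := by
        conv_lhs => rw [← a.2.1.apply_symm_apply (s' (a • q).1.1)]
        exact a.2.1.dist_eq _ _
      rw [h4]
      exact h3
    · obtain ⟨h5, h6⟩ := hε2 θ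
      refine ⟨?_, ?_⟩
      · change a.1.1 (κ θ).1.1 = a.1.1 q.1.1
        rw [h5]
      · rw [htg]
        change dist (a.2.1 (κ θ).1.2) (a.2.1 (t q.1.1)) ≤ ε
        rw [a.2.1.dist_eq]
        exact h6
  have hr : r t' = r t := hinv t ht _ (L₁.inv_mem a.1.2) _ a.2.2
  refine ⟨(FundamentalGroup.fromPath (Path.Homotopic.Quotient.mk
    (((s.trans ω').trans κ').trans (s.trans ω').symm))) ^ (r t'),
    ⟨t', ht', a • q, s.trans ω', κ', hsmall, rfl⟩, ?_⟩
  rw [hr, map_pow, map_pow, ← conj_pow]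
  congr 1
  rw [FundamentalGroup.mul_def, FundamentalGroup.mul_def, FundamentalGroup.inv_def]
  have hmain := conj_aux (hprs p) (hprs q) W (s.map (pr L₁ L₂ T).continuous) (fun τ => hΓ' τ)
    (ω.map (pr L₁ L₂ T).continuous) (ω'.map (pr L₁ L₂ T).continuous) (fun τ => hprs _)
    (κ.map (pr L₁ L₂ T).continuous) (κ'.map (pr L₁ L₂ T).continuous) (fun τ => hprs _)
  rw [← Path.Homotopic.Quotient.eq] at hmain
  have e1 : FundamentalGroup.map (pr L₁ L₂ T) p (FundamentalGroup.fromPath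
      (Path.Homotopic.Quotient.mk ((ω.trans κ).trans ω.symm))) =
      Path.Homotopic.Quotient.mk (((ω.map (pr L₁ L₂ T).continuous).trans
        (κ.map (pr L₁ L₂ T).continuous)).trans (ω.map (pr L₁ L₂ T).continuous).symm) := by
    rw [Path.map_symm, ← Path.map_trans, ← Path.map_trans]
    rfl
  have e2 : FundamentalGroup.map (pr L₁ L₂ T) p (FundamentalGroup.fromPath
      (Path.Homotopic.Quotient.mk (((s.trans ω').trans κ').trans (s.trans ω').symm))) =
      Path.Homotopic.Quotient.mk (((((s.map (pr L₁ L₂ T).continuous).trans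
        (ω'.map (pr L₁ L₂ T).continuous)).trans (κ'.map (pr L₁ L₂ T).continuous)).trans
        ((s.map (pr L₁ L₂ T).continuous).trans (ω'.map (pr L₁ L₂ T).continuous)).symm)) := by
    rw [← Path.map_trans, Path.map_symm, ← Path.map_trans, ← Path.map_trans]
    rfl
  rw [e1, e2, hmain]
  rfl

end Pool.Kod
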