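import Pool.Agent.Work.MP_f5717c_gt.K.Ax

/-!
Module T2 (S-M). The circle of radius `R` around `i e^(d/2)`.

Proof. `circ_dist`: by `UpperHalfPlane.dist_eq_iff_dist_coe_center_eq` (or `UpperHalfPlane.image_coe_sphere`): the
hyperbolic circle of radius `R` around `m` is the euclidean circle of radius `m.im sinh R` around the
point `m.center R` with real part `m.re` and imaginary part `m.im cosh R`. Here `m = i e^(d/2)` and
`circC - i e^(d/2) cosh R = i e^(d/2) sinh R exp (2 π i θ)` has norm `e^(d/2) sinh R`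
(`Complex.norm_exp_ofReal_mul_I` after writing `2 π i θ = (2 π θ) i`).
`circ_continuous`: `UpperHalfPlane.isEmbedding_coe.continuous_iff`, `circC` is continuous in `θ`.
`circ_zero_one`: `exp (2 π i) = 1`.
`circ_ne`: `dist (circ d R θ) (axis (d/2)) = R > d/2`, while `dist (axis 0) (axis (d/2)) = d/2` and
`dist (axis d) (axis (d/2)) = d/2` (`axis_dist`).
-/

namespace Pool.Kod

open UpperHalfPlane

theorem circ_dist {d R : ℝ} (hR : 0 ≤ R) (θ : ℝ) : dist (circ d R θ) (axis (d / 2)) = R := by
  rw [dist_eq_iff_dist_coe_center_eq]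
  have h1 : ((circ d R θ : ℍ) : ℂ) - (((axis (d / 2)).center R : ℍ) : ℂ) =
      Complex.I * ((Real.exp (d / 2) * Real.sinh R : ℝ) : ℂ) *
        Complex.exp (2 * Real.pi * Complex.I * θ) := by
    have h2 : (((axis (d / 2)).center R : ℍ) : ℂ) =
        Complex.I * ((Real.exp (d / 2) * Real.cosh R : ℝ) : ℂ) := by
      apply Complex.ext
      · rw [UpperHalfPlane.coe_re, center_re]
        rw [Complex.I_mul_re, Complex.ofReal_im]
        change (0 : ℝ) = -0
        ring
      · rw [UpperHalfPlane.coe_im, center_im]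
        rw [Complex.I_mul_im, Complex.ofReal_re]
        rfl
    rw [h2]
    change circC d R θ - _ = _
    unfold circC
    push_cast
    ring
  rw [Complex.dist_eq, h1, norm_mul, norm_mul, Complex.norm_I, Complex.norm_real, one_mul]
  have h3 : (2 * Real.pi * Complex.I * θ : ℂ) = ((2 * Real.pi * θ : ℝ) : ℂ) * Complex.I := by
    push_cast; ring
  rw [h3, Complex.norm_exp_ofReal_mul_I, mul_one]
  have h4 : 0 ≤ Real.exp (d / 2) * Real.sinh R :=
    mul_nonneg (Real.exp_pos _).le (Real.sinh_nonneg_iff.2 hR)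
  rw [Real.norm_eq_abs, abs_of_nonneg h4]
  rfl

theorem circ_continuous (d R : ℝ) : Continuous (circ d R) := by
  rw [UpperHalfPlane.isEmbedding_coe.continuous_iff]
  change Continuous (fun θ : ℝ => circC d R θ)
  unfold circC
  fun_prop

theorem circ_zero_one (d R : ℝ) : circ d R 0 = circ d R 1 := by
  apply UpperHalfPlane.ext
  change circC d R 0 = circC d R 1
  unfold circC
  have h : (2 * Real.pi * Complex.I * ((1 : ℝ) : ℂ) : ℂ) = 2 * Real.pi * Complex.I := by
    push_cast; ring
  have h0 : (2 * Real.pi * Complex.I * ((0 : ℝ) : ℂ) : ℂ) = 0 := by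
    push_cast; ring
  rw [h, h0, Complex.exp_two_pi_mul_I, Complex.exp_zero]

theorem circ_ne {d R : ℝ} (hd : 0 < d) (hR : d / 2 < R) (θ : ℝ) :
    circ d R θ ≠ axis 0 ∧ circ d R θ ≠ axis d := by
  have h := circ_dist (d := d) (R := R) (by linarith) θ
  constructor
  · intro h0
    rw [h0, axis_dist] at h
    have : |(0 : ℝ) - d / 2| = d / 2 := by
      rw [zero_sub, abs_neg, abs_of_pos (by linarith)]
    linarith
  · intro h0
    rw [h0, axis_dist] at h
    have : |d - d / 2| = d / 2 := by
      rw [abs_of_pos (by linarith)]; ring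
    linarith

end Pool.Kod
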