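import Pool.Agent.Work.MP_f5717c_gt.K.T2

/-!
Module T3 (S-M). The torus avoids all the graphs.

Proof. Let `z = circ d R θ` and `x = e (axis u)`, so `(tor ..).1 = x`, `(tor ..).2 = t (e (scl u z))`. Suppose
`t (e (scl u z)) = t' x` with `t' ∈ T`. Note `t x = t (e (axis u)) = t (e (scl u (axis 0)))` and
`s x = t (e (axis (u + d))) = t (e (scl u (axis d)))` (`h.hax`, `scl_axis`). All maps are isometries, so
`dist (t' x) (t x) = dist z (axis 0)` and `dist (t' x) (s x) = dist z (axis d)`. By `circ_dist` and `hR2` one of the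
two is `< d`. If the first, then `t' = t` by `h.hmin`, so `t' x = t x` and `z = axis 0`: this contradicts
`circ_ne`. If the second, `t' = s` and `z = axis d`, again a contradiction. (`hR : d/2 < R` and `0 < d`
give `0 ≤ R`.)
-/

namespace Pool.Kod

open UpperHalfPlane

theorem tor_mem {L₁ L₂ : Subgroup Iso} {T : Set Iso} {t s e γ δ : Iso} {d L : ℝ}
    (h : IsTube L₁ L₂ T t s e γ δ d L) {R : ℝ} (hR : d / 2 < R)
    (hR2 : ∀ z : ℍ, dist z (axis (d / 2)) ≤ R → dist z (axis 0) < d ∨ dist z (axis d) < d)
    (u θ : ℝ) : ∀ t' ∈ T, (tor t e d R u θ).2 ≠ t' (tor t e d R u θ).1 := by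
  intro t' ht' heq
  have hd := h.hd
  have heq' : t (e (scl u (circ d R θ))) = t' (e (axis u)) := heq
  have ha0 : scl u (axis 0) = axis u := by rw [scl_axis, add_zero]
  have had : scl u (axis d) = axis (u + d) := scl_axis u d
  have hx : t (e (scl u (axis 0))) = t (e (axis u)) := by rw [ha0]
  have hs : t (e (scl u (axis d))) = s (e (axis u)) := by rw [had]; exact (h.hax u).symm
  have d0 : dist (t' (e (axis u))) (t (e (axis u))) = dist (circ d R θ) (axis 0) := by
    rw [← heq', ← hx, t.dist_eq, e.dist_eq, scl_dist]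
  have d1 : dist (t' (e (axis u))) (s (e (axis u))) = dist (circ d R θ) (axis d) := by
    rw [← heq', ← hs, t.dist_eq, e.dist_eq, scl_dist]
  have hcd := circ_dist (d := d) (R := R) (by linarith) θ
  have hne := circ_ne hd hR θ
  rcases hR2 (circ d R θ) hcd.le with h0 | h0
  · by_cases htt : t' = t
    · subst htt
      rw [dist_self] at d0
      exact hne.1 (dist_eq_zero.1 d0.symm)
    · have := h.hmin t' ht' t h.ht htt (e (axis u))
      linarith
  · by_cases htt : t' = s
    · subst htt
      rw [dist_self] at d1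
      exact hne.2 (dist_eq_zero.1 d1.symm)
    · have := h.hmin t' ht' s h.hs htt (e (axis u))
      linarith

end Pool.Kod
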