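import Pool.Agent.Work.MP_f5717c_gt.K.T3
import Pool.Agent.Work.MP_f5717c_gt.K.T4
import Pool.Agent.Work.MP_f5717c_gt.K.Sq

/-!
Module TC (S-M). The two generators of the torus commute.

Proof. `F (τ, θ) = tor t e d R (L τ) θ` is continuous on `I × I` (`tor_continuous`) with values in the
complement (`tor_mem`), so `H = pr ∘ F : C(I × I, Base L₁ L₂ T)`. Apply `square` to `H` with
`p = ` the image of `g` (`τ ↦ H (τ, 0)`), `q = ` the image of `c`: `H (1, θ) = pr (tor L θ)` and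
`tor L θ = (γ, δ) (tor 0 θ)` (`tor_period` with `u = 0`), so `H (1, θ) = pr (tor 0 θ) = pr (c θ)`
(`Quotient.sound`), `p' = ` the image of `c` (`H (0, θ)`), `q' = ` the image of `g`
(`H (τ, 1) = H (τ, 0)` by `tor_theta`).
-/

namespace Pool.Kod

open UpperHalfPlane unitInterval

theorem torus_comm {L₁ L₂ : Subgroup Iso} {T : Set Iso} {t s e γ δ : Iso} {d L : ℝ}
    (h : IsTube L₁ L₂ T t s e γ δ d L) {R : ℝ} (hR : d / 2 < R)
    (hR2 : ∀ z : ℍ, dist z (axis (d / 2)) ≤ R → dist z (axis 0) < d ∨ dist z (axis d) < d)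
    {p₀ q₀ : Comp T} (c : Path p₀ p₀) (hc : ∀ θ : I, (c θ).1 = tor t e d R 0 θ)
    (g : Path p₀ q₀) (hg : ∀ τ : I, (g τ).1 = tor t e d R (L * τ) 0)
    (hpq : pr L₁ L₂ T q₀ = pr L₁ L₂ T p₀) :
    (((g.map (pr L₁ L₂ T).continuous).cast rfl hpq.symm).trans
        (c.map (pr L₁ L₂ T).continuous)).Homotopic
      ((c.map (pr L₁ L₂ T).continuous).trans
        ((g.map (pr L₁ L₂ T).continuous).cast rfl hpq.symm)) := by
  have hm := fun u θ => tor_mem h hR hR2 u θ
  have hcont := tor_continuous t e d R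
  let F : C(I × I, Comp T) :=
    ⟨fun x => ⟨tor t e d R (L * x.1) x.2, hm (L * x.1) x.2⟩, by
      apply Continuous.subtype_mk
      exact hcont.comp ((continuous_const.mul (continuous_subtype_val.comp continuous_fst)).prodMk
        (continuous_subtype_val.comp continuous_snd))⟩
  apply square ((pr L₁ L₂ T).comp F)
  · intro τ
    change pr L₁ L₂ T (g τ) = pr L₁ L₂ T (F (τ, 0))
    congr 1
    exact Subtype.ext (hg τ)
  · intro θ
    change pr L₁ L₂ T (c θ) = pr L₁ L₂ T (F (1, θ))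
    apply Quotient.sound
    have hp := tor_period h R 0 θ
    rw [zero_add] at hp
    refine ⟨γ, h.hγ, δ, h.hδ, ?_, ?_⟩
    · change (tor t e d R (L * (1 : ℝ)) θ).1 = γ (c θ).1.1
      rw [mul_one, hc, hp.1]
    · change (tor t e d R (L * (1 : ℝ)) θ).2 = δ (c θ).1.2
      rw [mul_one, hc, hp.2]
  · intro θ
    change pr L₁ L₂ T (c θ) = pr L₁ L₂ T (F (0, θ))
    congr 1
    apply Subtype.ext
    rw [hc]
    change tor t e d R 0 θ = tor t e d R (L * (0 : ℝ)) θ
    rw [mul_zero]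
  · intro τ
    change pr L₁ L₂ T (g τ) = pr L₁ L₂ T (F (τ, 1))
    congr 1
    apply Subtype.ext
    rw [hg]
    change tor t e d R (L * τ) 0 = tor t e d R (L * τ) 1
    rw [tor_theta]

end Pool.Kod
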